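import Pool.Agent.K4H80.BF.Iter

set_option autoImplicit false
set_option maxHeartbeats 4000000

/-!
# Rows of arbitrary length

The local lemma only sees the elements which are not yet coloured. In every phase the elements
which are nearly coloured are rounded, so that the number of uncoloured elements in a row is at most
the cube of `s t` when the row masses are at most `s`.
-/

open MeasureTheory ProbabilityTheory Filter

namespace Pool.Agent.K4H80.BF

open Pool.Agent.H320R2.LD Pool.Agent.H320R2.LD.PHASE Pool.Agent.R959.LD2 Pool.Agent.R959.LD3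

noncomputable section

/-- incidence matrices of set systems of maximum degree at most `t`, divided by `√t` -/
structure FlatE {V W : Type} [Fintype V] [Fintype W] (t : ℝ) (A : W → V → ℝ) : Prop where
  ent : ∀ R v, A R v = 0 ∨ A R v ^ 2 * t = 1
  col : ∀ v, ∑ R, A R v ^ 2 ≤ 1

open Classical in
/-- the matrix without the columns which are already coloured -/
def cut {V W : Type} (A : W → V → ℝ) (a : V → ℝ) : W → V → ℝ :=
  fun R v => if |a v| = 1 then 0 else A R v

/-- number of uncoloured elements in a row -/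
def alive {V W : Type} [Fintype V] (A : W → V → ℝ) (a : V → ℝ) (R : W) : ℕ :=
  (supp (cut A a R)).card

section basic

variable {V W : Type} [Fintype V] [Fintype W] {t : ℝ} {A : W → V → ℝ}

theorem cut_sq_le (A : W → V → ℝ) (a : V → ℝ) (R : W) (v : V) :
    cut A a R v ^ 2 ≤ A R v ^ 2 := by
  unfold cut
  split_ifs
  · simp [sq_nonneg]
  · exact le_rfl

theorem FlatE.colcard (h : FlatE t A) (ht : 0 < t) (v : V) :
    ((supp (fun R => A R v)).card : ℝ) ≤ t := by
  have h1 : ((supp (fun R => A R v)).card : ℝ) * (1 / t) ≤ ∑ R, A R v ^ 2 := by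
    rw [← nsmul_eq_mul, ← Finset.sum_const]
    calc ∑ R ∈ supp (fun R => A R v), 1 / t = ∑ R ∈ supp (fun R => A R v), A R v ^ 2 := by
          refine Finset.sum_congr rfl fun R hR => ?_
          rw [mem_supp] at hR
          rcases h.ent R v with h1 | h1
          · exact absurd h1 hR
          · field_simp
            linarith
      _ ≤ ∑ R, A R v ^ 2 := Finset.sum_le_sum_of_subset_of_nonneg (Finset.subset_univ _)
          fun R _ _ => sq_nonneg _
  have h2 := h1.trans (h.col v)
  rw [mul_one_div, div_le_one ht] at h2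
  exact h2

theorem FlatE.cut (h : FlatE t A) (a : V → ℝ) : FlatE t (cut A a) := by
  refine ⟨fun R v => ?_, fun v => ?_⟩
  · unfold BF.cut
    split_ifs
    · exact Or.inl rfl
    · exact h.ent R v
  · exact (Finset.sum_le_sum fun R _ => cut_sq_le A a R v).trans (h.col v)

theorem FlatE.toFlat (h : FlatE t A) (ht : 0 < t) (κ : ℝ) (a : V → ℝ)
    (hrow : ∀ R, 4 * (alive A a R : ℝ) ≤ Real.exp (t ^ κ)) (hcol : 4 * t ≤ Real.exp (t ^ κ)) :
    Flat κ t (BF.cut A a) := by
  have h1 := h.cut a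
  refine ⟨h1.ent, h1.col, hrow, fun v => ?_⟩
  have := h1.colcard ht v
  linarith

theorem Phi_cut (A : W → V → ℝ) (a : V → ℝ) (R : W) : Phi (cut A a) a R = Phi A a R := by
  unfold Phi
  refine Finset.sum_congr rfl fun v _ => ?_
  unfold cut
  split_ifs with h
  · rw [h]; simp
  · rfl

end basic

theorem ev_cube (κ : ℝ) (hκ : 0 < κ) : ∀ᶠ T : ℝ in atTop, 4 * T ^ 3 ≤ Real.exp (T ^ κ) := by
  have h1 := PARAM3.ev_exp (κ / 2) 4 (by positivity) (by norm_num)
  have h2 := PARAM3.ev (κ / 2) κ 6 (by linarith)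
  filter_upwards [h1, h2, eventually_ge_atTop 1] with T h1 h2 h3
  calc 4 * T ^ 3 ≤ (4 * T) ^ 3 := by
        have : 0 < T ^ 3 := by positivity
        nlinarith
    _ ≤ (Real.exp (2 * T ^ (κ / 2))) ^ 3 := pow_le_pow_left₀ (by linarith) h1 3
    _ = Real.exp (6 * T ^ (κ / 2)) := by
        rw [← Real.exp_nat_mul]
        congr 1
        push_cast
        ring
    _ ≤ Real.exp (T ^ κ) := Real.exp_le_exp.2 h2

/-- One phase while some rows are long, for rows with many elements. -/
def St_BIGE : Prop := ∃ C t0 : ℝ, 0 < C ∧ 2 ≤ t0 ∧ ∀ (t s : ℝ), t0 ≤ t →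
  1 ≤ s → ∀ (V W : Type) [Fintype V] [Fintype W]
  (A : W → V → ℝ) (a : V → ℝ), FlatE t A → (∀ v, |a v| ≤ 1) → (∀ R, Phi A a R ≤ s) →
  (∀ R, (alive A a R : ℝ) ≤ (s * t) ^ 3) →
  ∃ a' : V → ℝ, (∀ v, |a' v| ≤ 1) ∧ (∀ R, Phi A a' R ≤ 4/5 * s) ∧
    (∀ R, (alive A a' R : ℝ) ≤ (4/5 * s * t) ^ 3) ∧
    ∀ R, |∑ v, A R v * (a' v - a v)| ≤ C

/-- `BIG` with separate bound for the supports: the version with `T = s t`. -/
theorem big_core (κ σ : ℝ) (hσ : 0 < σ) (hPARAM : St_PARAM3 1 κ σ) :
    ∃ C t0 : ℝ, 0 < C ∧ 2 ≤ t0 ∧ ∀ (t s : ℝ), t0 ≤ t →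
    1 ≤ s → ∀ (V W : Type) [Fintype V] [Fintype W]
    (A : W → V → ℝ) (a : V → ℝ), FlatE t A → (∀ v, |a v| ≤ 1) → (∀ R, Phi A a R ≤ s) →
    (∀ R, ((supp (A R)).card : ℝ) ≤ Real.exp ((s * t) ^ κ)) →
    4 * t ≤ Real.exp ((s * t) ^ κ) →
    ∃ a' : V → ℝ, (∀ v, |a' v| ≤ 1) ∧ (∀ R, Phi A a' R ≤ 77/100 * s) ∧
      ∀ R, |∑ v, A R v * (a' v - a v)| ≤ C := by
  classical
  obtain ⟨Ch, hCh, hEH'⟩ := eh4 400 (by norm_num)
  obtain ⟨t0, ht02, hpar⟩ := hPARAM 400 (1 / 10 ^ 12) (by norm_num) (by norm_num)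
  set lam : ℝ := (Real.sqrt (64000 * (1 + Ch)))⁻¹ with hlamdef
  have hX : (1 : ℝ) ≤ 64000 * (1 + Ch) := by nlinarith
  have hX0 : (0 : ℝ) < 64000 * (1 + Ch) := by linarith
  have hlam : 0 < lam := inv_pos.2 (Real.sqrt_pos.2 hX0)
  have hlam2 : lam ^ 2 = (64000 * (1 + Ch))⁻¹ := by
    rw [hlamdef, inv_pow, Real.sq_sqrt hX0.le]
  have hlamle : lam ^ 2 ≤ 1 / 64000 := by
    rw [hlam2, one_div]
    exact inv_anti₀ (by norm_num) (by nlinarith)
  have hlam1 : lam ≤ 1 := by nlinarith
  refine ⟨4 / lam, t0, by positivity, ht02, ?_⟩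
  intro t s ht hs1 V W _ _ A a hA ha hPhi hrowc hcolc
  have ht0 : 0 < t := by linarith
  have ht1 : 1 ≤ t := by linarith
  have hs : 0 < s := by linarith
  have hcc := fun v => hA.colcard ht0 v
  -- reuse the lemmas on flat matrices (with a harmless exponent)
  have hle : ∀ R v, A R v ^ 2 * t ≤ 1 := by
    intro R v
    rcases hA.ent R v with h1 | h1
    · rw [h1]; norm_num
    · exact h1.le
  have habseq : ∀ R v, |A R v| = Real.sqrt t * A R v ^ 2 := by
    intro R v
    rcases hA.ent R v with h1 | h1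
    · rw [h1]; simp
    · have h2 : Real.sqrt t ^ 2 = t := Real.sq_sqrt ht0.le
      have h3 : 0 < Real.sqrt t := Real.sqrt_pos.2 ht0
      have h4 : (|A R v| * Real.sqrt t) ^ 2 = 1 := by rw [mul_pow, sq_abs, h2]; exact h1
      have h5 : |A R v| * Real.sqrt t = 1 := by
        have h6 : 0 ≤ |A R v| * Real.sqrt t := by positivity
        nlinarith
      calc |A R v| = |A R v| * (|A R v| * Real.sqrt t) := by rw [h5, mul_one]
        _ = Real.sqrt t * |A R v| ^ 2 := by ring
        _ = _ := by rw [sq_abs]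
  have hrowsum : ∀ R, ∑ v, |A R v| * rho a v ≤ Real.sqrt t * s := by
    intro R
    calc ∑ v, |A R v| * rho a v ≤ ∑ v, Real.sqrt t * (A R v ^ 2 * Real.sqrt (1 - |a v|)) := by
          refine Finset.sum_le_sum fun v _ => ?_
          rw [habseq, mul_assoc]
          refine mul_le_mul_of_nonneg_left ?_ (Real.sqrt_nonneg _)
          exact mul_le_mul_of_nonneg_left (rho_le_sqrt ha v) (sq_nonneg _)
      _ = Real.sqrt t * Phi A a R := by rw [← Finset.mul_sum]; rfl
      _ ≤ _ := mul_le_mul_of_nonneg_left (hPhi R) (Real.sqrt_nonneg _)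
  have hcolsum : ∀ v, ∑ R, |A R v| * rho a v ≤ Real.sqrt t := by
    intro v
    calc ∑ R, |A R v| * rho a v ≤ ∑ R, Real.sqrt t * A R v ^ 2 := by
          refine Finset.sum_le_sum fun R _ => ?_
          rw [habseq]
          exact mul_le_of_le_one_right (by positivity) (rho_le_one v)
      _ = Real.sqrt t * ∑ R, A R v ^ 2 := by rw [← Finset.mul_sum]
      _ ≤ Real.sqrt t * 1 := mul_le_mul_of_nonneg_left (hA.col v) (Real.sqrt_nonneg _)
      _ = Real.sqrt t := mul_one _
  set T : ℝ := s * t with hT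
  have hTt : t ≤ T := by rw [hT]; nlinarith
  have hT0 : 0 < T := by linarith
  have hT1 : 1 ≤ T := by linarith
  obtain ⟨w0, α, q, qb, ε, m, p1, p2, p3, p4, p5, p6, p7, p8, p9, p10, p11, p12, p13, p14, p15⟩ :=
    hpar T (ht.trans hTt) 1 (Real.rpow_le_one_of_one_le_of_nonpos hT1 (by linarith)) le_rfl
      ⌊Real.exp (T ^ κ)⌋₊ rfl
  have hw1 : w0 ≤ 1 := by linarith
  have hexp1 : 1 ≤ Real.exp (T ^ κ) := Real.one_le_exp (Real.rpow_nonneg hT0.le _)
  have hDe : ((⌊Real.exp (T ^ κ)⌋₊ : ℕ) : ℝ) ≤ Real.exp (T ^ κ) :=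
    Nat.floor_le (Real.exp_pos _).le
  have hD1 : 1 ≤ ⌊Real.exp (T ^ κ)⌋₊ := Nat.le_floor (by rw [Nat.cast_one]; exact hexp1)
  have habs : ∀ R v, |A R v| ≤ 1 := by
    intro R v
    have h1 := hle R v
    have h2 : A R v ^ 2 ≤ 1 := by nlinarith [sq_nonneg (A R v)]
    exact (sq_le_one_iff_abs_le_one _).1 h2
  have hbabs : ∀ (R : W) (v : V), |lam * (A R v * rho a v)| = lam * (|A R v| * rho a v) := by
    intro R v
    rw [abs_mul, abs_mul, abs_of_pos hlam, abs_of_nonneg (rho_nonneg ha v)]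
  obtain ⟨a', h1, h2, h3⟩ := core4 (V := V) (W := W × Fin 4) (fun p v => A p.1 v) a lam t s
    (fun p v => hle p.1 v) ha (fun p => hPhi p.1) ht0 hs hlam
    (fun p v => lam * (A p.1 v * rho a v)) (fun _ _ => rfl)
    (by
      intro p v
      rw [hbabs]
      have h4 := habs p.1 v
      have h5 := rho_le_one (a := a) v
      have h6 := rho_nonneg ha v
      calc lam * (|A p.1 v| * rho a v) ≤ 1 * (1 * 1) := by gcongr
        _ = 1 := by norm_num)
    400 1 w0 α q qb ε (1 / 10 ^ 12) Ch (4 * lam ^ 2) (1 / (1000 * Real.exp (T ^ κ)))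
    (T ^ (1 : ℝ) / 1) ⌊Real.exp (T ^ κ)⌋₊ m rfl le_rfl p3 hw1 p4 rfl
    (stf_of_copies _ w0 p3 hw1 (fun R i v => rfl))
    p5 p6 p7 p8 p2 hD1
    (by
      intro p
      exact Nat.le_floor (hrowc p.1))
    (by
      intro v
      refine Nat.le_floor ?_
      have h4 := hcc v
      have h5 : supp (fun p : W × Fin 4 => A p.1 v) =
          (supp (fun R => A R v)) ×ˢ (Finset.univ : Finset (Fin 4)) := by
        ext ⟨R, i⟩
        rw [mem_supp, Finset.mem_product, mem_supp]
        simp
      rw [h5, Finset.card_product, Finset.card_univ, Fintype.card_fin]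
      push_cast
      linarith)
    (by positivity)
    (by
      intro x
      refine (schur (fun (p : W × Fin 4) v => lam * (A p.1 v * rho a v))
        (lam * (Real.sqrt t * s)) (4 * (lam * Real.sqrt t)) (by positivity) ?_ ?_ x).trans ?_
      · intro p
        simp_rw [hbabs]
        rw [← Finset.mul_sum]
        exact mul_le_mul_of_nonneg_left (hrowsum p.1) hlam.le
      · intro v
        simp_rw [hbabs]
        rw [Fintype.sum_prod_type]
        simp only [Finset.sum_const, Finset.card_univ, Fintype.card_fin, nsmul_eq_mul]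
        rw [← Finset.mul_sum, ← Finset.mul_sum]
        have h4 := hcolsum v
        push_cast
        refine mul_le_mul_of_nonneg_left ?_ (by norm_num)
        exact mul_le_mul_of_nonneg_left h4 hlam.le
      · refine mul_le_mul_of_nonneg_right ?_ (nsq_nonneg x)
        rw [Real.rpow_one, div_one]
        calc lam * (Real.sqrt t * s) * (4 * (lam * Real.sqrt t))
            = 4 * lam ^ 2 * (Real.sqrt t * Real.sqrt t * s) := by ring
          _ = 4 * lam ^ 2 * T := by rw [Real.mul_self_sqrt ht0.le, hT, mul_comm t s]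
          _ ≤ 1 * T := by
              refine mul_le_mul_of_nonneg_right ?_ hT0.le
              linarith
          _ = T := one_mul _)
    p9 p10 p11 p12 p13 (by positivity)
    (by
      rw [mul_one_div, div_le_iff₀ (by positivity)]
      linarith)
    (by
      rw [le_div_iff₀ (by positivity)]
      exact p14)
    hCh
    (by
      intro z hz p
      refine hEH' V (W × Fin 4) _ 1 w0 z le_rfl p3 hw1 hz p ?_
      intro y y'
      exact stf_of_copies _ w0 p3 hw1 (fun R i v => rfl) p y y' (z y) (z y') (hz y) (hz y'))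
    (by
      intro v
      rw [Fintype.sum_prod_type]
      simp only [Finset.sum_const, Finset.card_univ, Fintype.card_fin, nsmul_eq_mul]
      rw [← Finset.mul_sum]
      push_cast
      have h4 : ∑ R, (lam * (A R v * rho a v)) ^ 2 ≤ lam ^ 2 * 1 := by
        calc ∑ R, (lam * (A R v * rho a v)) ^ 2 ≤ ∑ R, lam ^ 2 * A R v ^ 2 := by
              refine Finset.sum_le_sum fun R _ => ?_
              rw [mul_pow, mul_pow]
              refine mul_le_mul_of_nonneg_left ?_ (sq_nonneg _)
              have h5 := rho_nonneg ha v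
              have h6 := rho_le_one (a := a) v
              exact mul_le_of_le_one_right (sq_nonneg _) (by nlinarith)
          _ = lam ^ 2 * ∑ R, A R v ^ 2 := by rw [← Finset.mul_sum]
          _ ≤ lam ^ 2 * 1 := mul_le_mul_of_nonneg_left (hA.col v) (sq_nonneg _)
      linarith)
    (by
      rw [hlam2, inv_one, one_pow, mul_one]
      have h4 : 16 * (4 * (64000 * (1 + Ch))⁻¹ * Ch) = (1 / 1000) * (Ch / (1 + Ch)) := by
        field_simp
        ring
      rw [h4]
      have h5 : Ch / (1 + Ch) ≤ 1 := by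
        rw [div_le_one (by linarith)]
        linarith
      nlinarith)
    (by
      have h4 := p15
      rw [one_mul] at h4
      exact h4)
  refine ⟨a', h1, fun R => ?_, fun R => ?_⟩
  · exact h2 (R, 0)
  · have h4 := h3 (R, 0)
    refine h4.trans (le_of_eq ?_)
    norm_num

end

end Pool.Agent.K4H80.BF
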