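import Pool.Agent.K4H80.BF.Alive

set_option autoImplicit false
set_option maxHeartbeats 4000000

/-!
# Rows of arbitrary length: the phase with rounding, and the iteration
-/

open MeasureTheory ProbabilityTheory Filter

namespace Pool.Agent.K4H80.BF

open Pool.Agent.H320R2.LD Pool.Agent.H320R2.LD.PHASE Pool.Agent.R959.LD2 Pool.Agent.R959.LD3

noncomputable section

open Classical in
/-- rounding of nearly coloured elements; coloured elements keep their colours -/
def rnd {V : Type} (a a' : V → ℝ) (θ : ℝ) : V → ℝ :=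
  fun v => if |a v| = 1 then a v else if 1 - |a' v| ≤ θ then (if 0 ≤ a' v then 1 else -1) else a' v

theorem rnd_abs {V : Type} {a a' : V → ℝ} (θ : ℝ) (ha : ∀ v, |a v| ≤ 1) (ha' : ∀ v, |a' v| ≤ 1)
    (v : V) : |rnd a a' θ v| ≤ 1 := by
  unfold rnd
  split_ifs
  · exact ha v
  · simp
  · simp
  · exact ha' v

theorem rnd_Phi {V W : Type} [Fintype V] {A : W → V → ℝ} {a a' : V → ℝ} (θ : ℝ)
    (ha' : ∀ v, |a' v| ≤ 1) (R : W) : Phi A (rnd a a' θ) R ≤ Phi (cut A a) a' R := by
  unfold Phi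
  refine Finset.sum_le_sum fun v _ => ?_
  unfold rnd cut
  by_cases h1 : |a v| = 1
  · simp [h1]
  · simp only [h1, if_false]
    by_cases h2 : 1 - |a' v| ≤ θ
    · simp only [h2, if_true]
      have h3 : |(if 0 ≤ a' v then (1 : ℝ) else -1)| = 1 := by split_ifs <;> simp
      rw [h3]
      have : 0 ≤ A R v ^ 2 * Real.sqrt (1 - |a' v|) := by positivity
      simpa using this
    · simp only [h2, if_false]
      exact le_rfl

theorem rnd_diff {V : Type} {a a' : V → ℝ} (θ : ℝ) (hθ : 0 ≤ θ) (ha' : ∀ v, |a' v| ≤ 1)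
    (v : V) (h1 : |a v| ≠ 1) : |rnd a a' θ v - a' v| ≤ θ := by
  unfold rnd
  simp only [h1, if_false]
  by_cases h2 : 1 - |a' v| ≤ θ
  · simp only [h2, if_true]
    have h3 := ha' v
    split_ifs with h4
    · rw [abs_of_nonneg h4] at h2 h3
      rw [abs_of_nonneg (by linarith)]
      exact h2
    · rw [not_le] at h4
      rw [abs_of_neg h4] at h2 h3
      rw [abs_of_nonpos (by linarith)]
      linarith
  · simp only [h2, if_false]
    simpa using hθ

theorem prove_BIGE : St_BIGE := by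
  classical
  have hpar := prove_PARAM3 1 (1 / 12) (1 / 10) zero_le_one (by norm_num) (by norm_num)
    (by norm_num)
  obtain ⟨C, t0, hC, ht02, hph⟩ := big_core (1 / 12) (1 / 10) (by norm_num) hpar
  obtain ⟨T0, hT0⟩ := eventually_atTop.1 (ev_cube (1 / 12) (by norm_num))
  refine ⟨C + 4, max t0 T0, by positivity, ht02.trans (le_max_left _ _), ?_⟩
  intro t s ht hs1 V W _ _ A a hA ha hPhi hal
  have b1 : t0 ≤ t := (le_max_left _ _).trans ht
  have b2 : T0 ≤ t := (le_max_right _ _).trans ht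
  have ht2 : 2 ≤ t := ht02.trans b1
  have ht0 : 0 < t := by linarith
  set T : ℝ := s * t with hT
  have hTt : t ≤ T := by rw [hT]; nlinarith
  have hT2 : 2 ≤ T := ht2.trans hTt
  have hTp : 0 < T := by linarith
  have hcube := hT0 T (b2.trans hTt)
  have hT3 : T ≤ T ^ 3 := by nlinarith [sq_nonneg T, mul_pos hTp hTp]
  have hB := hA.cut a
  obtain ⟨a1, c1, c2, c3⟩ := hph t s b1 hs1 V W (cut A a) a hB ha
    (fun R => by rw [Phi_cut]; exact hPhi R)
    (fun R => by
      have := hal R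
      unfold alive at this
      have h3 : (0 : ℝ) ≤ T ^ 3 := by positivity
      linarith)
    (by linarith)
  set θ : ℝ := 4 * (T ^ 4)⁻¹ with hθ
  have hθ0 : 0 < θ := by positivity
  have hsq : Real.sqrt θ = 2 * (T ^ 2)⁻¹ := by
    have h0 : θ = (2 * (T ^ 2)⁻¹) ^ 2 := by
      rw [hθ]
      have : T ≠ 0 := hTp.ne'
      clear_value T
      field_simp
      norm_num
    rw [h0]
    exact Real.sqrt_sq (by positivity)
  refine ⟨rnd a a1 θ, rnd_abs θ ha c1, fun R => ?_, fun R => ?_, fun R => ?_⟩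
  · refine (rnd_Phi θ c1 R).trans ((c2 R).trans ?_)
    linarith
  · -- number of uncoloured elements
    have h1 : (alive A (rnd a a1 θ) R : ℝ) * (1 / t * Real.sqrt θ) ≤ Phi (cut A a) a1 R := by
      unfold alive
      rw [← nsmul_eq_mul, ← Finset.sum_const]
      unfold Phi
      refine le_trans (Finset.sum_le_sum fun v hv => ?_)
        (Finset.sum_le_sum_of_subset_of_nonneg (Finset.subset_univ _)
          fun v _ _ => by positivity)
      rw [mem_supp] at hv
      have h2 : |rnd a a1 θ v| ≠ 1 := by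
        intro h3
        apply hv
        unfold cut
        rw [if_pos h3]
      have h3 : A R v ≠ 0 := by
        intro h4
        apply hv
        unfold cut
        rw [if_neg h2, h4]
      have h4 : |a v| ≠ 1 := by
        intro h5
        apply h2
        unfold rnd
        rw [if_pos h5, h5]
      have h5 : ¬ (1 - |a1 v| ≤ θ) := by
        intro h6
        apply h2
        unfold rnd
        rw [if_neg h4, if_pos h6]
        split_ifs <;> simp
      rw [not_le] at h5
      have h6 : cut A a R v = A R v := by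
        unfold cut
        rw [if_neg h4]
      rw [h6]
      have h7 : A R v ^ 2 = 1 / t := by
        rcases hA.ent R v with h8 | h8
        · exact absurd h8 h3
        · field_simp
          linarith
      rw [h7]
      exact mul_le_mul_of_nonneg_left (Real.sqrt_le_sqrt h5.le) (by positivity)
    have h2 := h1.trans (c2 R)
    rw [hsq] at h2
    have h3 : (alive A (rnd a a1 θ) R : ℝ) * (1 / t * (2 * (T ^ 2)⁻¹)) * (t * T ^ 2) =
        2 * (alive A (rnd a a1 θ) R : ℝ) := by
      field_simp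
    have h4 : (alive A (rnd a a1 θ) R : ℝ) * (1 / t * (2 * (T ^ 2)⁻¹)) * (t * T ^ 2) ≤
        77 / 100 * s * (t * T ^ 2) := mul_le_mul_of_nonneg_right h2 (by positivity)
    rw [h3] at h4
    have h5 : 77 / 100 * s * (t * T ^ 2) = 77 / 100 * T ^ 3 := by rw [hT]; ring
    rw [h5] at h4
    have h6 : (4 / 5 * s * t) ^ 3 = 64 / 125 * T ^ 3 := by rw [hT]; ring
    rw [h6]
    have h7 : 0 < T ^ 3 := by positivity
    linarith
  · -- the row sums
    have e1 : ∑ v, A R v * (rnd a a1 θ v - a v) =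
        ∑ v, cut A a R v * (a1 v - a v) + ∑ v, cut A a R v * (rnd a a1 θ v - a1 v) := by
      rw [← Finset.sum_add_distrib]
      refine Finset.sum_congr rfl fun v _ => ?_
      unfold cut
      by_cases h1 : |a v| = 1
      · have h2 : rnd a a1 θ v = a v := by unfold rnd; rw [if_pos h1]
        rw [h2, if_pos h1]; ring
      · rw [if_neg h1]; ring
    have e2 : |∑ v, cut A a R v * (rnd a a1 θ v - a1 v)| ≤ 4 := by
      have h1 : |∑ v, cut A a R v * (rnd a a1 θ v - a1 v)| ≤ ∑ v ∈ supp (cut A a R), θ := by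
        refine (Finset.abs_sum_le_sum_abs _ _).trans ?_
        rw [← Finset.sum_subset (Finset.subset_univ (supp (cut A a R)))]
        · refine Finset.sum_le_sum fun v hv => ?_
          rw [mem_supp] at hv
          have h2 : |a v| ≠ 1 := by
            intro h3
            apply hv
            unfold cut
            rw [if_pos h3]
          rw [abs_mul]
          have h3 := rnd_diff (a := a) θ hθ0.le c1 v h2
          have h4 : |cut A a R v| ≤ 1 := by
            have h5 : cut A a R v ^ 2 * t ≤ 1 := by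
              rcases hB.ent R v with h1 | h1
              · rw [h1]; norm_num
              · exact h1.le
            have h6 : cut A a R v ^ 2 ≤ 1 := by nlinarith [sq_nonneg (cut A a R v)]
            exact (sq_le_one_iff_abs_le_one _).1 h6
          calc |cut A a R v| * |rnd a a1 θ v - a1 v| ≤ 1 * θ :=
                mul_le_mul h4 h3 (abs_nonneg _) zero_le_one
            _ = θ := one_mul _
        · intro v _ hv
          have : cut A a R v = 0 := by
            by_contra h
            exact hv ((mem_supp _ _).2 h)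
          rw [this]; simp
      rw [Finset.sum_const, nsmul_eq_mul] at h1
      have h2 : ((supp (cut A a R)).card : ℝ) ≤ T ^ 3 := hal R
      calc _ ≤ ((supp (cut A a R)).card : ℝ) * θ := h1
        _ ≤ T ^ 3 * θ := mul_le_mul_of_nonneg_right h2 hθ0.le
        _ = 4 / T := by rw [hθ]; field_simp
        _ ≤ 4 := by
            rw [div_le_iff₀ hTp]
            linarith
    rw [e1]
    exact (abs_add_le _ _).trans (add_le_add (c3 R) e2)

/-- reduction of the row masses to one, rows of arbitrary length -/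
theorem iterBigE : ∃ C t0 : ℝ, 0 < C ∧ 2 ≤ t0 ∧ ∀ (t : ℝ), t0 ≤ t →
    ∀ (V W : Type) [Fintype V] [Fintype W] (A : W → V → ℝ), FlatE t A →
    ∀ (a0 : V → ℝ), (∀ v, |a0 v| ≤ 1) → ∀ S : ℝ, 1 ≤ S → (∀ R, Phi A a0 R ≤ S) →
    (∀ R, (alive A a0 R : ℝ) ≤ (S * t) ^ 3) →
    ∃ a : V → ℝ, (∀ v, |a v| ≤ 1) ∧ (∀ R, Phi A a R ≤ 1) ∧ (∀ R, (alive A a R : ℝ) ≤ t ^ 3) ∧
      ∀ R, |∑ v, A R v * (a v - a0 v)| ≤ C * (1 + Real.log S) := by
  obtain ⟨C, t0, hC, ht0, hph⟩ := prove_BIGE
  refine ⟨5 * C, t0, by positivity, ht0, ?_⟩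
  intro t ht V W _ _ A hA
  have htp : 0 < t := by linarith
  have key : ∀ n : ℕ, ∀ (a0 : V → ℝ), (∀ v, |a0 v| ≤ 1) → ∀ S : ℝ, 1 ≤ S →
      S ≤ (5 / 4 : ℝ) ^ n → (∀ R, Phi A a0 R ≤ S) →
      (∀ R, (alive A a0 R : ℝ) ≤ (S * t) ^ 3) →
      ∃ a : V → ℝ, (∀ v, |a v| ≤ 1) ∧ (∀ R, Phi A a R ≤ 1) ∧
      (∀ R, (alive A a R : ℝ) ≤ t ^ 3) ∧
      ∀ R, |∑ v, A R v * (a v - a0 v)| ≤ C * n := by
    intro n
    induction n with
    | zero =>
      intro a0 ha0 S hS1 hS2 hP hal
      have hS : S = 1 := le_antisymm (by simpa using hS2) hS1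
      rw [hS] at hP hal
      refine ⟨a0, ha0, hP, fun R => by simpa using hal R, fun R => by simp⟩
    | succ n ih =>
      intro a0 ha0 S hS1 hS2 hP hal
      obtain ⟨a1, b1, b2, b4, b3⟩ := hph t S ht hS1 V W A a0 hA ha0 hP hal
      have hp : (1 : ℝ) ≤ (5 / 4 : ℝ) ^ n := one_le_pow₀ (by norm_num)
      obtain ⟨a2, c1, c2, c4, c3⟩ := ih a1 b1 (max (4 / 5 * S) 1) (le_max_right _ _)
        (max_le (by rw [pow_succ] at hS2; linarith) hp)
        (fun R => (b2 R).trans (le_max_left _ _))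
        (fun R => (b4 R).trans (by
          refine pow_le_pow_left₀ (by positivity) ?_ 3
          exact mul_le_mul_of_nonneg_right (le_max_left _ _) htp.le))
      refine ⟨a2, c1, c2, c4, fun R => ?_⟩
      have e : ∑ v, A R v * (a2 v - a0 v) =
          ∑ v, A R v * (a2 v - a1 v) + ∑ v, A R v * (a1 v - a0 v) := by
        rw [← Finset.sum_add_distrib]
        exact Finset.sum_congr rfl fun v _ => by ring
      rw [e]
      refine (abs_add_le _ _).trans ?_
      push_cast
      have := c3 R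
      have := b3 R
      linarith
  intro a0 ha0 S hS hP hal
  have hlS : 0 ≤ Real.log S := Real.log_nonneg hS
  obtain ⟨a, d1, d2, d4, d3⟩ := key ⌈5 * Real.log S⌉₊ a0 ha0 S hS (by
    have h2 : 5 * Real.log S ≤ (⌈5 * Real.log S⌉₊ : ℕ) := Nat.le_ceil _
    have h3 : Real.log S ≤ Real.log ((5 / 4 : ℝ) ^ ⌈5 * Real.log S⌉₊) := by
      rw [Real.log_pow]
      have h4 := log54
      have h5 : (0 : ℝ) ≤ (⌈5 * Real.log S⌉₊ : ℕ) := Nat.cast_nonneg _
      nlinarith
    exact (Real.log_le_log_iff (by linarith) (by positivity)).1 h3) hP hal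
  refine ⟨a, d1, d2, d4, fun R => (d3 R).trans ?_⟩
  have h2 : ((⌈5 * Real.log S⌉₊ : ℕ) : ℝ) ≤ 5 * Real.log S + 1 :=
    (Nat.ceil_lt_add_one (by positivity)).le
  nlinarith

/-- Rounding of a point of the cube for which all row masses are at most one and all rows have at
most `t ^ 3` uncoloured elements. -/
theorem finish : ∃ C t0 : ℝ, 0 < C ∧ 2 ≤ t0 ∧ ∀ (t : ℝ), t0 ≤ t →
    ∀ (V W : Type) [Fintype V] [Fintype W] (A : W → V → ℝ), FlatE t A →
    ∀ (a0 : V → ℝ), (∀ v, |a0 v| ≤ 1) → (∀ R, Phi A a0 R ≤ 1) →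
    (∀ R, (alive A a0 R : ℝ) ≤ t ^ 3) →
    ∃ x : V → ℝ, (∀ v, x v = 1 ∨ x v = -1) ∧ ∀ R, |∑ v, A R v * (x v - a0 v)| ≤ C := by
  classical
  have hpar := prove_PARAM3 1 (1 / 12) (1 / 10) zero_le_one (by norm_num) (by norm_num)
    (by norm_num)
  obtain ⟨C2, t2, hC2, ht2, hS⟩ := iterSmall (1 / 12) (1 / 10) (by norm_num)
    (prove_SMALL (1 / 12) (1 / 10) hpar)
  obtain ⟨t3, ht3, hR⟩ := round4 (1 / 12) (1 / 10) (by norm_num) (by norm_num) (by norm_num)
  obtain ⟨T0, hT0⟩ := eventually_atTop.1 (ev_cube (1 / 12) (by norm_num))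
  refine ⟨C2 + 10, max t2 (max t3 T0), by positivity, ht2.trans (le_max_left _ _), ?_⟩
  intro t ht V W _ _ A hA a0 ha0 hP hal
  have b1 : t2 ≤ t := (le_max_left _ _).trans ht
  have b2 : t3 ≤ t := ((le_max_left _ _).trans (le_max_right _ _)).trans ht
  have b3 : T0 ≤ t := ((le_max_right _ _).trans (le_max_right _ _)).trans ht
  have ht2' : 2 ≤ t := ht2.trans b1
  have ht0 : 0 < t := by linarith
  have hcube := hT0 t b3
  have htt : t ≤ t ^ 3 := by nlinarith [mul_pos ht0 ht0]
  have hF : Flat (1 / 12) t (cut A a0) := hA.toFlat ht0 _ a0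
    (fun R => by have := hal R; linarith) (by linarith)
  obtain ⟨a2, d1, d2, d3⟩ := hS t b1 V W (cut A a0) hF a0 ha0
    (fun R => by rw [Phi_cut]; exact hP R)
  have hsq : ∀ R, ∑ v, cut A a0 R v ^ 2 * (1 - |a2 v|) ≤ t ^ (-(1 / 10 : ℝ)) := by
    intro R
    refine le_trans (Finset.sum_le_sum fun v _ => ?_) (d2 R)
    apply mul_le_mul_of_nonneg_left _ (sq_nonneg _)
    have h0 : 0 ≤ 1 - |a2 v| := by linarith [d1 v]
    have h1 : 1 - |a2 v| ≤ 1 := by linarith [abs_nonneg (a2 v)]
    calc 1 - |a2 v| = Real.sqrt ((1 - |a2 v|) ^ 2) := (Real.sqrt_sq h0).symm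
      _ ≤ Real.sqrt (1 - |a2 v|) := Real.sqrt_le_sqrt (by nlinarith)
  obtain ⟨x, e1, e2⟩ := hR t b2 V W (cut A a0) a2 hF d1 hsq
  refine ⟨fun v => if |a0 v| = 1 then a0 v else x v, fun v => ?_, fun R => ?_⟩
  · dsimp only
    split_ifs with h
    · exact eq_or_eq_neg_of_abs_eq h
    · exact e1 v
  · have h3 : ∑ v, A R v * ((if |a0 v| = 1 then a0 v else x v) - a0 v) =
        ∑ v, cut A a0 R v * (x v - a2 v) + ∑ v, cut A a0 R v * (a2 v - a0 v) := by
      rw [← Finset.sum_add_distrib]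
      refine Finset.sum_congr rfl fun v _ => ?_
      unfold cut
      by_cases h1 : |a0 v| = 1
      · rw [if_pos h1, if_pos h1]; ring
      · rw [if_neg h1, if_neg h1]; ring
    rw [h3]
    refine (abs_add_le _ _).trans ?_
    have := e2 R
    have := d3 R
    linarith

/-- Discrepancy of incidence matrices with rows of mass at most `S`, from an arbitrary point of the
cube. -/
theorem main5 : ∃ C t0 : ℝ, 0 < C ∧ 2 ≤ t0 ∧ ∀ (t : ℝ), t0 ≤ t →
    ∀ (V W : Type) [Fintype V] [Fintype W] (A : W → V → ℝ), FlatE t A →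
    ∀ (a0 : V → ℝ), (∀ v, |a0 v| ≤ 1) → ∀ S : ℝ, 1 ≤ S → (∀ R, ∑ v, A R v ^ 2 ≤ S) →
    ∃ x : V → ℝ, (∀ v, x v = 1 ∨ x v = -1) ∧
      ∀ R, |∑ v, A R v * (x v - a0 v)| ≤ C * (1 + Real.log S) := by
  classical
  obtain ⟨C1, t1, hC1, ht1, hB⟩ := iterBigE
  obtain ⟨C2, t2, hC2, ht2, hF⟩ := finish
  refine ⟨C1 + C2, max t1 t2, by positivity, ht1.trans (le_max_left _ _), ?_⟩
  intro t ht V W _ _ A hA a0 ha0 S hS1 hrow
  have b1 : t1 ≤ t := (le_max_left _ _).trans ht
  have b2 : t2 ≤ t := (le_max_right _ _).trans ht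
  have ht2' : 2 ≤ t := ht1.trans b1
  have ht0 : 0 < t := by linarith
  have hP0 : ∀ R, Phi A a0 R ≤ S := by
    intro R
    refine le_trans (Finset.sum_le_sum fun v _ => ?_) (hrow R)
    refine mul_le_of_le_one_right (sq_nonneg _) ?_
    rw [Real.sqrt_le_one]
    linarith [abs_nonneg (a0 v)]
  have hal : ∀ R, (alive A a0 R : ℝ) ≤ (S * t) ^ 3 := by
    intro R
    have h1 : (alive A a0 R : ℝ) * (1 / t) ≤ ∑ v, A R v ^ 2 := by
      unfold alive
      rw [← nsmul_eq_mul, ← Finset.sum_const]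
      refine le_trans (Finset.sum_le_sum fun v hv => ?_)
        (Finset.sum_le_sum_of_subset_of_nonneg (Finset.subset_univ _)
          fun v _ _ => sq_nonneg (A R v))
      rw [mem_supp] at hv
      have h2 : A R v ≠ 0 := by
        intro h3
        apply hv
        unfold cut
        rw [h3]
        split_ifs <;> rfl
      rcases hA.ent R v with h3 | h3
      · exact absurd h3 h2
      · rw [div_le_iff₀ ht0, h3]
    have h2 := h1.trans (hrow R)
    rw [mul_one_div, div_le_iff₀ ht0] at h2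
    have h3 : 1 ≤ S * t := by nlinarith
    refine h2.trans ?_
    calc S * t = (S * t) ^ 1 := (pow_one _).symm
      _ ≤ (S * t) ^ 3 := pow_le_pow_right₀ h3 (by norm_num)
  obtain ⟨a1, c1, c2, c4, c3⟩ := hB t b1 V W A hA a0 ha0 S hS1 hP0 hal
  obtain ⟨x, e1, e2⟩ := hF t b2 V W A hA a1 c1 c2 c4
  refine ⟨x, e1, fun R => ?_⟩
  have h3 : ∑ v, A R v * (x v - a0 v) = ∑ v, A R v * (x v - a1 v) +
      ∑ v, A R v * (a1 v - a0 v) := by
    rw [← Finset.sum_add_distrib]
    exact Finset.sum_congr rfl fun v _ => by ring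
  rw [h3]
  have hl : 0 ≤ Real.log S := Real.log_nonneg hS1
  have f1 := abs_add_le (∑ v, A R v * (x v - a1 v)) (∑ v, A R v * (a1 v - a0 v))
  have f3 := c3 R
  have f5 := e2 R
  have f6 : 0 ≤ C2 * Real.log S := by positivity
  nlinarith

end

end Pool.Agent.K4H80.BF
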