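import Pool.Agent.K4H80.BF.Rep

set_option autoImplicit false
set_option linter.unusedSectionVars false
set_option linter.unusedVariables false
set_option maxHeartbeats 4000000

/-!
# One phase, with different mass bounds and scales for different rows
-/

open MeasureTheory ProbabilityTheory

namespace Pool.Agent.K4H80.BF

open Pool.Agent.H320R2.LD Pool.Agent.H320R2.LD.PHASE Pool.Agent.R959.LD2

noncomputable section

open Classical in
/-- The assembly with explicit parameters, with different potentials for different rows. -/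
theorem core5
    {V W : Type} [Fintype V] [Fintype W] (A : W → V → ℝ) (a : V → ℝ) (lam S : W → ℝ) (t s : ℝ)
    (hA1 : ∀ R v, A R v ^ 2 * t ≤ 1)
    (ha : ∀ v, |a v| ≤ 1) (hPhi : ∀ R, Phi A a R ≤ S R)
    (ht0 : 0 < t) (hs : 0 < s) (hsS : ∀ R, s ≤ S R) (hlam : ∀ R, 0 < lam R)
    (b : W → V → ℝ) (hbdef : ∀ R v, b R v = lam R * (A R v * rho a v))
    (hb1 : ∀ R v, |b R v| ≤ 1)
    (M K w0 α q qb ε c L e0 N1 : ℝ) (H : W → ℝ) (D m : ℕ)
    (hM : M = 400) (hK : 1 ≤ K) (hw0 : 0 < w0) (hw1 : w0 ≤ 1) (hw2 : w0 ≤ 1/1000)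
    (hc : c = 1 / 10 ^ 12) (hL : 1 ≤ L) (hst : StfL b K w0 L)
    (hq : 2 * (1 + 2 * M) ≤ q) (hqw : w0 ≤ q⁻¹) (hα : 0 < α) (hα1 : α ≤ 1) (hm : 1 ≤ m)
    (hD : 1 ≤ D)
    (hA4 : ∀ R, (supp (A R)).card ≤ D) (hA5 : ∀ v, (supp (fun R => A R v)).card ≤ D)
    (hN1 : 0 ≤ N1) (hOPb : ∀ x : V → ℝ, ∑ R, (∑ v, |b R v| * |x v|) ^ 2 ≤ N1 * nsq x)
    (hCT : 8 * α ^ 2 * q ^ 4 * N1 ≤ 1)
    (hqb : 0 < qb) (hqb1 : qb ≤ 1) (hε : 0 < ε)
    (hpath : (2 * (D : ℝ) ^ 2) ^ (4 * m) * Real.exp (-(m : ℝ) * q ^ 2 / (4 * M ^ 2)) ≤ qb ^ 2)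
    (he0p : 0 < e0) (he0 : (D : ℝ) * e0 ≤ 1 / 1000) (hεq : ε + 2 * qb ≤ e0)
    (hEH : ∀ (z : (V → ℝ) → (V → ℝ)),
      (∀ y, VI b (pf K w0) y (z y)) → ∀ R,
      Integrable (fun g => hf K w0 (eta b (z (M • g)) R)) (gam V) ∧
      ∫ g, hf K w0 (eta b (z (M • g)) R) ∂(gam V) ≤ H R)
    (hKs : ∀ v, 16 * ∑ R, b R v ^ 2 * H R ≤ 1 / 1000)
    (hfin : 4 * (Real.exp (-(c * (s * t))) + 2 * Real.exp (-((w0⁻¹) ^ 4 / M ^ 2))
      + D * (2 * qb + 2 * Real.exp (-(ε ^ 2 * Real.exp (4 * α * m) / (16 * M ^ 2)))))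
      * (((D ^ 2 + 1) ^ (2 * (4 * m) + 1) : ℕ) : ℝ) ≤ 1) :
    ∃ a' : V → ℝ, (∀ v, |a' v| ≤ 1) ∧ (∀ R, Phi A a' R ≤ 77/100 * S R) ∧
      ∀ R, |∑ v, A R v * (a' v - a v)| ≤ (K + 3) / lam R := by
  have mgf := prove_MGF
  have hCONC := prove_CONC mgf
  have mom := prove_MOM mgf
  have pot1 := prove_POT1
  have pot2 := prove_POT2
  have two := prove_TWO
  have hSOL := prove_SOL pot1 two
  have mix := prove_MIX
  have hLLL := prove_LLL mix
  have cond := prove_COND hCONC mix
  have hFAR := prove_FAR hSOL hCONC mom pot2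
  have hotp := prove_HOTP hSOL hCONC mgf mom pot2
  have ct := prove_CT two pot1
  have hLOC := prove_LOC hotp prove_PATH prove_CH ct hSOL cond
  have hDEP := prove_DEP
  have hGEX := prove_GEX
  have hcont := (pot1 K w0 hK hw0 hw1).1
  have hmono := (pot1 K w0 hK hw0 hw1).2.2.1
  choose z hz using fun y => prove_EX V W b (pf K w0) hcont hmono y
  have hM0 : 0 < M := by rw [hM]; norm_num
  obtain ⟨hodd, hlip, hlipv, hlipR, -, -⟩ := hSOL V W b K w0 z hK hw0 hw1 hz
  have hzb : ∀ y v, |z y v| ≤ 1 := fun y v => (hz y).1 v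
  -- supports
  obtain ⟨I, hI⟩ : ∃ I : W → V → Prop, ∀ R v, I R v ↔ A R v ≠ 0 := ⟨_, fun _ _ => Iff.rfl⟩
  have hbI : ∀ R v, b R v ≠ 0 → I R v := fun R v h => (hI R v).2 (by
    intro h0
    apply h
    rw [hbdef, h0]; simp)
  have hAI : ∀ R v, ¬ I R v → A R v = 0 := fun R v h => by
    by_contra h0
    exact h ((hI R v).2 h0)
  have hcardR : ∀ R, (Finset.univ.filter (fun v => I R v)).card ≤ D := by
    intro R
    have : (Finset.univ.filter (fun v => I R v)) = supp (A R) := by
      ext v
      rw [Finset.mem_filter, mem_supp, hI]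
      simp
    rw [this]
    exact hA4 R
  have hcardV : ∀ v, (Finset.univ.filter (fun R => I R v)).card ≤ D := by
    intro v
    have : (Finset.univ.filter (fun R => I R v)) = supp (fun R => A R v) := by
      ext R
      rw [Finset.mem_filter, mem_supp, hI]
      simp
    rw [this]
    exact hA5 v
  have hncR : ∀ R, {v | I R v}.ncard ≤ D := by
    intro R
    rw [Set.ncard_eq_toFinset_card']
    convert hcardR R using 2
    ext v; simp
  have hncV : ∀ v, {R | I R v}.ncard ≤ D := by
    intro v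
    rw [Set.ncard_eq_toFinset_card']
    convert hcardV v using 2
    ext R; simp
  have he01 : e0 ≤ 1 / 1000 := by
    have h1 : (1 : ℝ) ≤ D := by exact_mod_cast hD
    nlinarith
  -- locality
  set X : V → (V → ℝ) → ℝ := fun v => XX z M (ball I (4 * m) v) v with hX
  set δ1 : ℝ := 2 * qb + 2 * Real.exp (-(ε ^ 2 * Real.exp (4 * α * m) / (16 * M ^ 2))) with hδ1
  have hloc : ∀ v, (gam V).real {g | ε + 2 * qb < |X v g - z (M • g) v|} ≤ δ1 := by
    intro v
    exact hLOC V W b K w0 M α q qb ε N1 D m z I hK hw0 hw1 hz hbI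
      hncR hncV hM0 hα hα1 hq hqw hN1 hOPb hCT hqb hqb1 hε hm hpath v
  -- expected free mass
  have hfree : ∀ v, ∫ g, (1 - |z (M • g) v|) ∂(gam V) ≤ 6 / 1000 := by
    intro v
    have hL0 : 0 < L := by linarith
    have h1 := meanL b K w0 L M (w0 / (2 * L)) z hK hw0 hw1 hst hz hM0 (by positivity)
      (le_of_eq (by field_simp)) (fun R => (hEH z hz R).1) v
    have hδ : w0 / (2 * L) ≤ w0 / 2 := by
      apply div_le_div_of_nonneg_left hw0.le (by norm_num)
      linarith
    have h2 : ∑ R, b R v ^ 2 * ∫ g, hf K w0 (eta b (z (M • g)) R) ∂(gam V) ≤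
        ∑ R, b R v ^ 2 * H R :=
      Finset.sum_le_sum fun R _ => mul_le_mul_of_nonneg_left (hEH z hz R).2 (sq_nonneg _)
    have hKv := hKs v
    have h3 : (1 : ℝ) / M = 1 / 400 := by rw [hM]
    rw [h3] at h1
    linarith
  have hzc : ∀ v, Continuous (fun g => z (M • g) v) := fun v =>
    lip_continuous (zM_lip hM0 hlipv v)
  have hG : ∀ v, ∫ g, Gp (sg a v * z (M • g) v) ∂(gam V) ≤ 3 / 4 := by
    intro v
    refine hGEX V (fun g => z (M • g) v) (hzc v) (fun g => hzb _ _) ?_ (hfree v) (sg a v)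
      (sg_cases a v)
    intro g
    have h1 : M • (-g) = -(M • g) := smul_neg _ _
    show z (M • (-g)) v = - z (M • g) v
    rw [h1, hodd]; rfl
  -- progress
  set F : W → (V → ℝ) → ℝ := fun R g => FF A a R (z (M • g)) with hF
  have hS0 : ∀ R, 0 < S R := fun R => lt_of_lt_of_le hs (hsS R)
  have hEF : ∀ R, ∫ g, F R g ∂(gam V) ≤ 3 / 4 * S R := by
    intro R
    have h1 : ∫ g, F R g ∂(gam V) = ∑ v, A R v ^ 2 * Real.sqrt (rho a v) *
        ∫ g, Gp (sg a v * z (M • g) v) ∂(gam V) := by
      rw [hF]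
      unfold FF
      rw [integral_finsetSum]
      · refine Finset.sum_congr rfl fun v _ => ?_
        rw [integral_const_mul]
      · intro v _
        refine Integrable.const_mul ?_ _
        refine Integrable.of_bound (C := 2) ?_ ?_
        · exact (Gp_continuous.comp (continuous_const.mul (hzc v))).aestronglyMeasurable
        · refine Filter.Eventually.of_forall fun g => ?_
          rw [Real.norm_eq_abs]
          refine Gp_bdd _ ?_
          rw [abs_mul, sg_abs, one_mul]; exact hzb _ _
    rw [h1]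
    have h2 : ∑ v, A R v ^ 2 * Real.sqrt (rho a v) *
        ∫ g, Gp (sg a v * z (M • g) v) ∂(gam V) ≤
        ∑ v, A R v ^ 2 * Real.sqrt (rho a v) * (3 / 4) :=
      Finset.sum_le_sum fun v _ => mul_le_mul_of_nonneg_left (hG v) (by positivity)
    refine h2.trans ?_
    rw [← Finset.sum_mul]
    have h3 : ∑ v, A R v ^ 2 * Real.sqrt (rho a v) ≤ S R := hPhi R
    linarith
  have hFlip : ∀ R, Lip (10 * Real.sqrt (S R / t) * M) (F R) := by
    intro R x y
    refine (FF_lip t ht0 ha (hS0 R) hA1 R (hPhi R) (z (M • x)) (z (M • y))).trans ?_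
    rw [mul_assoc (10 * Real.sqrt (S R / t))]
    refine mul_le_mul_of_nonneg_left ?_ (by positivity)
    refine (hlip (M • y) (M • x)).trans ?_
    rw [← smul_sub, nrm_smul, abs_of_pos hM0]
  have hFP : ∀ R, (gam V).real {g | (∫ y, F R y ∂(gam V)) + S R / 100 ≤ F R g}
      ≤ Real.exp (-(c * (s * t))) := by
    intro R
    have hSR := hS0 R
    have hL : 0 < 10 * Real.sqrt (S R / t) * M := by positivity
    refine (hCONC V (F R) _ hL (hFlip R) (S R / 100) (by positivity)).trans ?_
    rw [Real.exp_le_exp]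
    have h1 : (10 * Real.sqrt (S R / t) * M) ^ 2 = 100 * (S R / t) * 160000 := by
      rw [mul_pow, mul_pow, Real.sq_sqrt (by positivity), hM]; norm_num
    have h0 : c * (s * t) ≤ c * (S R * t) := by
      refine mul_le_mul_of_nonneg_left ?_ (by rw [hc]; norm_num)
      exact mul_le_mul_of_nonneg_right (hsS R) ht0.le
    refine le_trans ?_ (neg_le_neg h0)
    rw [h1, hc, neg_div, neg_le_neg_iff, le_div_iff₀ (by positivity)]
    have h2 : (1 / 10 ^ 12 * (S R * t)) * (4 * (100 * (S R / t) * 160000)) =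
        64 / 10 ^ 6 * S R ^ 2 := by
      field_simp
      ring
    rw [h2]
    nlinarith [sq_nonneg (S R)]
  -- the events
  have hfar := fun R => hFAR V W b K w0 M z hK hw0 hw1 hz hM0 R
  set E : W → Set (V → ℝ) := fun R => {g | 77/100 * S R < FF A a R (fun v => X v g) ∨
    K + 3 < |eta b (fun v => X v g) R|} with hE
  have hXc : ∀ v, Continuous (X v) := fun v => lip_continuous (XX_lip hM0 hlipv hzb _ v)
  have hXb : ∀ v g, |X v g| ≤ 1 := fun v g => XX_abs hzb _ v g
  have hEm : ∀ R, MeasurableSet (E R) := by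
    intro R
    have hER : E R = {g | 77/100 * S R < FF A a R (fun v => X v g)} ∪
      {g | K + 3 < |eta b (fun v => X v g) R|} := rfl
    rw [hER]
    refine MeasurableSet.union ?_ ?_
    · refine measurableSet_lt measurable_const (Continuous.measurable ?_)
      unfold FF
      refine continuous_finsetSum _ fun v _ => ?_
      exact continuous_const.mul (Gp_continuous.comp (continuous_const.mul (hXc v)))
    · refine measurableSet_lt measurable_const (Continuous.measurable ?_)
      refine Continuous.abs ?_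
      unfold eta
      exact continuous_finsetSum _ fun v _ => continuous_const.mul (hXc v)
  have hball : ∀ R v, I R v → ball I (4 * m) v ⊆ rball I (4 * m) R := by
    intro R v hv u hu
    unfold rball
    rw [Finset.mem_filter]
    exact ⟨Finset.mem_univ _, v, hv, hu⟩
  have hXdep : ∀ R v, I R v → ∀ x y : V → ℝ, (∀ u ∈ rball I (4 * m) R, x u = y u) →
      X v x = X v y := by
    intro R v hv x y hxy
    exact XX_dep _ v x y fun u hu => hxy u (hball R v hv hu)
  have hEdep : ∀ R, ∀ x y : V → ℝ, (∀ u ∈ rball I (4 * m) R, x u = y u) →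
      (x ∈ E R → y ∈ E R) := by
    intro R x y hxy hx
    have h1 : FF A a R (fun v => X v x) = FF A a R (fun v => X v y) := by
      unfold FF
      refine Finset.sum_congr rfl fun v _ => ?_
      by_cases hv : I R v
      · show A R v ^ 2 * Real.sqrt (rho a v) * Gp (sg a v * X v x)
          = A R v ^ 2 * Real.sqrt (rho a v) * Gp (sg a v * X v y)
        rw [hXdep R v hv x y hxy]
      · have : A R v = 0 := hAI R v hv
        rw [this]; simp
    have h2 : eta b (fun v => X v x) R = eta b (fun v => X v y) R := by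
      unfold eta
      refine Finset.sum_congr rfl fun v _ => ?_
      by_cases hv : I R v
      · show b R v * X v x = b R v * X v y
        rw [hXdep R v hv x y hxy]
      · have : b R v = 0 := by
          by_contra h0
          exact hv (hbI R v h0)
        rw [this]; simp
    show 77/100 * S R < FF A a R (fun v => X v y) ∨ K + 3 < |eta b (fun v => X v y) R|
    rw [← h1, ← h2]
    exact hx
  have hEp : ∀ R, (gam V).real (E R) ≤ Real.exp (-(c * (s * t)))
      + 2 * Real.exp (-((w0⁻¹) ^ 4 / M ^ 2)) + D * δ1 := by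
    intro R
    set SS := Finset.univ.filter (fun v => I R v) with hSS
    have hsub : E R ⊆ ({g | (∫ y, F R y ∂(gam V)) + S R / 100 ≤ F R g} ∪
        {g | K + 2 ≤ |eta b (z (M • g)) R|}) ∪
        ⋃ v ∈ SS, {g | ε + 2 * qb < |X v g - z (M • g) v|} := by
      intro g hg
      by_contra hng
      rw [Set.mem_union, Set.mem_union, not_or, not_or] at hng
      obtain ⟨⟨h1, h2⟩, h3⟩ := hng
      have h1' : F R g < (∫ y, F R y ∂(gam V)) + S R / 100 := not_le.1 h1
      have h2' : |eta b (z (M • g)) R| < K + 2 := not_le.1 h2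
      have h3' : ∀ v, I R v → |X v g - z (M • g) v| ≤ e0 := by
        intro v hv
        by_contra h4
        apply h3
        rw [Set.mem_iUnion₂]
        refine ⟨v, by rw [hSS, Finset.mem_filter]; exact ⟨Finset.mem_univ _, hv⟩, ?_⟩
        show ε + 2 * qb < |X v g - z (M • g) v|
        exact lt_of_le_of_lt hεq (not_le.1 h4)
      -- first alternative
      have h5 : FF A a R (fun v => X v g) ≤ F R g + S R / 100 := by
        have h6 : FF A a R (fun v => X v g) - F R g ≤
            ∑ v, A R v ^ 2 * Real.sqrt (rho a v) * (1 / 100) := by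
          rw [hF]
          unfold FF
          rw [← Finset.sum_sub_distrib]
          refine Finset.sum_le_sum fun v _ => ?_
          rw [← mul_sub]
          by_cases hv : I R v
          · refine mul_le_mul_of_nonneg_left ?_ (by positivity)
            have h7 := (le_abs_self _).trans
              (Gp_lip (sg a v * X v g) (sg a v * z (M • g) v))
            rw [← mul_sub, abs_mul, sg_abs, one_mul] at h7
            refine h7.trans ?_
            have h8 := h3' v hv
            have h9 : e0 ≤ 1 / 1000 := he01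
            linarith
          · have : A R v = 0 := hAI R v hv
            rw [this]; simp
        rw [← Finset.sum_mul] at h6
        have h10 : ∑ v, A R v ^ 2 * Real.sqrt (rho a v) ≤ S R := hPhi R
        linarith
      have h11 : |eta b (fun v => X v g) R| ≤ |eta b (z (M • g)) R| + 1 := by
        have h12 : |eta b (fun v => X v g) R - eta b (z (M • g)) R| ≤ 1 := by
          unfold eta
          rw [← Finset.sum_sub_distrib]
          have h13 : |∑ v, (b R v * X v g - b R v * z (M • g) v)| ≤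
              ∑ v, (if I R v then e0 else 0) := by
            refine (Finset.abs_sum_le_sum_abs _ _).trans (Finset.sum_le_sum fun v _ => ?_)
            split_ifs with hv
            · rw [← mul_sub, abs_mul]
              calc |b R v| * |X v g - z (M • g) v| ≤ 1 * e0 :=
                    mul_le_mul (hb1 R v) (h3' v hv) (abs_nonneg _) (by norm_num)
                _ = e0 := one_mul _
            · have : b R v = 0 := by
                by_contra h0
                exact hv (hbI R v h0)
              rw [this]; simp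
          refine h13.trans ?_
          have h14 : ∑ v, (if I R v then e0 else 0) = (SS.card : ℝ) * e0 := by
            rw [hSS, Finset.sum_ite, Finset.sum_const_zero, add_zero, Finset.sum_const,
              nsmul_eq_mul]
          rw [h14]
          have h15 : (SS.card : ℝ) ≤ D := by
            exact_mod_cast hcardR R
          calc (SS.card : ℝ) * e0 ≤ D * e0 :=
                mul_le_mul_of_nonneg_right h15 he0p.le
            _ ≤ 1 / 1000 := he0
            _ ≤ 1 := by norm_num
        have h18 := abs_sub_abs_le_abs_sub (eta b (fun v => X v g) R) (eta b (z (M • g)) R)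
        linarith
      rcases hg with hg | hg
      · have := hEF R
        have hg' : 77/100 * S R < FF A a R (fun v => X v g) := hg
        linarith
      · have hg' : K + 3 < |eta b (fun v => X v g) R| := hg
        linarith
    calc (gam V).real (E R) ≤ (gam V).real (({g | (∫ y, F R y ∂(gam V)) + S R / 100 ≤ F R g} ∪
        {g | K + 2 ≤ |eta b (z (M • g)) R|}) ∪
        ⋃ v ∈ SS, {g | ε + 2 * qb < |X v g - z (M • g) v|}) := measureReal_mono hsub
      _ ≤ (gam V).real ({g | (∫ y, F R y ∂(gam V)) + S R / 100 ≤ F R g} ∪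
        {g | K + 2 ≤ |eta b (z (M • g)) R|}) +
        (gam V).real (⋃ v ∈ SS, {g | ε + 2 * qb < |X v g - z (M • g) v|}) :=
          measureReal_union_le _ _
      _ ≤ (Real.exp (-(c * (s * t))) + 2 * Real.exp (-((w0⁻¹) ^ 4 / M ^ 2))) + D * δ1 := by
          refine add_le_add ?_ ?_
          · refine (measureReal_union_le _ _).trans ?_
            exact add_le_add (hFP R) (hfar R)
          · refine (measureReal_biUnion_finset_le _ _).trans ?_
            calc ∑ v ∈ SS, (gam V).real {g | ε + 2 * qb < |X v g - z (M • g) v|}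
                ≤ ∑ v ∈ SS, δ1 := Finset.sum_le_sum fun v _ => hloc v
              _ = SS.card * δ1 := by rw [Finset.sum_const, nsmul_eq_mul]
              _ ≤ D * δ1 := by
                  refine mul_le_mul_of_nonneg_right ?_ (by positivity)
                  exact_mod_cast hcardR R
  -- local lemma
  have hδ0 : 0 ≤ δ1 := by positivity
  obtain ⟨g, hg⟩ := hLLL V W (fun _ => gaussianReal 0 1) E (fun R => rball I (4 * m) R) hEm
    hEdep (Real.exp (-(c * (s * t))) + 2 * Real.exp (-((w0⁻¹) ^ 4 / M ^ 2)) + D * δ1)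
    ((D ^ 2 + 1) ^ (2 * (4 * m) + 1)) (by positivity) (Nat.one_le_pow _ _ (by positivity))
    hEp (fun R => hDEP V W I D hcardR hcardV (4 * m) R) hfin
  -- the new state
  refine ⟨nw a (fun v => X v g), nw_abs ha _ (fun v => hXb v g), fun R => ?_, fun R => ?_⟩
  · refine (nw_Phi ha _ (fun v => hXb v g) R).trans ?_
    by_contra h1
    exact hg R (Or.inl (not_le.1 h1))
  · have h0 : lam R * ∑ v, A R v * (nw a (fun v => X v g) v - a v) =
        eta b (fun v => X v g) R := by
      unfold eta
      rw [Finset.mul_sum]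
      refine Finset.sum_congr rfl fun v _ => ?_
      rw [hbdef]
      unfold nw
      ring
    have h00 : |∑ v, A R v * (nw a (fun v => X v g) v - a v)| * lam R =
        |eta b (fun v => X v g) R| := by
      rw [← h0, abs_mul, abs_of_pos (hlam R), mul_comm]
    rw [le_div_iff₀ (hlam R), h00]
    by_contra h1
    exact hg R (Or.inr (not_le.1 h1))



/-- mean stiffness of a repeated scaled row -/
theorem eh_rep : ∃ C : ℝ, 0 < C ∧ ∀ (V W : Type) [Fintype V] [Fintype W] (n : W → ℕ)
    (b0 : W → V → ℝ) (lam K' : W → ℝ) (K w0 : ℝ) (z : (V → ℝ) → (V → ℝ)), 1 ≤ K → 0 < w0 →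
    w0 ≤ 1 → (∀ y, VI (rep n b0 lam) (pf K w0) y (z y)) → ∀ p : Σ R : W, Fin (n R),
    1 ≤ K' p.1 → 1 ≤ lam p.1 → lam p.1 * (K' p.1 + 1) = K + 1 → lam p.1 ^ 2 ≤ n p.1 →
    (∀ y y', |eta b0 (z y') p.1 - eta b0 (z y) p.1| ≤ nrm (y' - y)) →
      Integrable (fun g => hf K w0 (eta (rep n b0 lam) (z ((400 : ℝ) • g)) p)) (gam V) ∧
      ∫ g, hf K w0 (eta (rep n b0 lam) (z ((400 : ℝ) • g)) p) ∂(gam V) ≤
        ((lam p.1)⁻¹) ^ 4 * (C * ((K' p.1)⁻¹) ^ 4) := by
  obtain ⟨C, hC, hmain⟩ := eh5 400 (by norm_num)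
  refine ⟨C, hC, ?_⟩
  intro V W _ _ n b0 lam K' K w0 z hK hw0 hw1 hz p hK' hlam h hn hlip
  have hl0 : 0 < lam p.1 := by linarith
  have hw0' : 0 < w0 / lam p.1 := div_pos hw0 hl0
  have hw1' : w0 / lam p.1 ≤ 1 := by
    rw [div_le_one hl0]
    linarith
  obtain ⟨hodd, -, -, -, -, -⟩ := (prove_SOL prove_POT1 prove_TWO) V _ (rep n b0 lam) K w0 z
    hK hw0 hw1 hz
  obtain ⟨i1, i2⟩ := hmain V (fun g => eta b0 (z ((400 : ℝ) • g)) p.1) (K' p.1) (w0 / lam p.1)
    hK' hw0' hw1'
    (by
      intro x y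
      have h1 := hlip ((400 : ℝ) • y) ((400 : ℝ) • x)
      rw [← smul_sub, EH.nrm_smul 400 (by norm_num)] at h1
      exact h1)
    (by
      intro x
      rw [smul_neg, hodd, EH.eta_neg])
    (by
      intro x y
      have h1 := rep_th hK hw0 hw1 p.1 hlam h hn ((400 : ℝ) • y) ((400 : ℝ) • x) _ _
        (hz ((400 : ℝ) • y)) (hz ((400 : ℝ) • x))
      rw [← smul_sub, EH.nrm_smul 400 (by norm_num)] at h1
      dsimp only
      linarith)
  simp_rw [eta_rep, hf_scale hl0 h]
  refine ⟨i1.const_mul _, ?_⟩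
  rw [integral_const_mul]
  exact mul_le_mul_of_nonneg_left i2 (by positivity)

end

end Pool.Agent.K4H80.BF
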