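import Pool.Agent.K4H80.BF.Phases

set_option autoImplicit false

/-!
# Iteration of the phases and final rounding, for flat matrices with long rows
-/

open MeasureTheory ProbabilityTheory Filter

namespace Pool.Agent.K4H80.BF

open Pool.Agent.H320R2.LD Pool.Agent.H320R2.LD.ROUND Pool.Agent.R959.LD2 Pool.Agent.R959.LD3

theorem log54 : (1 / 5 : ℝ) ≤ Real.log (5 / 4) := by
  have h := Real.one_sub_inv_le_log_of_pos (show (0 : ℝ) < 5 / 4 by norm_num)
  norm_num at h ⊢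
  linarith

/-- reduction of the row masses to one -/
theorem iterBig (κ : ℝ) (h1 : St_BIG κ) : ∃ C t0 : ℝ, 0 < C ∧ 2 ≤ t0 ∧ ∀ (t : ℝ), t0 ≤ t →
    ∀ (V W : Type) [Fintype V] [Fintype W] (A : W → V → ℝ), Flat κ t A →
    ∀ (a0 : V → ℝ), (∀ v, |a0 v| ≤ 1) → ∀ S : ℝ, 1 ≤ S → (∀ R, Phi A a0 R ≤ S) →
    ∃ a : V → ℝ, (∀ v, |a v| ≤ 1) ∧ (∀ R, Phi A a R ≤ 1) ∧
      ∀ R, |∑ v, A R v * (a v - a0 v)| ≤ C * (1 + Real.log S) := by
  obtain ⟨C, t0, hC, ht0, hph⟩ := h1
  refine ⟨5 * C, t0, by positivity, ht0, ?_⟩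
  intro t ht V W _ _ A hA
  have key : ∀ n : ℕ, ∀ (a0 : V → ℝ), (∀ v, |a0 v| ≤ 1) → ∀ S : ℝ, 1 ≤ S →
      S ≤ (5 / 4 : ℝ) ^ n → (∀ R, Phi A a0 R ≤ S) →
      ∃ a : V → ℝ, (∀ v, |a v| ≤ 1) ∧ (∀ R, Phi A a R ≤ 1) ∧
      ∀ R, |∑ v, A R v * (a v - a0 v)| ≤ C * n := by
    intro n
    induction n with
    | zero =>
      intro a0 ha0 S hS1 hS2 hP
      refine ⟨a0, ha0, fun R => (hP R).trans (by simpa using hS2), fun R => by simp⟩
    | succ n ih =>
      intro a0 ha0 S hS1 hS2 hP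
      obtain ⟨a1, b1, b2, b3⟩ := hph t S ht hS1 V W A a0 hA ha0 hP
      have hp : (1 : ℝ) ≤ (5 / 4 : ℝ) ^ n := one_le_pow₀ (by norm_num)
      obtain ⟨a2, c1, c2, c3⟩ := ih a1 b1 (max (4 / 5 * S) 1) (le_max_right _ _)
        (max_le (by rw [pow_succ] at hS2; linarith) hp)
        (fun R => (b2 R).trans (le_max_left _ _))
      refine ⟨a2, c1, c2, fun R => ?_⟩
      have e : ∑ v, A R v * (a2 v - a0 v) =
          ∑ v, A R v * (a2 v - a1 v) + ∑ v, A R v * (a1 v - a0 v) := by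
        rw [← Finset.sum_add_distrib]
        exact Finset.sum_congr rfl fun v _ => by ring
      rw [e]
      refine (abs_add_le _ _).trans ?_
      push_cast
      have := c3 R
      have := b3 R
      linarith
  intro a0 ha0 S hS hP
  have hlS : 0 ≤ Real.log S := Real.log_nonneg hS
  obtain ⟨a, d1, d2, d3⟩ := key ⌈5 * Real.log S⌉₊ a0 ha0 S hS (by
    have h2 : 5 * Real.log S ≤ (⌈5 * Real.log S⌉₊ : ℕ) := Nat.le_ceil _
    have h3 : Real.log S ≤ Real.log ((5 / 4 : ℝ) ^ ⌈5 * Real.log S⌉₊) := by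
      rw [Real.log_pow]
      have h4 := log54
      have h5 : (0 : ℝ) ≤ (⌈5 * Real.log S⌉₊ : ℕ) := Nat.cast_nonneg _
      nlinarith
    exact (Real.log_le_log_iff (by linarith) (by positivity)).1 h3) hP
  refine ⟨a, d1, d2, fun R => (d3 R).trans ?_⟩
  have h2 : ((⌈5 * Real.log S⌉₊ : ℕ) : ℝ) ≤ 5 * Real.log S + 1 :=
    (Nat.ceil_lt_add_one (by positivity)).le
  nlinarith

/-- reduction of the row masses from one to `t ^ (-σ)` -/
theorem iterSmall (κ σ : ℝ) (hσ : 0 < σ) (h1 : St_SMALL κ σ) : ∃ C t0 : ℝ, 0 < C ∧ 2 ≤ t0 ∧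
    ∀ (t : ℝ), t0 ≤ t →
    ∀ (V W : Type) [Fintype V] [Fintype W] (A : W → V → ℝ), Flat κ t A →
    ∀ (a0 : V → ℝ), (∀ v, |a0 v| ≤ 1) → (∀ R, Phi A a0 R ≤ 1) →
    ∃ a : V → ℝ, (∀ v, |a v| ≤ 1) ∧ (∀ R, Phi A a R ≤ t ^ (-σ)) ∧
      ∀ R, |∑ v, A R v * (a v - a0 v)| ≤ C := by
  obtain ⟨C, t0, hC, ht0, hph⟩ := h1
  set ρ : ℝ := (4/5 : ℝ) ^ (1/4 : ℝ) with hρ
  have hρ0 : 0 < ρ := Real.rpow_pos_of_pos (by norm_num) _
  have hρ1 : ρ < 1 := Real.rpow_lt_one (by norm_num) (by norm_num) (by norm_num)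
  have hgeo : ∀ j : ℕ, ∑ i ∈ Finset.range j, ρ ^ i ≤ 1 / (1 - ρ) := by
    intro j
    rw [geom_sum_eq hρ1.ne, ← neg_div_neg_eq, neg_sub, neg_sub]
    exact div_le_div_of_nonneg_right (by linarith [pow_pos hρ0 j]) (by linarith)
  refine ⟨C * (1 / (1 - ρ)), t0, mul_pos hC (one_div_pos.mpr (by linarith)), ht0, ?_⟩
  intro t ht V W _ _ A hA a0 ha0 hP0
  have htp : 0 < t := by linarith
  have hpow : 0 < t ^ (-σ) := Real.rpow_pos_of_pos htp _
  have hex : ∃ n : ℕ, (4/5 : ℝ) ^ n ≤ t ^ (-σ) := by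
    obtain ⟨n, hn⟩ := exists_pow_lt_of_lt_one hpow (show (4/5 : ℝ) < 1 by norm_num)
    exact ⟨n, hn.le⟩
  classical
  set n := Nat.find hex with hn
  have hn1 : (4/5 : ℝ) ^ n ≤ t ^ (-σ) := Nat.find_spec hex
  have hn2 : ∀ j < n, t ^ (-σ) < (4/5 : ℝ) ^ j := fun j hj =>
    not_le.mp (Nat.find_min hex hj)
  have key : ∀ j : ℕ, j ≤ n → ∃ a : V → ℝ, (∀ v, |a v| ≤ 1) ∧ (∀ R, Phi A a R ≤ (4/5 : ℝ) ^ j) ∧
      ∀ R, |∑ v, A R v * (a v - a0 v)| ≤ C * ∑ i ∈ Finset.range j, ρ ^ i := by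
    intro j
    induction j with
    | zero =>
      intro _
      exact ⟨a0, ha0, fun R => by simpa using hP0 R, fun R => by simp⟩
    | succ j ih =>
      intro hj
      obtain ⟨a, ha1, ha2, ha3⟩ := ih (by omega)
      have hjn : j < n := by omega
      obtain ⟨a', ha1', ha2', ha3'⟩ := hph t ((4/5 : ℝ) ^ j) ht
        (hn2 j hjn).le (pow_le_one₀ (by norm_num) (by norm_num)) V W A a hA ha1 ha2
      refine ⟨a', ha1', fun R => ?_, fun R => ?_⟩
      · have := ha2' R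
        rw [pow_succ]
        linarith
      · have h1 := ha3 R
        have h2 := ha3' R
        have h3 : ∑ v, A R v * (a' v - a0 v) =
            ∑ v, A R v * (a v - a0 v) + ∑ v, A R v * (a' v - a v) := by
          rw [← Finset.sum_add_distrib]
          exact Finset.sum_congr rfl fun v _ => by ring
        have h4 : ((4/5 : ℝ) ^ j) ^ (1/4 : ℝ) = ρ ^ j := by
          rw [hρ, ← Real.rpow_natCast, ← Real.rpow_natCast, ← Real.rpow_mul (by norm_num),
            ← Real.rpow_mul (by norm_num), mul_comm]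
        rw [h4] at h2
        rw [h3, Finset.sum_range_succ, mul_add]
        exact (abs_add_le _ _).trans (add_le_add h1 h2)
  obtain ⟨a, ha1, ha2, ha3⟩ := key n le_rfl
  refine ⟨a, ha1, fun R => (ha2 R).trans hn1, fun R => (ha3 R).trans ?_⟩
  exact mul_le_mul_of_nonneg_left (hgeo n) hC.le

/-- The final rounding. -/
theorem round4 (κ σ : ℝ) (hκ : 0 < κ) (hκσ : κ < σ) (hκ2 : κ < 1/2) :
    ∃ t0 : ℝ, 2 ≤ t0 ∧ ∀ (t : ℝ), t0 ≤ t →
    ∀ (V W : Type) [Fintype V] [Fintype W] (A : W → V → ℝ) (a : V → ℝ), Flat κ t A →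
    (∀ v, |a v| ≤ 1) → (∀ R, ∑ v, A R v ^ 2 * (1 - |a v|) ≤ t ^ (-σ)) →
    ∃ x : V → ℝ, (∀ v, x v = 1 ∨ x v = -1) ∧ ∀ R, |∑ v, A R v * (x v - a v)| ≤ 10 := by
  classical
  have hL : St_LLL := prove_LLL prove_MIX
  set κ1 : ℝ := (κ + min σ (1/2)) / 2 with hκ1
  have hm1 : κ < min σ (1/2) := lt_min hκσ hκ2
  have k1 : κ < κ1 := by rw [hκ1]; linarith
  have k2 : κ1 < σ := by
    have := min_le_left σ (1/2 : ℝ)
    rw [hκ1]; linarith
  have k3 : κ1 < 1/2 := by
    have := min_le_right σ (1/2 : ℝ)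
    rw [hκ1]; linarith
  have k0 : 0 < κ1 := by linarith
  have hev : ∀ᶠ t : ℝ in Filter.atTop, 2 ≤ t ^ (1/2 - κ1) :=
    (tendsto_rpow_atTop (by linarith)).eventually_ge_atTop 2
  obtain ⟨t1, ht1'⟩ := Filter.eventually_atTop.mp hev
  refine ⟨max t1 2, le_max_right _ _, ?_⟩
  intro t ht V W _ _ A a hA ha hsum
  have hA1 := hA.le
  have hA4 : ∀ R, ((supp (A R)).card : ℝ) ≤ Real.exp (t ^ κ) := fun R => by
    have h4 := hA.row R
    have h5 : (0 : ℝ) ≤ (supp (A R)).card := Nat.cast_nonneg _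
    linarith
  have hA5 : ∀ v, ((supp (fun R => A R v)).card : ℝ) ≤ Real.exp (t ^ κ) := fun v => by
    have h4 := hA.colc v
    have h5 : (0 : ℝ) ≤ (supp (fun R => A R v)).card := Nat.cast_nonneg _
    linarith
  have hb := ht1' t ((le_max_left _ _).trans ht)
  have ht2 : 2 ≤ t := (le_max_right _ _).trans ht
  have ht0 : 0 < t := by linarith
  have ht1 : 1 ≤ t := by linarith
  set lam := t ^ κ1 with hlam
  have hlam1 : 1 ≤ lam := Real.one_le_rpow ht1 k0.le
  have hlam0 : 0 < lam := by linarith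
  have hκlam : t ^ κ ≤ lam := Real.rpow_le_rpow_of_exponent_le ht1 k1.le
  haveI : ∀ v, IsProbabilityMeasure (nu (a v)) := fun v => nu_prob _ (ha v)
  have hlb : 2 * lam ≤ Real.sqrt t := by
    rw [Real.sqrt_eq_rpow]
    calc 2 * lam ≤ t ^ (1/2 - κ1) * t ^ κ1 := mul_le_mul_of_nonneg_right hb hlam0.le
      _ = t ^ (1/2 : ℝ) := by rw [← Real.rpow_add ht0]; congr 1; ring
  have hsm : ∀ R v, |lam * A R v| ≤ 1 / 2 := by
    intro R v
    have h1 := hA1 R v
    have h2 : |A R v| * Real.sqrt t ≤ 1 := by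
      have : (|A R v| * Real.sqrt t) ^ 2 ≤ 1 := by
        rw [mul_pow, sq_abs, Real.sq_sqrt ht0.le]; exact h1
      exact (sq_le_one_iff₀ (by positivity)).mp this
    rw [abs_mul, abs_of_pos hlam0]
    have h3 : |A R v| * (2 * lam) ≤ 1 := le_trans (mul_le_mul_of_nonneg_left hlb (abs_nonneg _)) h2
    linarith
  have hls : lam * t ^ (-σ) ≤ 1 := by
    rw [hlam, ← Real.rpow_add ht0]
    exact Real.rpow_le_one_of_one_le_of_nonpos ht1 (by linarith)
  have key : ∀ R, ∀ θ : ℝ, (θ = 1 ∨ θ = -1) → (Measure.pi fun v => nu (a v)).real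
      {x | 10 < ∑ v, (θ * A R v) * (sg (x v) - a v)} ≤ Real.exp (-8 * lam) := by
    intro R θ hθ
    have hθ2 : θ ^ 2 = 1 := by rcases hθ with h | h <;> rw [h] <;> norm_num
    have hθa : |θ| = 1 := by rcases hθ with h | h <;> rw [h] <;> norm_num
    refine (tail a (fun v => θ * A R v) ha lam 10 hlam0 ?_).trans ?_
    · intro v
      have := hsm R v
      rw [show lam * (θ * A R v) = θ * (lam * A R v) by ring, abs_mul, hθa, one_mul]
      exact this
    · apply Real.exp_le_exp.mpr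
      have h1 : ∑ v, 2 * (lam * (θ * A R v)) ^ 2 * (1 - |a v|)
          = 2 * lam ^ 2 * ∑ v, A R v ^ 2 * (1 - |a v|) := by
        rw [Finset.mul_sum]
        refine Finset.sum_congr rfl fun v _ => ?_
        rw [show 2 * (lam * (θ * A R v)) ^ 2 * (1 - |a v|)
          = 2 * lam ^ 2 * (θ ^ 2) * (A R v ^ 2 * (1 - |a v|)) by ring, hθ2]; ring
      rw [h1]
      have h2 := hsum R
      have h3 : 2 * lam ^ 2 * ∑ v, A R v ^ 2 * (1 - |a v|) ≤ 2 * lam ^ 2 * t ^ (-σ) :=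
        mul_le_mul_of_nonneg_left h2 (by positivity)
      have h4 : 2 * lam ^ 2 * t ^ (-σ) ≤ 2 * lam := by
        calc 2 * lam ^ 2 * t ^ (-σ) = 2 * lam * (lam * t ^ (-σ)) := by ring
          _ ≤ 2 * lam * 1 := mul_le_mul_of_nonneg_left hls (by positivity)
          _ = 2 * lam := by ring
      linarith
  set S : W → Finset V := fun R => supp (A R) with hS
  set E : W → Set (V → ℝ) := fun R => {x | 10 < |∑ v, A R v * (sg (x v) - a v)|} with hE
  have hEm : ∀ R, MeasurableSet (E R) := by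
    intro R
    exact measurableSet_lt measurable_const ((meas_sum a (fun v => A R v)).abs)
  have hEp : ∀ R, (Measure.pi fun v => nu (a v)).real (E R) ≤ 2 * Real.exp (-8 * lam) := by
    intro R
    have h1 := key R 1 (Or.inl rfl)
    have h2 := key R (-1) (Or.inr rfl)
    have hsub : E R ⊆ {x | 10 < ∑ v, (1 * A R v) * (sg (x v) - a v)}
        ∪ {x | 10 < ∑ v, (-1 * A R v) * (sg (x v) - a v)} := by
      intro x hx
      simp only [hE, Set.mem_setOf_eq] at hx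
      rcases lt_abs.mp hx with h | h
      · left
        simp only [Set.mem_setOf_eq, one_mul]; exact h
      · right
        simp only [Set.mem_setOf_eq]
        have : ∑ v, (-1 * A R v) * (sg (x v) - a v) = -∑ v, A R v * (sg (x v) - a v) := by
          rw [← Finset.sum_neg_distrib]; exact Finset.sum_congr rfl fun v _ => by ring
        rw [this]; exact h
    calc (Measure.pi fun v => nu (a v)).real (E R)
        ≤ (Measure.pi fun v => nu (a v)).real ({x | 10 < ∑ v, (1 * A R v) * (sg (x v) - a v)}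
        ∪ {x | 10 < ∑ v, (-1 * A R v) * (sg (x v) - a v)}) :=
          measureReal_mono hsub (measure_ne_top _ _)
      _ ≤ _ := measureReal_union_le _ _
      _ ≤ 2 * Real.exp (-8 * lam) := by linarith
  have hcard : ∀ R, ((Finset.univ.filter (fun R' => ¬ Disjoint (S R) (S R'))).card : ℝ)
      ≤ Real.exp (2 * t ^ κ) := by
    intro R
    have hsub : Finset.univ.filter (fun R' => ¬ Disjoint (S R) (S R'))
        ⊆ (S R).biUnion fun v => supp (fun R' => A R' v) := by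
      intro R' hR'
      simp only [Finset.mem_filter, Finset.mem_univ, true_and] at hR'
      rw [Finset.not_disjoint_iff] at hR'
      obtain ⟨v, hv1, hv2⟩ := hR'
      rw [Finset.mem_biUnion]
      refine ⟨v, hv1, ?_⟩
      rw [mem_supp]
      exact (mem_supp _ _).mp hv2
    have h1 : ((Finset.univ.filter (fun R' => ¬ Disjoint (S R) (S R'))).card : ℝ)
        ≤ ∑ v ∈ S R, ((supp (fun R' => A R' v)).card : ℝ) := by
      exact_mod_cast (Finset.card_le_card hsub).trans Finset.card_biUnion_le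
    have h2 : ∑ v ∈ S R, ((supp (fun R' => A R' v)).card : ℝ)
        ≤ ∑ v ∈ S R, Real.exp (t ^ κ) := Finset.sum_le_sum fun v _ => hA5 v
    rw [Finset.sum_const, nsmul_eq_mul] at h2
    have h3 : ((S R).card : ℝ) ≤ Real.exp (t ^ κ) := hA4 R
    have h4 : ((S R).card : ℝ) * Real.exp (t ^ κ) ≤ Real.exp (t ^ κ) * Real.exp (t ^ κ) :=
      mul_le_mul_of_nonneg_right h3 (Real.exp_pos _).le
    have h5 : Real.exp (t ^ κ) * Real.exp (t ^ κ) = Real.exp (2 * t ^ κ) := by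
      rw [← Real.exp_add]; congr 1; ring
    linarith
  have hN : 1 ≤ ⌊Real.exp (2 * t ^ κ)⌋₊ := by
    apply Nat.le_floor
    rw [Nat.cast_one]
    exact Real.one_le_exp (by positivity)
  obtain ⟨x, hx⟩ := hL V W (fun v => nu (a v)) E S hEm (by
      intro R x y hxy hx
      simp only [hE, Set.mem_setOf_eq] at hx ⊢
      have : ∑ v, A R v * (sg (y v) - a v) = ∑ v, A R v * (sg (x v) - a v) := by
        refine Finset.sum_congr rfl fun v _ => ?_
        by_cases h : A R v = 0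
        · rw [h]; ring
        · rw [hxy v ((mem_supp _ _).mpr h)]
      rw [this]; exact hx)
    (2 * Real.exp (-8 * lam)) ⌊Real.exp (2 * t ^ κ)⌋₊ (by positivity) hN hEp
    (by
      intro R
      apply Nat.le_floor
      have := hcard R
      convert this using 3)
    (by
      have h1 : (⌊Real.exp (2 * t ^ κ)⌋₊ : ℝ) ≤ Real.exp (2 * t ^ κ) :=
        Nat.floor_le (Real.exp_pos _).le
      have h3 : (0:ℝ) ≤ 4 * (2 * Real.exp (-8 * lam)) := by positivity
      refine (mul_le_mul_of_nonneg_left h1 h3).trans ?_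
      have h4 : Real.exp (-8 * lam) * Real.exp (2 * t ^ κ) ≤ Real.exp (-6) := by
        rw [← Real.exp_add]
        apply Real.exp_le_exp.mpr
        linarith
      have h5 : Real.exp (-6) ≤ 1 / 16 := by
        rw [Real.exp_neg, one_div]
        apply inv_anti₀ (by norm_num)
        have h6 : (4:ℝ) ≤ Real.exp 3 := by
          have := Real.add_one_le_exp (3:ℝ)
          linarith
        have h7 : Real.exp 6 = Real.exp 3 * Real.exp 3 := by rw [← Real.exp_add]; norm_num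
        rw [h7]
        nlinarith
      have h8 : 4 * (2 * Real.exp (-8 * lam)) * Real.exp (2 * t ^ κ) =
          8 * (Real.exp (-8 * lam) * Real.exp (2 * t ^ κ)) := by ring
      rw [h8]
      linarith)
  refine ⟨fun v => sg (x v), fun v => sg_pm _, fun R => ?_⟩
  have := hx R
  simp only [hE, Set.mem_setOf_eq, not_lt] at this
  exact this


/-- Discrepancy of flat matrices with rows of mass at most `S`, from an arbitrary point of the
cube. -/
theorem main4 (κ : ℝ) (hκ : 0 < κ) (hκ9 : κ < 1 / 9) : ∃ C t0 : ℝ, 0 < C ∧ 2 ≤ t0 ∧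
    ∀ (t : ℝ), t0 ≤ t →
    ∀ (V W : Type) [Fintype V] [Fintype W] (A : W → V → ℝ), Flat κ t A →
    ∀ (a0 : V → ℝ), (∀ v, |a0 v| ≤ 1) → ∀ S : ℝ, 1 ≤ S → (∀ R, ∑ v, A R v ^ 2 ≤ S) →
    ∃ x : V → ℝ, (∀ v, x v = 1 ∨ x v = -1) ∧
      ∀ R, |∑ v, A R v * (x v - a0 v)| ≤ C * (1 + Real.log S) := by
  set σ : ℝ := (1 / 3 - κ) / 2 with hσ
  have h1 : κ < σ := by rw [hσ]; linarith
  have h2 : 3 * κ + 1 / 2 + 3 * σ / 2 < 1 := by rw [hσ]; linarith
  have hpar := prove_PARAM3 1 κ σ zero_le_one hκ h1 h2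
  obtain ⟨C1, t1, hC1, ht1, hB⟩ := iterBig κ (prove_BIG κ σ hκ (by linarith) hpar)
  obtain ⟨C2, t2, hC2, ht2, hS⟩ := iterSmall κ σ (by linarith) (prove_SMALL κ σ hpar)
  obtain ⟨t3, ht3, hR⟩ := round4 κ σ hκ h1 (by linarith)
  refine ⟨C1 + C2 + 10, max t1 (max t2 t3), by positivity, ht1.trans (le_max_left _ _), ?_⟩
  intro t ht V W _ _ A hA a0 ha0 S hS1 hrow
  have b1 : t1 ≤ t := (le_max_left _ _).trans ht
  have b2 : t2 ≤ t := ((le_max_left _ _).trans (le_max_right _ _)).trans ht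
  have b3 : t3 ≤ t := ((le_max_right _ _).trans (le_max_right _ _)).trans ht
  have hP0 : ∀ R, Phi A a0 R ≤ S := by
    intro R
    refine le_trans (Finset.sum_le_sum fun v _ => ?_) (hrow R)
    refine mul_le_of_le_one_right (sq_nonneg _) ?_
    rw [Real.sqrt_le_one]
    linarith [abs_nonneg (a0 v)]
  obtain ⟨a1, c1, c2, c3⟩ := hB t b1 V W A hA a0 ha0 S hS1 hP0
  obtain ⟨a2, d1, d2, d3⟩ := hS t b2 V W A hA a1 c1 c2
  have hsq : ∀ R, ∑ v, A R v ^ 2 * (1 - |a2 v|) ≤ t ^ (-σ) := by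
    intro R
    refine le_trans (Finset.sum_le_sum fun v _ => ?_) (d2 R)
    apply mul_le_mul_of_nonneg_left _ (sq_nonneg _)
    have h0 : 0 ≤ 1 - |a2 v| := by linarith [d1 v]
    have h1 : 1 - |a2 v| ≤ 1 := by linarith [abs_nonneg (a2 v)]
    calc 1 - |a2 v| = Real.sqrt ((1 - |a2 v|) ^ 2) := (Real.sqrt_sq h0).symm
      _ ≤ Real.sqrt (1 - |a2 v|) := Real.sqrt_le_sqrt (by nlinarith)
  obtain ⟨x, e1, e2⟩ := hR t b3 V W A a2 hA d1 hsq
  refine ⟨x, e1, fun R => ?_⟩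
  have h3 : ∑ v, A R v * (x v - a0 v) = ∑ v, A R v * (x v - a2 v) +
      (∑ v, A R v * (a2 v - a1 v) + ∑ v, A R v * (a1 v - a0 v)) := by
    rw [← Finset.sum_add_distrib, ← Finset.sum_add_distrib]
    exact Finset.sum_congr rfl fun v _ => by ring
  rw [h3]
  have hl : 0 ≤ Real.log S := Real.log_nonneg hS1
  have f1 := abs_add_le (∑ v, A R v * (x v - a2 v))
    (∑ v, A R v * (a2 v - a1 v) + ∑ v, A R v * (a1 v - a0 v))
  have f2 := abs_add_le (∑ v, A R v * (a2 v - a1 v)) (∑ v, A R v * (a1 v - a0 v))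
  have f3 := c3 R
  have f4 := d3 R
  have f5 := e2 R
  have f6 : 0 ≤ (C2 + 10) * Real.log S := by positivity
  nlinarith

end Pool.Agent.K4H80.BF
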