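import Pool.Agent.K4H80.BF.Phase5

set_option autoImplicit false
set_option maxHeartbeats 4000000

/-!
# Iteration of the phases with individual mass bounds, and the final rounding
-/

open MeasureTheory ProbabilityTheory Filter

namespace Pool.Agent.K4H80.BF

open Pool.Agent.H320R2.LD Pool.Agent.H320R2.LD.ROUND Pool.Agent.R959.LD2 Pool.Agent.R959.LD3

noncomputable section

theorem sum_div4 (f : ℕ → ℝ) (K : ℕ) :
    ∑ i ∈ Finset.range (4 * K), f (i / 4) = 4 * ∑ j ∈ Finset.range K, f j := by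
  induction K with
  | zero => simp
  | succ K ih =>
    rw [show 4 * (K + 1) = 4 * K + 1 + 1 + 1 + 1 by ring, Finset.sum_range_succ,
      Finset.sum_range_succ, Finset.sum_range_succ, Finset.sum_range_succ, ih,
      Finset.sum_range_succ]
    have h0 : 4 * K / 4 = K := by omega
    have h1 : (4 * K + 1) / 4 = K := by omega
    have h2 : (4 * K + 1 + 1) / 4 = K := by omega
    have h3 : (4 * K + 1 + 1 + 1) / 4 = K := by omega
    rw [h0, h1, h2, h3]
    ring

theorem geo_part (ρ : ℝ) (hρ0 : 0 < ρ) (hρ1 : ρ < 1) (K : ℕ) : ∀ y : ℝ, 0 ≤ y →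
    ∑ i ∈ Finset.range K, (if y * ρ ^ i ≤ 1 then y * ρ ^ i else 0) ≤ 1 / (1 - ρ) := by
  induction K with
  | zero =>
    intro y hy
    simp only [Finset.range_zero, Finset.sum_empty]
    exact (one_div_pos.2 (by linarith)).le
  | succ K ih =>
    intro y hy
    by_cases h : y ≤ 1
    · calc ∑ i ∈ Finset.range (K + 1), (if y * ρ ^ i ≤ 1 then y * ρ ^ i else 0)
          ≤ ∑ i ∈ Finset.range (K + 1), ρ ^ i := by
            refine Finset.sum_le_sum fun i _ => ?_
            have h1 : 0 ≤ ρ ^ i := by positivity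
            split_ifs
            · nlinarith
            · exact h1
        _ ≤ 1 / (1 - ρ) := by
            rw [geom_sum_eq hρ1.ne, ← neg_div_neg_eq, neg_sub, neg_sub]
            exact div_le_div_of_nonneg_right (by linarith [pow_pos hρ0 (K + 1)]) (by linarith)
    · rw [Finset.sum_range_succ']
      simp only [pow_zero, mul_one, if_neg h, add_zero]
      refine le_trans (le_of_eq ?_) (ih (y * ρ) (by positivity))
      refine Finset.sum_congr rfl fun i _ => ?_
      have h1 : y * ρ ^ (i + 1) = y * ρ * ρ ^ i := by ring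
      rw [h1]

theorem pow54 (n : ℕ) : (2 : ℝ) ^ (n / 4) ≤ (5 / 4 : ℝ) ^ n := by
  calc (2 : ℝ) ^ (n / 4) ≤ ((5 / 4 : ℝ) ^ 4) ^ (n / 4) :=
        pow_le_pow_left₀ (by norm_num) (by norm_num) _
    _ = (5 / 4 : ℝ) ^ (4 * (n / 4)) := by rw [← pow_mul]
    _ ≤ (5 / 4 : ℝ) ^ n := pow_le_pow_right₀ (by norm_num) (by omega)

open Classical in
/-- Set systems in which every column has mass at most `δ k` in the rows of mass more than
`2 ^ k`. -/
theorem main6 (ε : ℝ) (hε0 : 0 < ε) (hε1 : ε ≤ 1) : ∃ C t0 : ℝ, 0 < C ∧ 2 ≤ t0 ∧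
    ∀ (t : ℝ), t0 ≤ t →
    ∀ (V W : Type) [Fintype V] [Fintype W] (A : W → V → ℝ) (δ : ℕ → ℝ),
    FlatE t A →
    (∀ x : V → ℝ, ∑ R, (∑ v, |A R v| * |x v|) ^ 2 ≤ t ^ (2 - ε) * nsq x) →
    (∀ R, ∑ v, A R v ^ 2 ≤ t ^ 2) →
    (∀ k, 0 ≤ δ k) →
    (∀ k v, ∑ R ∈ Finset.univ.filter (fun R => (2 : ℝ) ^ k < ∑ v, A R v ^ 2), A R v ^ 2 ≤ δ k) →
    ∀ (a0 : V → ℝ), (∀ v, |a0 v| ≤ 1) →
    ∃ x : V → ℝ, (∀ v, x v = 1 ∨ x v = -1) ∧
      ∀ R, ∀ M : ℕ, ∑ v, A R v ^ 2 ≤ (2 : ℝ) ^ M → |∑ v, A R v * (x v - a0 v)| ≤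
        C * (1 + ∑ k ∈ Finset.range M, if (2 : ℝ) ^ k < ∑ v, A R v ^ 2 then Real.sqrt (δ k)
          else 0) := by
  obtain ⟨C1, t1, hC1, ht1, hph⟩ := prove_PH5 ε hε0 hε1
  obtain ⟨t3, ht3, hR⟩ := round4 (ε / 100) (ε / 24) (by linarith) (by linarith) (by linarith)
  obtain ⟨T0, hT0⟩ := eventually_atTop.1 (ev_cube (ε / 100) (by positivity))
  set σ : ℝ := ε / 24 with hσ
  have hσ0 : 0 < σ := by positivity
  set ρ : ℝ := (4/5 : ℝ) ^ (1/4 : ℝ) with hρ
  have hρ0 : 0 < ρ := Real.rpow_pos_of_pos (by norm_num) _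
  have hρ1 : ρ < 1 := Real.rpow_lt_one (by norm_num) (by norm_num) (by norm_num)
  have hρg : 0 < 1 / (1 - ρ) := one_div_pos.2 (by linarith)
  set C2 : ℝ := 4 + 1 / (1 - ρ) + 2 * (15 * (96 / ε) + 1) with hC2
  have hC2p : 4 ≤ C2 := by
    have : 0 < 96 / ε := by positivity
    rw [hC2]; linarith
  refine ⟨C1 * C2 + 10, max t1 (max t3 T0), by positivity, ht1.trans (le_max_left _ _), ?_⟩
  intro t ht V W _ _ A δ hA hop hrow hδ hcolδ a0 ha0
  have b1 : t1 ≤ t := (le_max_left _ _).trans ht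
  have b2 : t3 ≤ t := ((le_max_left _ _).trans (le_max_right _ _)).trans ht
  have b3 : T0 ≤ t := ((le_max_right _ _).trans (le_max_right _ _)).trans ht
  have ht2 : 2 ≤ t := ht1.trans b1
  have htp : 0 < t := by linarith
  have htone : 1 ≤ t := by linarith
  have hcube := hT0 t b3
  have htt : t ≤ t ^ 3 := by nlinarith [mul_pos htp htp]
  set N : W → ℝ := fun R => ∑ v, A R v ^ 2 with hN
  have hN0 : ∀ R, 0 ≤ N R := fun R => Finset.sum_nonneg fun v _ => sq_nonneg _
  set s : ℝ := t ^ (-σ) with hs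
  have hs0 : 0 < s := Real.rpow_pos_of_pos htp _
  have hs1 : s ≤ 1 := Real.rpow_le_one_of_one_le_of_nonpos htone (by linarith)
  set L : ℝ := t ^ (ε / 48) with hL
  have hL1 : 1 ≤ L := Real.one_le_rpow htone (by positivity)
  have hL0 : 0 < L := by linarith
  set b : ℕ → W → ℝ := fun i R => (if 1 < N R * (4/5 : ℝ) ^ i then Real.sqrt (δ (i / 4)) else 0)
    + (if N R * (4/5 : ℝ) ^ i ≤ 1 then (N R * (4/5 : ℝ) ^ i) ^ (1/4 : ℝ) else 0)
    + (s ^ (1/4 : ℝ) + L⁻¹) with hb
  have hlongsub : ∀ (n : ℕ) (R : W), 1 < N R * (4/5 : ℝ) ^ n → (2 : ℝ) ^ (n / 4) < N R := by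
    intro n R h
    have h1 : (5/4 : ℝ) ^ n * (N R * (4/5 : ℝ) ^ n) = N R := by
      rw [mul_comm (N R), ← mul_assoc, ← mul_pow]
      norm_num
    have h2 : (5/4 : ℝ) ^ n * 1 < (5/4 : ℝ) ^ n * (N R * (4/5 : ℝ) ^ n) :=
      mul_lt_mul_of_pos_left h (by positivity)
    rw [h1, mul_one] at h2
    exact (pow54 n).trans_lt h2
  have key : ∀ n : ℕ, ∃ a : V → ℝ, (∀ v, |a v| ≤ 1) ∧
      (∀ R, Phi A a R ≤ max s (N R * (4/5 : ℝ) ^ n)) ∧
      ∀ R, |∑ v, A R v * (a v - a0 v)| ≤ C1 * ∑ i ∈ Finset.range n, b i R := by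
    intro n
    induction n with
    | zero =>
      refine ⟨a0, ha0, fun R => ?_, fun R => by simp⟩
      refine le_trans ?_ (le_max_right _ _)
      rw [pow_zero, mul_one]
      refine Finset.sum_le_sum fun v _ => ?_
      refine mul_le_of_le_one_right (sq_nonneg _) ?_
      rw [Real.sqrt_le_one]
      linarith [abs_nonneg (a0 v)]
    | succ n ih =>
      obtain ⟨a, ha1, ha2, ha3⟩ := ih
      -- the barrier parameter of the long rows
      set η : ℝ := min (δ (n / 4)) 1 with hη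
      have hη0 : 0 ≤ η := le_min (hδ _) zero_le_one
      have hη1 : η ≤ 1 := min_le_right _ _
      have hlam : ∃ lamL : ℝ, 1 ≤ lamL ∧ lamL ≤ L ∧ lamL ^ 2 * η ≤ 1 ∧
          1 / lamL ≤ Real.sqrt (δ (n / 4)) + L⁻¹ := by
        have hsη : Real.sqrt η ≤ Real.sqrt (δ (n / 4)) := Real.sqrt_le_sqrt (min_le_left _ _)
        by_cases h : Real.sqrt η * L ≤ 1
        · refine ⟨L, hL1, le_rfl, ?_, ?_⟩
          · calc L ^ 2 * η = (Real.sqrt η * L) ^ 2 := by
                  rw [mul_pow, Real.sq_sqrt hη0]; ring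
              _ ≤ 1 := pow_le_one₀ (by positivity) h
          · rw [one_div]
            have := Real.sqrt_nonneg (δ (n / 4))
            linarith
        · rw [not_le] at h
          have hη' : 0 < Real.sqrt η := by
            rcases (Real.sqrt_nonneg η).eq_or_lt with h1 | h1
            · rw [← h1] at h
              simp at h
              linarith
            · exact h1
          refine ⟨(Real.sqrt η)⁻¹, ?_, ?_, ?_, ?_⟩
          · exact (one_le_inv₀ hη').2 (by rw [Real.sqrt_le_one]; exact hη1)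
          · rw [inv_le_comm₀ hη' hL0]
            rw [inv_le_iff_one_le_mul₀ hL0]
            exact h.le
          · rw [inv_pow, Real.sq_sqrt hη0]
            have : η ≠ 0 := by
              intro h2
              rw [h2] at hη'
              simp at hη'
            rw [inv_mul_cancel₀ this]
          · rw [one_div, inv_inv]
            have : 0 < L⁻¹ := inv_pos.2 hL0
            linarith
      obtain ⟨lamL, l1, l2, l3, l4⟩ := hlam
      have hl0 : 0 < lamL := by linarith
      set μ : W → ℝ := fun R => max s (N R * (4/5 : ℝ) ^ n) with hμ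
      have hlongμ : ∀ R, 1 < μ R ↔ 1 < N R * (4/5 : ℝ) ^ n := by
        intro R
        simp only [hμ, lt_max_iff]
        constructor
        · rintro (h | h)
          · linarith
          · exact h
        · exact fun h => Or.inr h
      obtain ⟨a', ha1', ha2', ha3', ha4'⟩ := hph t b1 V W A a μ lamL hA ha1 hop hrow
        (fun R => le_max_left _ _) ha2 l1 l2 (by
          intro v
          refine le_trans (mul_le_mul_of_nonneg_left ?_ (by positivity)) l3
          refine le_min ?_ ?_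
          · refine le_trans (Finset.sum_le_sum_of_subset_of_nonneg ?_
              (fun R _ _ => sq_nonneg _)) (hcolδ (n / 4) v)
            intro R hR
            rw [Finset.mem_filter] at hR ⊢
            exact ⟨hR.1, hlongsub n R ((hlongμ R).1 hR.2)⟩
          · exact (Finset.sum_le_sum_of_subset_of_nonneg (Finset.filter_subset _ _)
              (fun R _ _ => sq_nonneg _)).trans (hA.col v))
      refine ⟨a', ha1', fun R => (ha2' R).trans ?_, fun R => ?_⟩
      · simp only [hμ]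
        rw [pow_succ, mul_max_of_nonneg _ _ (by norm_num : (0 : ℝ) ≤ 4/5)]
        refine max_le_max (by linarith) (le_of_eq (by ring))
      · have h1 := ha3 R
        have h3 : ∑ v, A R v * (a' v - a0 v) =
            ∑ v, A R v * (a v - a0 v) + ∑ v, A R v * (a' v - a v) := by
          rw [← Finset.sum_add_distrib]
          exact Finset.sum_congr rfl fun v _ => by ring
        have h2 : |∑ v, A R v * (a' v - a v)| ≤ C1 * b n R := by
          have hs4 : 0 ≤ s ^ (1/4 : ℝ) := Real.rpow_nonneg hs0.le _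
          have hLi : 0 < L⁻¹ := inv_pos.2 hL0
          by_cases hl : 1 < N R * (4/5 : ℝ) ^ n
          · refine (ha4' R ((hlongμ R).2 hl)).trans ?_
            rw [div_eq_mul_one_div]
            refine mul_le_mul_of_nonneg_left (l4.trans ?_) hC1.le
            simp only [hb]
            rw [if_pos hl, if_neg (not_le.2 hl)]
            linarith
          · have hl' : ¬ 1 < μ R := fun h => hl ((hlongμ R).1 h)
            rw [not_lt] at hl hl'
            refine (ha3' R hl').trans ?_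
            refine mul_le_mul_of_nonneg_left ?_ hC1.le
            simp only [hb]
            rw [if_neg (not_lt.2 hl), if_pos hl]
            have h5 : 0 ≤ (N R * (4/5 : ℝ) ^ n) ^ (1/4 : ℝ) :=
              Real.rpow_nonneg (mul_nonneg (hN0 R) (by positivity)) _
            have h6 : (μ R) ^ (1/4 : ℝ) ≤ s ^ (1/4 : ℝ) + (N R * (4/5 : ℝ) ^ n) ^ (1/4 : ℝ) := by
              simp only [hμ]
              rcases max_choice s (N R * (4/5 : ℝ) ^ n) with h7 | h7
              · rw [h7]; linarith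
              · rw [h7]; linarith
            linarith
        rw [h3, Finset.sum_range_succ, mul_add]
        exact (abs_add_le _ _).trans (add_le_add h1 h2)
  -- the number of phases
  set K : ℕ := ⌈5 * (2 + σ) * Real.log t⌉₊ with hK
  have hlogt : 0 ≤ Real.log t := Real.log_nonneg htone
  have hK1 : 5 * (2 + σ) * Real.log t ≤ (K : ℝ) := Nat.le_ceil _
  have hσ1 : σ ≤ 1 := by rw [hσ]; linarith
  have hK2 : (K : ℝ) ≤ 15 * Real.log t + 1 := by
    have h1 : (K : ℝ) < 5 * (2 + σ) * Real.log t + 1 := Nat.ceil_lt_add_one (by positivity)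
    nlinarith
  have hKpow : ∀ R, N R * (4/5 : ℝ) ^ K ≤ s := by
    intro R
    have h1 : t ^ (2 + σ) ≤ (5/4 : ℝ) ^ K := by
      rw [← Real.log_le_log_iff (by positivity) (by positivity), Real.log_rpow htp, Real.log_pow]
      have h4 := log54
      have h5 : (0 : ℝ) ≤ (K : ℝ) := Nat.cast_nonneg _
      nlinarith
    have h2 : N R ≤ t ^ 2 := hrow R
    have h3 : t ^ (2 + σ) = t ^ 2 * t ^ σ := by
      rw [Real.rpow_add htp]
      norm_num
    have h4 : s * t ^ σ = 1 := by
      rw [hs, ← Real.rpow_add htp]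
      simp
    have h5 : (4/5 : ℝ) ^ K * (5/4 : ℝ) ^ K = 1 := by
      rw [← mul_pow]; norm_num
    have h6 : (0 : ℝ) < (4/5 : ℝ) ^ K := by positivity
    have h7 : 0 < t ^ σ := Real.rpow_pos_of_pos htp _
    calc N R * (4/5 : ℝ) ^ K ≤ t ^ 2 * (4/5 : ℝ) ^ K := mul_le_mul_of_nonneg_right h2 h6.le
      _ = s * (t ^ (2 + σ) * (4/5 : ℝ) ^ K) := by
          rw [h3]
          calc t ^ 2 * (4/5 : ℝ) ^ K = (s * t ^ σ) * t ^ 2 * (4/5 : ℝ) ^ K := by rw [h4, one_mul]
            _ = _ := by ring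
      _ ≤ s * ((5/4 : ℝ) ^ K * (4/5 : ℝ) ^ K) := by
          refine mul_le_mul_of_nonneg_left ?_ hs0.le
          exact mul_le_mul_of_nonneg_right h1 h6.le
      _ = s := by rw [mul_comm ((5/4 : ℝ) ^ K), h5, mul_one]
  obtain ⟨a, ha1, ha2, ha3⟩ := key K
  have hF : Flat (ε / 100) t A := by
    refine ⟨hA.ent, hA.col, fun R => ?_, fun v => ?_⟩
    · have h1 := hA.rowcard htp R
      have h2 := hrow R
      have h3 : t * ∑ v, A R v ^ 2 ≤ t * t ^ 2 := mul_le_mul_of_nonneg_left h2 htp.le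
      have h4 : t * t ^ 2 = t ^ 3 := by ring
      linarith
    · have h1 := hA.colcard htp v
      linarith
  have hsq : ∀ R, ∑ v, A R v ^ 2 * (1 - |a v|) ≤ t ^ (-σ) := by
    intro R
    refine le_trans (Finset.sum_le_sum fun v _ => ?_) ((ha2 R).trans ?_)
    · apply mul_le_mul_of_nonneg_left _ (sq_nonneg _)
      have h0 : 0 ≤ 1 - |a v| := by linarith [ha1 v]
      have h1 : 1 - |a v| ≤ 1 := by linarith [abs_nonneg (a v)]
      calc 1 - |a v| = Real.sqrt ((1 - |a v|) ^ 2) := (Real.sqrt_sq h0).symm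
        _ ≤ Real.sqrt (1 - |a v|) := Real.sqrt_le_sqrt (by nlinarith)
    · exact max_le le_rfl (hKpow R)
  obtain ⟨x, e1, e2⟩ := hR t b2 V W A a hF ha1 hsq
  refine ⟨x, e1, fun R M hM => ?_⟩
  set f : ℕ → ℝ := fun k => if (2 : ℝ) ^ k < N R then Real.sqrt (δ k) else 0 with hf
  have hf0 : ∀ k, 0 ≤ f k := by
    intro k
    simp only [hf]
    split_ifs
    · exact Real.sqrt_nonneg _
    · exact le_rfl
  have hfM : ∀ k, M ≤ k → f k = 0 := by
    intro k hk
    simp only [hf]
    rw [if_neg]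
    rw [not_lt]
    exact hM.trans (pow_le_pow_right₀ (by norm_num) hk)
  have hsumf : ∀ K' : ℕ, ∑ k ∈ Finset.range K', f k ≤ ∑ k ∈ Finset.range M, f k := by
    intro K'
    rcases le_total K' M with h | h
    · exact Finset.sum_le_sum_of_subset_of_nonneg (Finset.range_mono h) fun k _ _ => hf0 k
    · rw [← Finset.sum_subset (Finset.range_mono h)]
      intro k _ hk
      rw [Finset.mem_range, not_lt] at hk
      exact hfM k hk
  -- the sum of the moves
  have hsumb : ∑ i ∈ Finset.range K, b i R ≤ C2 * (1 + ∑ k ∈ Finset.range M, f k) := by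
    have g1 : ∑ i ∈ Finset.range K,
        (if 1 < N R * (4/5 : ℝ) ^ i then Real.sqrt (δ (i / 4)) else 0) ≤
        4 * ∑ k ∈ Finset.range M, f k := by
      calc ∑ i ∈ Finset.range K,
          (if 1 < N R * (4/5 : ℝ) ^ i then Real.sqrt (δ (i / 4)) else 0)
          ≤ ∑ i ∈ Finset.range K, f (i / 4) := by
            refine Finset.sum_le_sum fun i _ => ?_
            by_cases h : 1 < N R * (4/5 : ℝ) ^ i
            · rw [if_pos h]
              simp only [hf]
              rw [if_pos (hlongsub i R h)]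
            · rw [if_neg h]
              exact hf0 _
        _ ≤ ∑ i ∈ Finset.range (4 * K), f (i / 4) :=
            Finset.sum_le_sum_of_subset_of_nonneg (Finset.range_mono (by omega))
              fun i _ _ => hf0 _
        _ = 4 * ∑ j ∈ Finset.range K, f j := sum_div4 f K
        _ ≤ _ := mul_le_mul_of_nonneg_left (hsumf K) (by norm_num)
    have g2 : ∑ i ∈ Finset.range K,
        (if N R * (4/5 : ℝ) ^ i ≤ 1 then (N R * (4/5 : ℝ) ^ i) ^ (1/4 : ℝ) else 0) ≤
        1 / (1 - ρ) := by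
      refine le_trans (le_of_eq ?_) (geo_part ρ hρ0 hρ1 K ((N R) ^ (1/4 : ℝ))
        (Real.rpow_nonneg (hN0 R) _))
      refine Finset.sum_congr rfl fun i _ => ?_
      have h1 : (N R * (4/5 : ℝ) ^ i) ^ (1/4 : ℝ) = (N R) ^ (1/4 : ℝ) * ρ ^ i := by
        rw [Real.mul_rpow (hN0 R) (by positivity), hρ, ← Real.rpow_natCast, ← Real.rpow_natCast,
          ← Real.rpow_mul (by norm_num), ← Real.rpow_mul (by norm_num), mul_comm (1/4 : ℝ)]
      have h0 : 0 ≤ N R * (4/5 : ℝ) ^ i := mul_nonneg (hN0 R) (by positivity)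
      have h2 : N R * (4/5 : ℝ) ^ i ≤ 1 ↔ (N R) ^ (1/4 : ℝ) * ρ ^ i ≤ 1 := by
        rw [← h1]
        constructor
        · intro h
          exact Real.rpow_le_one h0 h (by norm_num)
        · intro h
          by_contra h3
          rw [not_le] at h3
          exact absurd (Real.one_lt_rpow h3 (by norm_num : (0 : ℝ) < 1/4)) (not_lt.2 h)
      by_cases h3 : N R * (4/5 : ℝ) ^ i ≤ 1
      · rw [if_pos h3, if_pos (h2.1 h3), h1]
      · rw [if_neg h3, if_neg (fun h => h3 (h2.2 h))]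
    have g3 : ∑ i ∈ Finset.range K, (s ^ (1/4 : ℝ) + L⁻¹) ≤ 2 * (15 * (96 / ε) + 1) := by
      rw [Finset.sum_const, Finset.card_range, nsmul_eq_mul]
      have h1 : s ^ (1/4 : ℝ) = t ^ (-(ε / 96)) := by
        rw [hs, ← Real.rpow_mul htp.le]
        congr 1
        rw [hσ]
        ring
      have h2 : L⁻¹ ≤ t ^ (-(ε / 96)) := by
        rw [hL, ← Real.rpow_neg htp.le]
        exact Real.rpow_le_rpow_of_exponent_le htone (by linarith)
      have h3 : Real.log t ≤ t ^ (ε / 96) / (ε / 96) := Real.log_le_rpow_div htp.le (by positivity)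
      have h4 : t ^ (ε / 96) * t ^ (-(ε / 96)) = 1 := by
        rw [← Real.rpow_add htp]
        simp
      have h5 : 0 < t ^ (-(ε / 96)) := Real.rpow_pos_of_pos htp _
      have h6 : t ^ (-(ε / 96)) ≤ 1 := Real.rpow_le_one_of_one_le_of_nonpos htone (by linarith)
      have h7 : Real.log t * t ^ (-(ε / 96)) ≤ 96 / ε := by
        calc Real.log t * t ^ (-(ε / 96)) ≤ t ^ (ε / 96) / (ε / 96) * t ^ (-(ε / 96)) :=
              mul_le_mul_of_nonneg_right h3 h5.le
          _ = (t ^ (ε / 96) * t ^ (-(ε / 96))) / (ε / 96) := by ring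
          _ = 96 / ε := by rw [h4]; field_simp
      calc (K : ℝ) * (s ^ (1/4 : ℝ) + L⁻¹) ≤ (15 * Real.log t + 1) * (2 * t ^ (-(ε / 96))) := by
            refine mul_le_mul hK2 (by rw [h1]; linarith) ?_ (by positivity)
            rw [h1]
            have : 0 < L⁻¹ := inv_pos.2 hL0
            linarith
        _ = 2 * (15 * (Real.log t * t ^ (-(ε / 96))) + t ^ (-(ε / 96))) := by ring
        _ ≤ 2 * (15 * (96 / ε) + 1) := by linarith
    have hFs : 0 ≤ ∑ k ∈ Finset.range M, f k := Finset.sum_nonneg fun k _ => hf0 k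
    have hsplit : ∑ i ∈ Finset.range K, b i R =
        ∑ i ∈ Finset.range K,
          (if 1 < N R * (4/5 : ℝ) ^ i then Real.sqrt (δ (i / 4)) else 0) +
        ∑ i ∈ Finset.range K,
          (if N R * (4/5 : ℝ) ^ i ≤ 1 then (N R * (4/5 : ℝ) ^ i) ^ (1/4 : ℝ) else 0) +
        ∑ i ∈ Finset.range K, (s ^ (1/4 : ℝ) + L⁻¹) := by
      rw [← Finset.sum_add_distrib, ← Finset.sum_add_distrib]
    rw [hsplit]
    have h8 : 4 * ∑ k ∈ Finset.range M, f k ≤ C2 * ∑ k ∈ Finset.range M, f k :=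
      mul_le_mul_of_nonneg_right hC2p hFs
    have h9 : C2 = 4 + 1 / (1 - ρ) + 2 * (15 * (96 / ε) + 1) := hC2
    nlinarith
  have h3 : ∑ v, A R v * (x v - a0 v) = ∑ v, A R v * (x v - a v) +
      ∑ v, A R v * (a v - a0 v) := by
    rw [← Finset.sum_add_distrib]
    exact Finset.sum_congr rfl fun v _ => by ring
  have hFs : 0 ≤ ∑ k ∈ Finset.range M, f k := Finset.sum_nonneg fun k _ => hf0 k
  rw [h3]
  have f1 := abs_add_le (∑ v, A R v * (x v - a v)) (∑ v, A R v * (a v - a0 v))
  have f3 := ha3 R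
  have f5 := e2 R
  have f6 : C1 * ∑ i ∈ Finset.range K, b i R ≤ C1 * (C2 * (1 + ∑ k ∈ Finset.range M, f k)) :=
    mul_le_mul_of_nonneg_left hsumb hC1.le
  have f7 : (C1 * C2 + 10) * (1 + ∑ k ∈ Finset.range M, f k) =
    C1 * (C2 * (1 + ∑ k ∈ Finset.range M, f k)) + 10 * (1 + ∑ k ∈ Finset.range M, f k) := by ring
  change _ ≤ (C1 * C2 + 10) * (1 + ∑ k ∈ Finset.range M, f k)
  linarith

end

end Pool.Agent.K4H80.BF
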