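import Pool.Agent.K4H80.BF.Stf

set_option autoImplicit false

/-!
# Mean stiffness and expected free mass for stiff rows

Adapted from `Pool.Agent.H320R2.LD.EH` and `Pool.Agent.H320R2.LD.MEAN`.
-/

open MeasureTheory ProbabilityTheory

namespace Pool.Agent.K4H80.BF

open Pool.Agent.H320R2.LD

noncomputable section

/-- the mean stiffness is small (`EH` with `Stf`) -/
theorem eh4 : ∀ M : ℝ, 0 < M → ∃ C : ℝ, 0 < C ∧
    ∀ (V W : Type) [Fintype V] [Fintype W] (b : W → V → ℝ) (K w0 : ℝ)
    (z : (V → ℝ) → (V → ℝ)), 1 ≤ K → 0 < w0 → w0 ≤ 1 → (∀ y, VI b (pf K w0) y (z y)) →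
    ∀ R, (∀ y y', |eta b (z y') R - eta b (z y) R| ≤ nrm (y' - y)) →
      Integrable (fun g => hf K w0 (eta b (z (M • g)) R)) (gam V) ∧
      ∫ g, hf K w0 (eta b (z (M • g)) R) ∂(gam V) ≤ C * (K⁻¹) ^ 4 := by
  intro M hM
  have h1 : St_SOL := prove_SOL prove_POT1 prove_TWO
  have h3 : St_POT2 := prove_POT2
  obtain ⟨C8, hC8, hmom⟩ := prove_MOM prove_MGF
  refine ⟨16 * (1 + C8 * M ^ 8 + 2 ^ 7 * (1 + C8 * (M / 2) ^ 8)), by positivity, ?_⟩
  intro V W _ _ b K w0 z hK hw0 hw1 hz R hR
  obtain ⟨hodd, -, -, -, -, hth⟩ := h1 V W b K w0 z hK hw0 hw1 hz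
  obtain ⟨-, -, -, hpot⟩ := h3 K w0 hK hw0 hw1
  obtain ⟨f, hfd⟩ : ∃ f : (V → ℝ) → ℝ, f = fun g => eta b (z (M • g)) R := ⟨_, rfl⟩
  have hfapp : ∀ g, f g = eta b (z (M • g)) R := fun g => by rw [hfd]
  have hfL : Lip M f := by
    intro x y
    rw [hfapp, hfapp]
    have := hR (M • y) (M • x)
    rw [← smul_sub, EH.nrm_smul M hM] at this
    exact this
  have hfodd : ∀ x, f (-x) = - f x := by
    intro x
    rw [hfapp, hfapp, smul_neg, hodd, EH.eta_neg]
  obtain ⟨-, i1, e1, -, -⟩ := hmom V f M hM hfL hfodd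
  have hgL : Lip (M / 2) (fun g => th K w0 (f g)) := by
    intro x y
    have := hth R (M • y) (M • x)
    rw [← smul_sub, EH.nrm_smul M hM] at this
    simp only [hfapp]
    linarith
  have hgodd : ∀ x, (fun g => th K w0 (f g)) (-x) = - (fun g => th K w0 (f g)) x := by
    intro x
    simp only [hfodd, EH.th_neg]
  obtain ⟨-, i2, e2, -, -⟩ := hmom V _ (M / 2) (by positivity) hgL hgodd
  have hcont : Continuous f := EH.continuous_of_Lip hfL
  have hcont2 : Continuous (fun g => hf K w0 (f g)) := (EH.continuous_hf K w0 hw0).comp hcont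
  have hnn : ∀ x, 0 ≤ hf K w0 x := fun x => by
    unfold hf
    have := EH.wf_pos K w0 hw0 x
    positivity
  have hbd : ∀ x, hf K w0 x ≤ (w0⁻¹) ^ 4 := by
    intro x
    unfold hf
    refine pow_le_pow_left₀ (inv_nonneg.2 (EH.wf_pos K w0 hw0 x).le) ?_ 4
    exact inv_anti₀ hw0 (le_max_right _ _)
  have hint : Integrable (fun g => hf K w0 (f g)) (gam V) := by
    refine Integrable.mono' (integrable_const ((w0⁻¹) ^ 4)) hcont2.aestronglyMeasurable ?_
    refine Filter.Eventually.of_forall fun g => ?_
    rw [Real.norm_of_nonneg (hnn _)]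
    exact hbd _
  have hKpos : 0 < K := by linarith
  have hpt : ∀ g, hf K w0 (f g) ≤
      16 * (K⁻¹) ^ 4 * (1 + f g ^ 8 + 2 ^ 7 * (1 + (th K w0 (f g)) ^ 8)) := by
    intro g
    refine (hpot (f g)).trans (mul_le_mul_of_nonneg_left ?_ (by positivity))
    have h5 := add_pow_le (zero_le_one) (abs_nonneg (th K w0 (f g))) 8
    have h6 : |th K w0 (f g)| ^ 8 = (th K w0 (f g)) ^ 8 := by
      have : Even 8 := by decide
      exact this.pow_abs _
    rw [h6] at h5
    norm_num at h5
    linarith
  have hint2 : Integrable (fun g => 16 * (K⁻¹) ^ 4 *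
      (1 + f g ^ 8 + 2 ^ 7 * (1 + (th K w0 (f g)) ^ 8))) (gam V) :=
    (((integrable_const 1).add i1).add (((integrable_const 1).add i2).const_mul _)).const_mul _
  have hfin : ∫ g, hf K w0 (f g) ∂(gam V) ≤
      16 * (K⁻¹) ^ 4 * (1 + C8 * M ^ 8 + 2 ^ 7 * (1 + C8 * (M / 2) ^ 8)) := by
    refine (integral_mono hint hint2 hpt).trans ?_
    rw [integral_const_mul, integral_add, integral_add, integral_const_mul, integral_add]
    · simp only [integral_const, smul_eq_mul, mul_one]
      have hu : (gam V).real Set.univ = 1 := probReal_univ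
      rw [hu]
      refine mul_le_mul_of_nonneg_left ?_ (by positivity)
      linarith
    · exact integrable_const 1
    · exact i2
    · exact integrable_const 1
    · exact i1
    · exact (integrable_const 1).add i1
    · exact ((integrable_const 1).add i2).const_mul _
  rw [hfd] at hint hfin
  refine ⟨hint, hfin.trans (le_of_eq ?_)⟩
  ring

open MEAN in
/-- the expected free mass (`MEAN` with `Stf`) -/
theorem mean4 {V W : Type} [Fintype V] [Fintype W] (b : W → V → ℝ) (K w0 M δ : ℝ)
    (z : (V → ℝ) → (V → ℝ)) (hK : 1 ≤ K) (hw0 : 0 < w0) (hw1 : w0 ≤ 1) (hrow : Stf b K w0)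
    (hz : ∀ y, VI b (pf K w0) y (z y)) (hM : 0 < M) (hδ : 0 < δ) (hδw : δ ≤ w0 / 2)
    (hint : ∀ R, Integrable (fun g => hf K w0 (eta b (z (M • g)) R)) (gam V)) (v : V) :
    ∫ g, (1 - |z (M • g) v|) ∂(gam V)
      ≤ 1 / M + 16 * (∑ R, b R v ^ 2 * ∫ g, hf K w0 (eta b (z (M • g)) R) ∂(gam V)) + δ := by
  classical
  have hTWO := prove_TWO
  have hSH := prove_SH prove_MIX
  obtain ⟨-, -, hLip, -, -, -⟩ := (prove_SOL prove_POT1 hTWO) V W b K w0 z hK hw0 hw1 hz
  set f : (V → ℝ) → ℝ := fun g => z (M • g) v with hfdef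
  have hsm : ∀ x : V → ℝ, ∀ a : ℝ, M • (fun u => x u + if u = v then a else 0)
      = fun u => (M • x) u + if u = v then M * a else 0 := by
    intro x a
    funext u
    by_cases h : u = v <;> simp [h, mul_add]
  have hfL : ∀ x y, |f x - f y| ≤ M * nrm (x - y) := by
    intro x y
    have := hLip v (M • y) (M • x)
    rw [← smul_sub, nrm_smul M hM.le] at this
    exact this
  have hfc : Continuous f := cont_of_lip hfL
  have hf1 : ∀ x, |f x| ≤ 1 := fun x => (hz (M • x)).1 v
  have hmono : ∀ x : V → ℝ, ∀ a : ℝ, 0 ≤ a →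
      f x ≤ f (fun u => x u + if u = v then a else 0) := by
    intro x a ha
    rcases ha.eq_or_lt with h0 | hpos
    · subst h0; simp [hfdef]
    · have h2 := (hTWO V W b (pf K w0) (pf_mono hw0) (M • x)
        (M • (fun u => x u + if u = v then a else 0)) _ _ (hz _) (hz _)).2.1
      have h3 : ∑ u, ((M • (fun u => x u + if u = v then a else 0)) u - (M • x) u)
          * (z (M • (fun u => x u + if u = v then a else 0)) u - z (M • x) u)
          = M * a * (f (fun u => x u + if u = v then a else 0) - f x) := by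
        rw [hsm]
        rw [Finset.sum_eq_single v]
        · simp [hfdef, hsm]
        · intro u _ hu; simp [hu]
        · intro h; exact absurd (Finset.mem_univ v) h
      rw [h3] at h2
      have h4 : 0 ≤ ∑ R, (pf K w0 (eta b (z (M • (fun u => x u + if u = v then a else 0))) R)
          - pf K w0 (eta b (z (M • x)) R))
          * (eta b (z (M • (fun u => x u + if u = v then a else 0))) R
            - eta b (z (M • x)) R) := by
        refine Finset.sum_nonneg fun R _ => ?_
        rcases le_total (eta b (z (M • (fun u => x u + if u = v then a else 0))) R)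
          (eta b (z (M • x)) R) with h | h
        · have := pf_mono (K := K) hw0 h
          nlinarith
        · have := pf_mono (K := K) hw0 h
          nlinarith
      have h5 := nsq_nonneg (z (M • (fun u => x u + if u = v then a else 0)) - z (M • x))
      have h6 : 0 ≤ M * a * (f (fun u => x u + if u = v then a else 0) - f x) := by linarith
      have h7 : 0 < M * a := by positivity
      have := nonneg_of_mul_nonneg_right h6 h7
      linarith
  have hsh := hSH V f v (δ / M) (by positivity) hfc hf1 hmono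
  -- pointwise lower bound
  have hpt : ∀ x, δ * (1 - |f x| - 16 * (∑ R, b R v ^ 2 * hf K w0 (eta b (z (M • x)) R)) - δ)
      ≤ f (fun u => x u + if u = v then δ / M else 0) - f x := by
    intro x
    have h1 := hz (M • (fun u => x u + if u = v then δ / M else 0))
    rw [hsm] at h1
    have h2 : M * (δ / M) = δ := by field_simp
    rw [h2] at h1
    have h3 := shift4 b K w0 hK hw0 hw1 hrow δ hδ hδw v (M • x) (z (M • x)) _ (hz _) h1
    have h4 : f (fun u => x u + if u = v then δ / M else 0)
        = z (fun u => (M • x) u + if u = v then δ else 0) v := by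
      simp only [hfdef]
      rw [hsm, h2]
    rw [h4]
    exact h3
  have hI1 : Integrable (fun x => 1 - |f x|) (gam V) :=
    bdd_integrable (by fun_prop) (B := 1) fun x => by
      have := hf1 x
      have h0 := abs_nonneg (f x)
      rw [abs_le]; constructor <;> linarith
  have hI2 : Integrable (fun x => ∑ R, b R v ^ 2 * hf K w0 (eta b (z (M • x)) R)) (gam V) :=
    integrable_finsetSum _ fun R _ => (hint R).const_mul _
  have hI3 : Integrable (fun x => f (fun u => x u + if u = v then δ / M else 0) - f x)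
      (gam V) := by
    refine bdd_integrable (B := 2) ?_ ?_
    · refine Continuous.sub (hfc.comp ?_) hfc
      refine continuous_pi fun u => ?_
      exact (continuous_apply u).add continuous_const
    · intro x
      have h1 := abs_le.1 (hf1 (fun u => x u + if u = v then δ / M else 0))
      have h2 := abs_le.1 (hf1 x)
      rw [abs_le]; constructor <;> linarith [h1.1, h1.2, h2.1, h2.2]
  have hI4 : Integrable (fun x => δ * (1 - |f x|
      - 16 * (∑ R, b R v ^ 2 * hf K w0 (eta b (z (M • x)) R)) - δ)) (gam V) :=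
    ((hI1.sub (hI2.const_mul 16)).sub (integrable_const δ)).const_mul δ
  have hle := integral_mono hI4 hI3 hpt
  have heq : ∫ x, δ * (1 - |f x|
      - 16 * (∑ R, b R v ^ 2 * hf K w0 (eta b (z (M • x)) R)) - δ) ∂(gam V)
      = δ * ((∫ x, (1 - |f x|) ∂(gam V))
        - 16 * (∑ R, b R v ^ 2 * ∫ x, hf K w0 (eta b (z (M • x)) R) ∂(gam V)) - δ) := by
    rw [integral_const_mul]
    congr 1
    have hI2' : Integrable (fun x => 16 * ∑ R, b R v ^ 2 * hf K w0 (eta b (z (M • x)) R))
        (gam V) := hI2.const_mul 16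
    have hI5 : Integrable (fun x => 1 - |f x|
        - 16 * ∑ R, b R v ^ 2 * hf K w0 (eta b (z (M • x)) R)) (gam V) := hI1.sub hI2'
    rw [integral_sub hI5 (integrable_const δ), integral_sub hI1 hI2', integral_const_mul,
      integral_finsetSum _ fun R _ => (hint R).const_mul _]
    simp only [integral_const_mul, integral_const, probReal_univ, smul_eq_mul, one_mul]
  rw [heq] at hle
  have hfin := hle.trans hsh
  have h8 : (∫ x, (1 - |f x|) ∂(gam V))
        - 16 * (∑ R, b R v ^ 2 * ∫ x, hf K w0 (eta b (z (M • x)) R) ∂(gam V)) - δ ≤ 1 / M := by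
    have : δ / M = δ * (1 / M) := by ring
    rw [this] at hfin
    exact le_of_mul_le_mul_left hfin hδ
  simp only [hfdef] at h8
  linarith


end

end Pool.Agent.K4H80.BF
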