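import Pool.Agent.K4H80.BF.Core5

set_option autoImplicit false
set_option maxHeartbeats 4000000

/-!
# One phase with individual mass bounds `μ R`

Short rows (`μ R ≤ 1`) move by at most `C (μ R)^(1/4)`, long rows (`μ R > 1`) move by at most
`C / lamL` when `lamL ^ 2` times the mass of every column in the long rows is at most one.
-/

open MeasureTheory ProbabilityTheory Filter

namespace Pool.Agent.K4H80.BF

open Pool.Agent.H320R2.LD Pool.Agent.H320R2.LD.PHASE Pool.Agent.R959.LD2 Pool.Agent.R959.LD3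

noncomputable section

open Classical in
/-- One phase with individual mass bounds. -/
def St_PH5 (ε : ℝ) : Prop := ∃ C t0 : ℝ, 0 < C ∧ 2 ≤ t0 ∧ ∀ (t : ℝ), t0 ≤ t →
  ∀ (V W : Type) [Fintype V] [Fintype W] (A : W → V → ℝ) (a : V → ℝ) (μ : W → ℝ) (lamL : ℝ),
  FlatE t A → (∀ v, |a v| ≤ 1) →
  (∀ x : V → ℝ, ∑ R, (∑ v, |A R v| * |x v|) ^ 2 ≤ t ^ (2 - ε) * nsq x) →
  (∀ R, ∑ v, A R v ^ 2 ≤ t ^ 2) →
  (∀ R, t ^ (-(ε / 24)) ≤ μ R) → (∀ R, Phi A a R ≤ μ R) →
  1 ≤ lamL → lamL ≤ t ^ (ε / 48) →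
  (∀ v, lamL ^ 2 * ∑ R ∈ Finset.univ.filter (fun R => 1 < μ R), A R v ^ 2 ≤ 1) →
  ∃ a' : V → ℝ, (∀ v, |a' v| ≤ 1) ∧ (∀ R, Phi A a' R ≤ 4/5 * μ R) ∧
    (∀ R, μ R ≤ 1 → |∑ v, A R v * (a' v - a v)| ≤ C * (μ R) ^ (1/4 : ℝ)) ∧
    ∀ R, 1 < μ R → |∑ v, A R v * (a' v - a v)| ≤ C / lamL

theorem FlatE.rowcard {V W : Type} [Fintype V] [Fintype W] {t : ℝ} {A : W → V → ℝ}
    (h : FlatE t A) (ht : 0 < t) (R : W) :
    ((supp (A R)).card : ℝ) ≤ t * ∑ v, A R v ^ 2 := by
  have h1 : ((supp (A R)).card : ℝ) * (1 / t) ≤ ∑ v, A R v ^ 2 := by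
    rw [← nsmul_eq_mul, ← Finset.sum_const]
    calc ∑ v ∈ supp (A R), 1 / t = ∑ v ∈ supp (A R), A R v ^ 2 := by
          refine Finset.sum_congr rfl fun v hv => ?_
          rw [mem_supp] at hv
          rcases h.ent R v with h1 | h1
          · exact absurd h1 hv
          · field_simp
            linarith
      _ ≤ ∑ v, A R v ^ 2 := Finset.sum_le_sum_of_subset_of_nonneg (Finset.subset_univ _)
          fun v _ _ => sq_nonneg _
  rw [mul_one_div, div_le_iff₀ ht] at h1
  linarith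

theorem prove_PH5 (ε : ℝ) (hε0 : 0 < ε) (hε1 : ε ≤ 1) : St_PH5 ε := by
  classical
  have hparam := prove_PARAM3 (2 - ε / 2) (ε / 100) (ε / 24) (by linarith) (by positivity)
    (by linarith) (by linarith)
  obtain ⟨Ch, hCh, hEH'⟩ := eh_rep
  obtain ⟨t0, ht02, hpar⟩ := hparam 400 (1 / 10 ^ 12) (by norm_num) (by norm_num)
  set CK : ℝ := 1 + 64000 * Ch with hCK
  have hCK1 : 1 ≤ CK := by linarith
  set c1 : ℝ := (Real.sqrt (160000 * (1 + Ch)))⁻¹ with hc1def
  have hX0 : (0 : ℝ) < 160000 * (1 + Ch) := by linarith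
  have hc1 : 0 < c1 := inv_pos.2 (Real.sqrt_pos.2 hX0)
  have hc12 : c1 ^ 2 = (160000 * (1 + Ch))⁻¹ := by
    rw [hc1def, inv_pow, Real.sq_sqrt hX0.le]
  have hc1le : c1 ^ 2 ≤ 1 := by
    rw [hc12]
    exact inv_le_one_of_one_le₀ (by linarith)
  have hc11 : c1 ≤ 1 := by nlinarith
  have E1 := PARAM3.ev (3 * (ε / 24) / 4) (1 / 2) (2 * CK) (by linarith)
  have E2 := PARAM3.ev (2 - ε + 2 * (ε / 24)) (2 - ε / 2) (80 * CK ^ 4) (by linarith)
  have E3 := PARAM3.ev (1 + (ε / 24) / 2) 2 (20 * CK ^ 2) (by linarith)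
  have E4 := ev_cube (ε / 100) (by positivity)
  obtain ⟨t1, ht1⟩ := eventually_atTop.1 (E1.and (E2.and (E3.and E4)))
  refine ⟨4 * CK + 4 / c1, max t0 t1, by positivity, ht02.trans (le_max_left _ _), ?_⟩
  intro t ht V W _ _ A a μ lamL hA ha hop hrow hμ hPhi hlL1 hlL2 hlong
  have htt0 : t0 ≤ t := (le_max_left _ _).trans ht
  obtain ⟨F1, F2, F3, F4⟩ := ht1 t ((le_max_right _ _).trans ht)
  have ht2 : 2 ≤ t := ht02.trans htt0
  have htp : 0 < t := by linarith
  have htone : 1 ≤ t := by linarith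
  set σ : ℝ := ε / 24 with hσ
  have hσ0 : 0 < σ := by positivity
  set s : ℝ := t ^ (-σ) with hs
  have hs0 : 0 < s := Real.rpow_pos_of_pos htp _
  have hs1 : s ≤ 1 := Real.rpow_le_one_of_one_le_of_nonpos htone (by linarith)
  obtain ⟨w0, α, q, qb, εp, m, p1, p2, p3, p4, p5, p6, p7, p8, p9, p10, p11, p12, p13, p14, p15⟩ :=
    hpar t htt0 s le_rfl hs1 ⌊Real.exp (t ^ (ε / 100))⌋₊ rfl
  have hw1 : w0 ≤ 1 := by linarith
  have hexp1 : 1 ≤ Real.exp (t ^ (ε / 100)) := Real.one_le_exp (Real.rpow_nonneg htp.le _)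
  have hDe : ((⌊Real.exp (t ^ (ε / 100))⌋₊ : ℕ) : ℝ) ≤ Real.exp (t ^ (ε / 100)) :=
    Nat.floor_le (Real.exp_pos _).le
  have hD1 : 1 ≤ ⌊Real.exp (t ^ (ε / 100))⌋₊ := Nat.le_floor (by rw [Nat.cast_one]; exact hexp1)
  have hμ0 : ∀ R, 0 < μ R := fun R => lt_of_lt_of_le hs0 (hμ R)
  -- the constants of the barriers
  set K : ℝ := CK * t ^ (σ / 4) with hK
  have htσ4 : 1 ≤ t ^ (σ / 4) := Real.one_le_rpow htone (by linarith)
  have hK1 : 1 ≤ K := by rw [hK]; nlinarith
  have hKle : K + 1 ≤ 2 * CK * t ^ (σ / 4) := by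
    rw [hK]
    have : 1 ≤ CK * t ^ (σ / 4) := hK1
    linarith
  set K' : W → ℝ := fun R => if μ R ≤ 1 then CK * (μ R) ^ (-(1/4) : ℝ) else 1 with hK'
  have hK'1 : ∀ R, 1 ≤ K' R := by
    intro R
    simp only [hK']
    split_ifs with h
    · have : 1 ≤ (μ R) ^ (-(1/4) : ℝ) :=
        Real.one_le_rpow_of_pos_of_le_one_of_nonpos (hμ0 R) h (by norm_num)
      nlinarith
    · exact le_rfl
  have hK'K : ∀ R, K' R ≤ K := by
    intro R
    simp only [hK']
    split_ifs with h
    · rw [hK]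
      refine mul_le_mul_of_nonneg_left ?_ (by linarith)
      have h1 : (μ R) ^ (-(1/4) : ℝ) ≤ s ^ (-(1/4) : ℝ) :=
        Real.rpow_le_rpow_of_nonpos hs0 (hμ R) (by norm_num)
      refine h1.trans (le_of_eq ?_)
      rw [hs, ← Real.rpow_mul htp.le]
      congr 1
      ring
    · exact hK1
  set lam : W → ℝ := fun R => (K + 1) / (K' R + 1) with hlam
  have hK'p : ∀ R, 0 < K' R + 1 := fun R => by linarith [hK'1 R]
  have hlam1 : ∀ R, 1 ≤ lam R := by
    intro R
    simp only [hlam]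
    rw [one_le_div (hK'p R)]
    linarith [hK'K R]
  have hlam0 : ∀ R, 0 < lam R := fun R => by linarith [hlam1 R]
  have hlamK : ∀ R, lam R ≤ K + 1 := by
    intro R
    simp only [hlam]
    rw [div_le_iff₀ (hK'p R)]
    nlinarith [hK'1 R]
  have hlameq : ∀ R, lam R * (K' R + 1) = K + 1 := by
    intro R
    simp only [hlam]
    exact div_mul_cancel₀ _ (hK'p R).ne'
  set n : W → ℕ := fun R => if μ R ≤ 1 then ⌈lam R ^ 2⌉₊ else ⌈4 * lam R ^ 2⌉₊ with hn
  have hnlow : ∀ R, lam R ^ 2 ≤ n R := by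
    intro R
    simp only [hn]
    split_ifs with h
    · exact Nat.le_ceil _
    · have h1 : 4 * lam R ^ 2 ≤ (⌈4 * lam R ^ 2⌉₊ : ℕ) := Nat.le_ceil _
      nlinarith [sq_nonneg (lam R)]
  have hnlong : ∀ R, 1 < μ R → 4 * lam R ^ 2 ≤ n R := by
    intro R h
    simp only [hn]
    rw [if_neg (not_le.2 h)]
    exact Nat.le_ceil _
  have hnshort : ∀ R, μ R ≤ 1 → (n R : ℝ) ≤ 2 * lam R ^ 2 := by
    intro R h
    simp only [hn]
    rw [if_pos h]
    have h1 : ((⌈lam R ^ 2⌉₊ : ℕ) : ℝ) < lam R ^ 2 + 1 := Nat.ceil_lt_add_one (by positivity)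
    have h2 := hlam1 R
    nlinarith
  have hnup : ∀ R, (n R : ℝ) ≤ 5 * lam R ^ 2 := by
    intro R
    simp only [hn]
    have h2 := hlam1 R
    split_ifs with h
    · have h1 : ((⌈lam R ^ 2⌉₊ : ℕ) : ℝ) < lam R ^ 2 + 1 := Nat.ceil_lt_add_one (by positivity)
      nlinarith
    · have h1 : ((⌈4 * lam R ^ 2⌉₊ : ℕ) : ℝ) < 4 * lam R ^ 2 + 1 :=
        Nat.ceil_lt_add_one (by positivity)
      nlinarith
  -- the scale of the rows
  set τ : W → ℝ := fun R => if μ R ≤ 1 then (Real.sqrt (μ R))⁻¹ else c1 * lamL with hτ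
  have hτ0 : ∀ R, 0 < τ R := by
    intro R
    simp only [hτ]
    split_ifs with h
    · exact inv_pos.2 (Real.sqrt_pos.2 (hμ0 R))
    · positivity
  have htσ2 : t ^ (σ / 2) * t ^ (σ / 2) = t ^ σ := by
    rw [← Real.rpow_add htp]; congr 1; ring
  have hτle : ∀ R, τ R ≤ t ^ (σ / 2) := by
    intro R
    simp only [hτ]
    split_ifs with h
    · have h1 : Real.sqrt s ≤ Real.sqrt (μ R) := Real.sqrt_le_sqrt (hμ R)
      have h2 : (Real.sqrt (μ R))⁻¹ ≤ (Real.sqrt s)⁻¹ := inv_anti₀ (Real.sqrt_pos.2 hs0) h1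
      refine h2.trans (le_of_eq ?_)
      rw [hs, Real.sqrt_eq_rpow, ← Real.rpow_mul htp.le, ← Real.rpow_neg htp.le]
      congr 1
      ring
    · have h1 : lamL ≤ t ^ (σ / 2) := by
        refine hlL2.trans (le_of_eq ?_)
        congr 1
        rw [hσ]; ring
      calc c1 * lamL ≤ 1 * lamL := mul_le_mul_of_nonneg_right hc11 (by linarith)
        _ = lamL := one_mul _
        _ ≤ _ := h1
  set b0 : W → V → ℝ := fun R v => τ R * (A R v * rho a v) with hb0
  have hle : ∀ R v, A R v ^ 2 * t ≤ 1 := by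
    intro R v
    rcases hA.ent R v with h1 | h1
    · rw [h1]; norm_num
    · exact h1.le
  have hA2 : ∀ R v, A R v ^ 2 ≤ 1 / t := by
    intro R v
    rw [le_div_iff₀ htp]
    exact hle R v
  have hAabs : ∀ R v, |A R v| * Real.sqrt t ≤ 1 := by
    intro R v
    have h1 : (|A R v| * Real.sqrt t) ^ 2 ≤ 1 := by
      rw [mul_pow, sq_abs, Real.sq_sqrt htp.le]; exact hle R v
    exact (sq_le_one_iff₀ (by positivity)).mp h1
  have hρ2 : ∀ R v, (A R v * rho a v) ^ 2 ≤ A R v ^ 2 * Real.sqrt (rho a v) := by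
    intro R v
    rw [mul_pow]
    exact mul_le_mul_of_nonneg_left (rho_sq_le_sqrt ha v) (sq_nonneg _)
  have hρ1 : ∀ R v, (A R v * rho a v) ^ 2 ≤ A R v ^ 2 := by
    intro R v
    rw [mul_pow]
    have h1 := rho_nonneg ha v
    have h2 := rho_le_one (a := a) v
    exact mul_le_of_le_one_right (sq_nonneg _) (by nlinarith)
  have hb0row : ∀ R, μ R ≤ 1 → ∑ v, b0 R v ^ 2 ≤ 1 := by
    intro R h
    have h1 : τ R ^ 2 = (μ R)⁻¹ := by
      simp only [hτ]
      rw [if_pos h, inv_pow, Real.sq_sqrt (hμ0 R).le]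
    calc ∑ v, b0 R v ^ 2 = ∑ v, (μ R)⁻¹ * (A R v * rho a v) ^ 2 := by
          refine Finset.sum_congr rfl fun v _ => ?_
          simp only [hb0]
          rw [mul_pow, h1]
      _ ≤ ∑ v, (μ R)⁻¹ * (A R v ^ 2 * Real.sqrt (rho a v)) := by
          refine Finset.sum_le_sum fun v _ => ?_
          exact mul_le_mul_of_nonneg_left (hρ2 R v) (inv_nonneg.2 (hμ0 R).le)
      _ = (μ R)⁻¹ * Phi A a R := by rw [← Finset.mul_sum]; rfl
      _ ≤ (μ R)⁻¹ * μ R := mul_le_mul_of_nonneg_left (hPhi R) (inv_nonneg.2 (hμ0 R).le)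
      _ = 1 := inv_mul_cancel₀ (hμ0 R).ne'
  -- Lipschitz property of the unscaled row sums
  have hlip0 : ∀ R (y y' z z' : V → ℝ), VI (rep n b0 lam) (pf K w0) y z →
      VI (rep n b0 lam) (pf K w0) y' z' → |eta b0 z' R - eta b0 z R| ≤ nrm (y' - y) := by
    intro R y y' z z' hz hz'
    rcases le_or_gt (μ R) 1 with h | h
    · exact rep_short hK1 p3 hw1 R (hb0row R h) y y' z z' hz hz'
    · have h1 : K' R = 1 := by
        simp only [hK']
        rw [if_neg (not_le.2 h)]
      have h2 := hlameq R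
      rw [h1] at h2
      exact rep_long hK1 p3 hw1 R (hlam1 R) h2 (hnlong R h) y y' z z' hz hz'
  have hst : StfL (rep n b0 lam) K w0 (K + 1) := by
    intro p y y' z z' hz hz'
    rw [eta_rep, eta_rep, ← mul_sub, abs_mul, abs_of_pos (hlam0 p.1)]
    have h1 := hlip0 p.1 y y' z z' hz hz'
    exact mul_le_mul (hlamK p.1) h1 (abs_nonneg _) (by linarith)
  have hlt0 : ∀ R, 0 < lam R * τ R := fun R => mul_pos (hlam0 R) (hτ0 R)
  have hltle : ∀ R, lam R * τ R ≤ (K + 1) * t ^ (σ / 2) := fun R =>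
    mul_le_mul (hlamK R) (hτle R) (hτ0 R).le (by linarith)
  have hKt : (K + 1) * t ^ (σ / 2) ≤ Real.sqrt t := by
    calc (K + 1) * t ^ (σ / 2) ≤ (2 * CK * t ^ (σ / 4)) * t ^ (σ / 2) :=
          mul_le_mul_of_nonneg_right hKle (Real.rpow_nonneg htp.le _)
      _ = 2 * CK * t ^ (3 * σ / 4) := by
          rw [mul_assoc, ← Real.rpow_add htp]; congr 2; ring
      _ ≤ t ^ (1 / 2 : ℝ) := F1
      _ = Real.sqrt t := (Real.sqrt_eq_rpow t).symm
  obtain ⟨a', h1, h2, h3⟩ := core5 (V := V) (W := Σ R : W, Fin (n R)) (fun p v => A p.1 v) a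
    (fun p => lam p.1 * τ p.1) (fun p => μ p.1) t s
    (fun p v => hle p.1 v) ha (fun p => hPhi p.1) htp hs0 (fun p => hμ p.1) (fun p => hlt0 p.1)
    (rep n b0 lam) (by
      intro p v
      simp only [rep, hb0]
      ring)
    (by
      intro p v
      have e1 : |rep n b0 lam p v| = (lam p.1 * τ p.1) * (|A p.1 v| * rho a v) := by
        simp only [rep, hb0]
        rw [abs_mul, abs_mul, abs_mul, abs_of_pos (hlam0 p.1), abs_of_pos (hτ0 p.1),
          abs_of_nonneg (rho_nonneg ha v)]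
        ring
      rw [e1]
      calc (lam p.1 * τ p.1) * (|A p.1 v| * rho a v) ≤ Real.sqrt t * (|A p.1 v| * 1) := by
            refine mul_le_mul ((hltle p.1).trans hKt) ?_ ?_ (Real.sqrt_nonneg _)
            · exact mul_le_mul_of_nonneg_left (rho_le_one v) (abs_nonneg _)
            · exact mul_nonneg (abs_nonneg _) (rho_nonneg ha v)
        _ = |A p.1 v| * Real.sqrt t := by ring
        _ ≤ 1 := hAabs _ _)
    400 K w0 α q qb εp (1 / 10 ^ 12) (K + 1) (1 / (1000 * Real.exp (t ^ (ε / 100))))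
    (t ^ (2 - ε / 2) / s) (fun p => ((lam p.1)⁻¹) ^ 4 * (Ch * ((K' p.1)⁻¹) ^ 4))
    ⌊Real.exp (t ^ (ε / 100))⌋₊ m rfl hK1 p3 hw1 p4 rfl (by linarith) hst
    p5 p6 p7 p8 p2 hD1
    (by
      intro p
      refine Nat.le_floor ?_
      have h4 := hA.rowcard htp p.1
      have h5 := hrow p.1
      show ((supp (A p.1)).card : ℝ) ≤ _
      have h6 : t * ∑ v, A p.1 v ^ 2 ≤ t * t ^ 2 := mul_le_mul_of_nonneg_left h5 htp.le
      have h7 : t * t ^ 2 ≤ 4 * t ^ 3 := by
        have : 0 < t ^ 3 := by positivity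
        nlinarith
      linarith)
    (by
      intro v
      refine Nat.le_floor ?_
      have h4 := hA.colcard htp v
      have h5 : supp (fun p : Σ R : W, Fin (n R) => A p.1 v) =
          (supp (fun R => A R v)).sigma (fun R => (Finset.univ : Finset (Fin (n R)))) := by
        ext ⟨R, i⟩
        rw [mem_supp, Finset.mem_sigma, mem_supp]
        simp
      rw [h5, Finset.card_sigma]
      simp only [Finset.card_univ, Fintype.card_fin]
      push_cast
      calc ∑ R ∈ supp (fun R => A R v), (n R : ℝ) ≤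
            ∑ R ∈ supp (fun R => A R v), 5 * (K + 1) ^ 2 := by
            refine Finset.sum_le_sum fun R _ => ?_
            refine (hnup R).trans ?_
            have := pow_le_pow_left₀ (hlam0 R).le (hlamK R) 2
            linarith
        _ = ((supp (fun R => A R v)).card : ℝ) * (5 * (K + 1) ^ 2) := by
            rw [Finset.sum_const, nsmul_eq_mul]
        _ ≤ t * (5 * (2 * CK * t ^ (σ / 4)) ^ 2) := by
            refine mul_le_mul h4 ?_ (by positivity) htp.le
            refine mul_le_mul_of_nonneg_left ?_ (by norm_num)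
            exact pow_le_pow_left₀ (by linarith) hKle 2
        _ = 20 * CK ^ 2 * t ^ (1 + σ / 2) := by
            have e1 : t ^ (1 + σ / 2) = t * (t ^ (σ / 4) * t ^ (σ / 4)) := by
              rw [← Real.rpow_add htp, Real.rpow_add htp, Real.rpow_one]
              congr 2
              ring
            rw [e1]
            ring
        _ ≤ t ^ (2 : ℝ) := F3
        _ ≤ 4 * t ^ 3 := by
            have e2 : t ^ (2 : ℝ) = t ^ 2 := by
              rw [← Real.rpow_natCast]; norm_num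
            rw [e2]
            nlinarith [mul_pos htp htp]
        _ ≤ _ := F4)
    (by positivity)
    (by
      intro x
      have e1 : ∀ p : Σ R : W, Fin (n R), ∑ v, |rep n b0 lam p v| * |x v| ≤
          (lam p.1 * τ p.1) * ∑ v, |A p.1 v| * |x v| := by
        intro p
        rw [Finset.mul_sum]
        refine Finset.sum_le_sum fun v _ => ?_
        have e2 : |rep n b0 lam p v| = (lam p.1 * τ p.1) * (|A p.1 v| * rho a v) := by
          simp only [rep, hb0]
          rw [abs_mul, abs_mul, abs_mul, abs_of_pos (hlam0 p.1), abs_of_pos (hτ0 p.1),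
            abs_of_nonneg (rho_nonneg ha v)]
          ring
        rw [e2]
        calc (lam p.1 * τ p.1) * (|A p.1 v| * rho a v) * |x v|
            ≤ (lam p.1 * τ p.1) * (|A p.1 v| * 1) * |x v| := by
              refine mul_le_mul_of_nonneg_right ?_ (abs_nonneg _)
              refine mul_le_mul_of_nonneg_left ?_ (hlt0 p.1).le
              exact mul_le_mul_of_nonneg_left (rho_le_one v) (abs_nonneg _)
          _ = _ := by ring
      have hKp : 0 ≤ K + 1 := by linarith
      have htσp : 0 ≤ t ^ (σ / 2) := Real.rpow_nonneg htp.le _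
      calc ∑ p : Σ R : W, Fin (n R), (∑ v, |rep n b0 lam p v| * |x v|) ^ 2
          ≤ ∑ p : Σ R : W, Fin (n R), ((lam p.1 * τ p.1) * ∑ v, |A p.1 v| * |x v|) ^ 2 := by
            refine Finset.sum_le_sum fun p _ => ?_
            refine pow_le_pow_left₀ ?_ (e1 p) 2
            exact Finset.sum_nonneg fun v _ => mul_nonneg (abs_nonneg _) (abs_nonneg _)
        _ = ∑ R, (n R : ℝ) * ((lam R * τ R) * ∑ v, |A R v| * |x v|) ^ 2 := by
            rw [Fintype.sum_sigma]
            simp only [Finset.sum_const, Finset.card_univ, Fintype.card_fin, nsmul_eq_mul]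
        _ ≤ ∑ R, (5 * (K + 1) ^ 2 * ((K + 1) * t ^ (σ / 2)) ^ 2) *
              (∑ v, |A R v| * |x v|) ^ 2 := by
            refine Finset.sum_le_sum fun R _ => ?_
            rw [mul_pow, ← mul_assoc]
            refine mul_le_mul_of_nonneg_right ?_ (sq_nonneg _)
            refine mul_le_mul ?_ ?_ (sq_nonneg _) (by positivity)
            · refine (hnup R).trans ?_
              have := pow_le_pow_left₀ (hlam0 R).le (hlamK R) 2
              linarith
            · exact pow_le_pow_left₀ (hlt0 R).le (hltle R) 2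
        _ = (5 * (K + 1) ^ 2 * ((K + 1) * t ^ (σ / 2)) ^ 2) *
              ∑ R, (∑ v, |A R v| * |x v|) ^ 2 := by rw [← Finset.mul_sum]
        _ ≤ (5 * (K + 1) ^ 2 * ((K + 1) * t ^ (σ / 2)) ^ 2) * (t ^ (2 - ε) * nsq x) :=
            mul_le_mul_of_nonneg_left (hop x) (by positivity)
        _ = (5 * (K + 1) ^ 4 * (t ^ (σ / 2) * t ^ (σ / 2)) * t ^ (2 - ε)) * nsq x := by ring
        _ ≤ (80 * CK ^ 4 * t ^ (2 - ε + 2 * σ)) * nsq x := by
            refine mul_le_mul_of_nonneg_right ?_ (nsq_nonneg x)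
            have e3 : (K + 1) ^ 4 ≤ (2 * CK * t ^ (σ / 4)) ^ 4 := pow_le_pow_left₀ hKp hKle 4
            have e4 : (t ^ (σ / 4)) ^ 4 = t ^ σ := by
              rw [← Real.rpow_natCast, ← Real.rpow_mul htp.le]
              congr 1
              push_cast
              ring
            have e5 : t ^ (2 - ε + 2 * σ) = t ^ σ * t ^ σ * t ^ (2 - ε) := by
              rw [← Real.rpow_add htp, ← Real.rpow_add htp]
              congr 1
              ring
            rw [htσ2, e5]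
            have e6 : (2 * CK * t ^ (σ / 4)) ^ 4 = 16 * CK ^ 4 * t ^ σ := by
              rw [mul_pow, e4]; ring
            rw [e6] at e3
            have e7 : 0 ≤ t ^ σ * t ^ (2 - ε) :=
              mul_nonneg (Real.rpow_nonneg htp.le _) (Real.rpow_nonneg htp.le _)
            calc 5 * (K + 1) ^ 4 * t ^ σ * t ^ (2 - ε)
                = 5 * (K + 1) ^ 4 * (t ^ σ * t ^ (2 - ε)) := by ring
              _ ≤ 5 * (16 * CK ^ 4 * t ^ σ) * (t ^ σ * t ^ (2 - ε)) := by
                  refine mul_le_mul_of_nonneg_right ?_ e7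
                  linarith
              _ = 80 * CK ^ 4 * (t ^ σ * t ^ σ * t ^ (2 - ε)) := by ring
        _ ≤ (t ^ (2 - ε / 2)) * nsq x := mul_le_mul_of_nonneg_right F2 (nsq_nonneg x)
        _ ≤ (t ^ (2 - ε / 2) / s) * nsq x := by
            refine mul_le_mul_of_nonneg_right ?_ (nsq_nonneg x)
            rw [le_div_iff₀ hs0]
            exact mul_le_of_le_one_right (Real.rpow_nonneg htp.le _) hs1)
    p9 p10 p11 p12 p13 (by positivity)
    (by
      rw [mul_one_div, div_le_iff₀ (by positivity)]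
      linarith)
    (by
      rw [le_div_iff₀ (by positivity)]
      exact p14)
    (by
      intro z hz p
      refine hEH' V W n b0 lam K' K w0 z hK1 p3 hw1 hz p (hK'1 p.1) (hlam1 p.1) (hlameq p.1)
        (hnlow p.1) ?_
      intro y y'
      exact hlip0 p.1 y y' (z y) (z y') (hz y) (hz y'))
    (by
      intro v
      have e1 : ∑ p : Σ R : W, Fin (n R), rep n b0 lam p v ^ 2 *
          (((lam p.1)⁻¹) ^ 4 * (Ch * ((K' p.1)⁻¹) ^ 4)) =
          ∑ R, (n R : ℝ) * ((lam R * b0 R v) ^ 2 * (((lam R)⁻¹) ^ 4 * (Ch * ((K' R)⁻¹) ^ 4))) := by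
        rw [Fintype.sum_sigma]
        simp only [rep, Finset.sum_const, Finset.card_univ, Fintype.card_fin, nsmul_eq_mul]
      rw [e1]
      have e2 : ∀ R, (n R : ℝ) * ((lam R * b0 R v) ^ 2 * (((lam R)⁻¹) ^ 4 *
          (Ch * ((K' R)⁻¹) ^ 4))) ≤
          (1 / 32000) * A R v ^ 2 + (1 / 32000) * (if 1 < μ R then lamL ^ 2 * A R v ^ 2 else 0) := by
        intro R
        have hl := hlam0 R
        have e3 : (n R : ℝ) * ((lam R * b0 R v) ^ 2 * (((lam R)⁻¹) ^ 4 * (Ch * ((K' R)⁻¹) ^ 4))) =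
            ((n R : ℝ) * ((lam R) ^ 2)⁻¹) * (b0 R v ^ 2 * (Ch * ((K' R)⁻¹) ^ 4)) := by
          field_simp
        rw [e3]
        rcases le_or_gt (μ R) 1 with h | h
        · rw [if_neg (not_lt.2 h), mul_zero, add_zero]
          have e4 : (n R : ℝ) * ((lam R) ^ 2)⁻¹ ≤ 2 := by
            rw [← div_eq_mul_inv, div_le_iff₀ (by positivity)]
            exact hnshort R h
          have e5 : b0 R v ^ 2 ≤ (μ R)⁻¹ * A R v ^ 2 := by
            have e6 : τ R ^ 2 = (μ R)⁻¹ := by
              simp only [hτ]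
              rw [if_pos h, inv_pow, Real.sq_sqrt (hμ0 R).le]
            simp only [hb0]
            rw [mul_pow, e6]
            exact mul_le_mul_of_nonneg_left (hρ1 R v) (inv_nonneg.2 (hμ0 R).le)
          have e7 : ((K' R)⁻¹) ^ 4 = (CK ^ 4)⁻¹ * μ R := by
            simp only [hK']
            rw [if_pos h, inv_pow, mul_pow, mul_inv, ← inv_pow ((μ R) ^ (-(1/4) : ℝ))]
            congr 1
            rw [← Real.rpow_neg (hμ0 R).le, ← Real.rpow_natCast, ← Real.rpow_mul (hμ0 R).le]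
            norm_num
          have e8 : Ch * (CK ^ 4)⁻¹ ≤ 1 / 64000 := by
            have e9 : CK ≤ CK ^ 4 := by
              calc CK = CK ^ 1 := (pow_one _).symm
                _ ≤ CK ^ 4 := pow_le_pow_right₀ hCK1 (by norm_num)
            rw [← div_eq_mul_inv, div_le_div_iff₀ (by positivity) (by norm_num)]
            linarith
          calc ((n R : ℝ) * ((lam R) ^ 2)⁻¹) * (b0 R v ^ 2 * (Ch * ((K' R)⁻¹) ^ 4))
              ≤ 2 * (((μ R)⁻¹ * A R v ^ 2) * (Ch * ((CK ^ 4)⁻¹ * μ R))) := by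
                rw [e7]
                have hp1 : 0 ≤ Ch * ((CK ^ 4)⁻¹ * μ R) := by
                  have := hμ0 R
                  positivity
                refine mul_le_mul e4 (mul_le_mul_of_nonneg_right e5 hp1) ?_ (by norm_num)
                exact mul_nonneg (sq_nonneg _) hp1
            _ = 2 * (Ch * (CK ^ 4)⁻¹) * A R v ^ 2 := by
                have := (hμ0 R).ne'
                field_simp
            _ ≤ 2 * (1 / 64000) * A R v ^ 2 := by
                refine mul_le_mul_of_nonneg_right ?_ (sq_nonneg _)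
                linarith
            _ = _ := by ring
        · rw [if_pos h]
          have e4 : (n R : ℝ) * ((lam R) ^ 2)⁻¹ ≤ 5 := by
            rw [← div_eq_mul_inv, div_le_iff₀ (by positivity)]
            exact hnup R
          have e5 : b0 R v ^ 2 ≤ c1 ^ 2 * (lamL ^ 2 * A R v ^ 2) := by
            have e6 : τ R ^ 2 = c1 ^ 2 * lamL ^ 2 := by
              simp only [hτ]
              rw [if_neg (not_le.2 h), mul_pow]
            simp only [hb0]
            rw [mul_pow, e6, mul_assoc]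
            refine mul_le_mul_of_nonneg_left ?_ (sq_nonneg _)
            exact mul_le_mul_of_nonneg_left (hρ1 R v) (sq_nonneg _)
          have e7 : ((K' R)⁻¹) ^ 4 = 1 := by
            simp only [hK']
            rw [if_neg (not_le.2 h)]
            norm_num
          have e8 : c1 ^ 2 * Ch ≤ 1 / 160000 := by
            rw [hc12, inv_mul_eq_div, div_le_div_iff₀ (by linarith) (by norm_num)]
            linarith
          calc ((n R : ℝ) * ((lam R) ^ 2)⁻¹) * (b0 R v ^ 2 * (Ch * ((K' R)⁻¹) ^ 4))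
              ≤ 5 * ((c1 ^ 2 * (lamL ^ 2 * A R v ^ 2)) * (Ch * 1)) := by
                rw [e7]
                refine mul_le_mul e4 (mul_le_mul_of_nonneg_right e5 (by linarith)) ?_ (by norm_num)
                exact mul_nonneg (sq_nonneg _) (by linarith)
            _ = 5 * (c1 ^ 2 * Ch) * (lamL ^ 2 * A R v ^ 2) := by ring
            _ ≤ 5 * (1 / 160000) * (lamL ^ 2 * A R v ^ 2) := by
                refine mul_le_mul_of_nonneg_right ?_ (by positivity)
                linarith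
            _ = (1 / 32000) * (lamL ^ 2 * A R v ^ 2) := by ring
            _ ≤ _ := by
                have : 0 ≤ (1 / 32000) * A R v ^ 2 := by positivity
                linarith
      have e4 := Finset.sum_le_sum (s := Finset.univ) fun R _ => e2 R
      rw [Finset.sum_add_distrib, ← Finset.mul_sum, ← Finset.mul_sum] at e4
      have e5 := hA.col v
      have e6 := hlong v
      rw [Finset.mul_sum, Finset.sum_filter] at e6
      linarith)
    p15
  have hfac : ∀ R : W, (K + 3) / (lam R * τ R) ≤ 2 * (K' R + 1) / τ R := by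
    intro R
    have e1 := hlam0 R
    have e2 := hτ0 R
    have e3 := hlameq R
    rw [div_le_div_iff₀ (mul_pos e1 e2) e2]
    have e4 : 2 * (K' R + 1) * (lam R * τ R) = 2 * (lam R * (K' R + 1)) * τ R := by ring
    rw [e4, e3]
    refine mul_le_mul_of_nonneg_right ?_ e2.le
    linarith
  have hn1 : ∀ R, 0 < n R := by
    intro R
    have h4 := hnlow R
    have h5 := hlam1 R
    have h6 : (0 : ℝ) < n R := lt_of_lt_of_le (by positivity) h4
    exact_mod_cast h6
  refine ⟨a', h1, fun R => ?_, fun R hR => ?_, fun R hR => ?_⟩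
  · have h4 := h2 ⟨R, ⟨0, hn1 R⟩⟩
    have h5 : Phi (fun (p : Σ R : W, Fin (n R)) v => A p.1 v) a' ⟨R, ⟨0, hn1 R⟩⟩ =
        Phi A a' R := rfl
    rw [h5] at h4
    have := hμ0 R
    dsimp only at h4
    linarith
  · have h4 := (h3 ⟨R, ⟨0, hn1 R⟩⟩).trans (hfac R)
    refine h4.trans ?_
    have e1 : K' R = CK * (μ R) ^ (-(1/4) : ℝ) := by
      simp only [hK']; rw [if_pos hR]
    have e2 : τ R = (Real.sqrt (μ R))⁻¹ := by
      simp only [hτ]; rw [if_pos hR]
    have e3 : Real.sqrt (μ R) = (μ R) ^ (1/4 : ℝ) * (μ R) ^ (1/4 : ℝ) := by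
      rw [← Real.rpow_add (hμ0 R), Real.sqrt_eq_rpow]; norm_num
    have e4 : (μ R) ^ (-(1/4) : ℝ) * (μ R) ^ (1/4 : ℝ) = 1 := by
      rw [← Real.rpow_add (hμ0 R)]; norm_num
    have e5 : 0 < (μ R) ^ (1/4 : ℝ) := Real.rpow_pos_of_pos (hμ0 R) _
    rw [e2, div_inv_eq_mul, e3]
    have e6 : K' R + 1 ≤ 2 * (CK * (μ R) ^ (-(1/4) : ℝ)) := by
      rw [← e1]
      linarith [hK'1 R]
    calc 2 * (K' R + 1) * ((μ R) ^ (1/4 : ℝ) * (μ R) ^ (1/4 : ℝ))
        ≤ 2 * (2 * (CK * (μ R) ^ (-(1/4) : ℝ))) * ((μ R) ^ (1/4 : ℝ) * (μ R) ^ (1/4 : ℝ)) := by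
          refine mul_le_mul_of_nonneg_right ?_ (by positivity)
          linarith
      _ = 4 * CK * ((μ R) ^ (-(1/4) : ℝ) * (μ R) ^ (1/4 : ℝ)) * (μ R) ^ (1/4 : ℝ) := by ring
      _ = 4 * CK * (μ R) ^ (1/4 : ℝ) := by rw [e4, mul_one]
      _ ≤ (4 * CK + 4 / c1) * (μ R) ^ (1/4 : ℝ) := by
          refine mul_le_mul_of_nonneg_right ?_ e5.le
          have : 0 < 4 / c1 := by positivity
          linarith
  · have h4 := (h3 ⟨R, ⟨0, hn1 R⟩⟩).trans (hfac R)
    refine h4.trans ?_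
    have e1 : K' R = 1 := by
      simp only [hK']; rw [if_neg (not_le.2 hR)]
    have e2 : τ R = c1 * lamL := by
      simp only [hτ]; rw [if_neg (not_le.2 hR)]
    rw [e1, e2]
    have hlL0 : 0 < lamL := by linarith
    calc 2 * (1 + 1) / (c1 * lamL) = (4 / c1) / lamL := by field_simp; norm_num
      _ ≤ (4 * CK + 4 / c1) / lamL := by
          refine div_le_div_of_nonneg_right ?_ hlL0.le
          linarith

end

end Pool.Agent.K4H80.BF
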