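import Pool.Agent.K4H80.BF.Core4

set_option autoImplicit false
set_option maxHeartbeats 4000000

/-!
# Phases for flat matrices with long rows

`Flat κ t A`: all nonzero entries of `A` have absolute value `t ^ (-1/2)`, the columns have norm at
most one, and rows and columns have at most `exp (t ^ κ) / 4` nonzero entries. The rows may be much
longer than `t`.
-/

open MeasureTheory ProbabilityTheory

namespace Pool.Agent.K4H80.BF

open Pool.Agent.H320R2.LD Pool.Agent.H320R2.LD.PHASE Pool.Agent.R959.LD2 Pool.Agent.R959.LD3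

noncomputable section

/-- incidence matrices of set systems of maximum degree at most `t`, divided by `√t` -/
structure Flat {V W : Type} [Fintype V] [Fintype W] (κ t : ℝ) (A : W → V → ℝ) : Prop where
  ent : ∀ R v, A R v = 0 ∨ A R v ^ 2 * t = 1
  col : ∀ v, ∑ R, A R v ^ 2 ≤ 1
  row : ∀ R, 4 * ((supp (A R)).card : ℝ) ≤ Real.exp (t ^ κ)
  colc : ∀ v, 4 * ((supp (fun R => A R v)).card : ℝ) ≤ Real.exp (t ^ κ)

section flat

variable {V W : Type} [Fintype V] [Fintype W] {κ t : ℝ} {A : W → V → ℝ}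

theorem Flat.abs_eq (h : Flat κ t A) (ht : 0 < t) (R : W) (v : V) :
    |A R v| = Real.sqrt t * A R v ^ 2 := by
  rcases h.ent R v with h1 | h1
  · rw [h1]; simp
  · have h2 : Real.sqrt t ^ 2 = t := Real.sq_sqrt ht.le
    have h3 : 0 < Real.sqrt t := Real.sqrt_pos.2 ht
    have h4 : (|A R v| * Real.sqrt t) ^ 2 = 1 := by rw [mul_pow, sq_abs, h2]; exact h1
    have h5 : |A R v| * Real.sqrt t = 1 := by
      have h6 : 0 ≤ |A R v| * Real.sqrt t := by positivity
      nlinarith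
    calc |A R v| = |A R v| * (|A R v| * Real.sqrt t) := by rw [h5, mul_one]
      _ = Real.sqrt t * |A R v| ^ 2 := by ring
      _ = _ := by rw [sq_abs]

theorem Flat.le (h : Flat κ t A) (R : W) (v : V) : A R v ^ 2 * t ≤ 1 := by
  rcases h.ent R v with h1 | h1
  · rw [h1]; norm_num
  · exact h1.le

theorem Flat.rowsum (h : Flat κ t A) (ht : 0 < t) {a : V → ℝ} (ha : ∀ v, |a v| ≤ 1) {s : ℝ}
    (R : W) (hP : Phi A a R ≤ s) : ∑ v, |A R v| * rho a v ≤ Real.sqrt t * s := by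
  calc ∑ v, |A R v| * rho a v ≤ ∑ v, Real.sqrt t * (A R v ^ 2 * Real.sqrt (1 - |a v|)) := by
        refine Finset.sum_le_sum fun v _ => ?_
        rw [h.abs_eq ht, mul_assoc]
        refine mul_le_mul_of_nonneg_left ?_ (Real.sqrt_nonneg _)
        exact mul_le_mul_of_nonneg_left (rho_le_sqrt ha v) (sq_nonneg _)
    _ = Real.sqrt t * Phi A a R := by rw [← Finset.mul_sum]; rfl
    _ ≤ _ := mul_le_mul_of_nonneg_left hP (Real.sqrt_nonneg _)

theorem Flat.colsum (h : Flat κ t A) (ht : 0 < t) {a : V → ℝ} (ha : ∀ v, |a v| ≤ 1) (v : V) :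
    ∑ R, |A R v| * rho a v ≤ Real.sqrt t := by
  calc ∑ R, |A R v| * rho a v ≤ ∑ R, Real.sqrt t * A R v ^ 2 := by
        refine Finset.sum_le_sum fun R _ => ?_
        rw [h.abs_eq ht]
        exact mul_le_of_le_one_right (by positivity) (rho_le_one v)
    _ = Real.sqrt t * ∑ R, A R v ^ 2 := by rw [← Finset.mul_sum]
    _ ≤ Real.sqrt t * 1 := mul_le_mul_of_nonneg_left (h.col v) (Real.sqrt_nonneg _)
    _ = Real.sqrt t := mul_one _

end flat

/-- One phase while some rows are long (row masses up to `s`, `s ≥ 1`): all row masses fall by a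
factor `4/5`, and every row sum moves by at most a constant. -/
def St_BIG (κ : ℝ) : Prop := ∃ C t0 : ℝ, 0 < C ∧ 2 ≤ t0 ∧ ∀ (t s : ℝ), t0 ≤ t →
  1 ≤ s → ∀ (V W : Type) [Fintype V] [Fintype W]
  (A : W → V → ℝ) (a : V → ℝ), Flat κ t A → (∀ v, |a v| ≤ 1) → (∀ R, Phi A a R ≤ s) →
  ∃ a' : V → ℝ, (∀ v, |a' v| ≤ 1) ∧ (∀ R, Phi A a' R ≤ 4/5 * s) ∧
    ∀ R, |∑ v, A R v * (a' v - a v)| ≤ C

/-- One phase when all rows are short. -/
def St_SMALL (κ σ : ℝ) : Prop := ∃ C t0 : ℝ, 0 < C ∧ 2 ≤ t0 ∧ ∀ (t s : ℝ), t0 ≤ t →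
  t ^ (-σ) ≤ s → s ≤ 1 → ∀ (V W : Type) [Fintype V] [Fintype W]
  (A : W → V → ℝ) (a : V → ℝ), Flat κ t A → (∀ v, |a v| ≤ 1) → (∀ R, Phi A a R ≤ s) →
  ∃ a' : V → ℝ, (∀ v, |a' v| ≤ 1) ∧ (∀ R, Phi A a' R ≤ 4/5 * s) ∧
    ∀ R, |∑ v, A R v * (a' v - a v)| ≤ C * s ^ (1/4 : ℝ)

theorem prove_BIG (κ σ : ℝ) (hκ : 0 < κ) (hσ : 0 < σ) (hPARAM : St_PARAM3 1 κ σ) : St_BIG κ := by
  classical
  obtain ⟨Ch, hCh, hEH'⟩ := eh4 400 (by norm_num)
  obtain ⟨t0, ht02, hpar⟩ := hPARAM 400 (1 / 10 ^ 12) (by norm_num) (by norm_num)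
  set lam : ℝ := (Real.sqrt (64000 * (1 + Ch)))⁻¹ with hlamdef
  have hX : (1 : ℝ) ≤ 64000 * (1 + Ch) := by nlinarith
  have hX0 : (0 : ℝ) < 64000 * (1 + Ch) := by linarith
  have hlam : 0 < lam := inv_pos.2 (Real.sqrt_pos.2 hX0)
  have hlam2 : lam ^ 2 = (64000 * (1 + Ch))⁻¹ := by
    rw [hlamdef, inv_pow, Real.sq_sqrt hX0.le]
  have hlamle : lam ^ 2 ≤ 1 / 64000 := by
    rw [hlam2, one_div]
    exact inv_anti₀ (by norm_num) (by nlinarith)
  have hlam1 : lam ≤ 1 := by nlinarith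
  refine ⟨4 / lam, t0, by positivity, ht02, ?_⟩
  intro t s ht hs1 V W _ _ A a hA ha hPhi
  have ht0 : 0 < t := by linarith
  have ht1 : 1 ≤ t := by linarith
  have hs : 0 < s := by linarith
  set T : ℝ := s * t with hT
  have hTt : t ≤ T := by rw [hT]; nlinarith
  have hT0 : 0 < T := by linarith
  have hT1 : 1 ≤ T := by linarith
  obtain ⟨w0, α, q, qb, ε, m, p1, p2, p3, p4, p5, p6, p7, p8, p9, p10, p11, p12, p13, p14, p15⟩ :=
    hpar T (ht.trans hTt) 1 (Real.rpow_le_one_of_one_le_of_nonpos hT1 (by linarith)) le_rfl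
      ⌊Real.exp (T ^ κ)⌋₊ rfl
  have hw1 : w0 ≤ 1 := by linarith
  have hexp : Real.exp (t ^ κ) ≤ Real.exp (T ^ κ) :=
    Real.exp_le_exp.2 (Real.rpow_le_rpow ht0.le hTt hκ.le)
  have hexp1 : 1 ≤ Real.exp (T ^ κ) := Real.one_le_exp (Real.rpow_nonneg hT0.le _)
  have hDe : ((⌊Real.exp (T ^ κ)⌋₊ : ℕ) : ℝ) ≤ Real.exp (T ^ κ) :=
    Nat.floor_le (Real.exp_pos _).le
  have hD1 : 1 ≤ ⌊Real.exp (T ^ κ)⌋₊ := Nat.le_floor (by rw [Nat.cast_one]; exact hexp1)
  have habs : ∀ R v, |A R v| ≤ 1 := by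
    intro R v
    have h1 := hA.le R v
    have h2 : A R v ^ 2 ≤ 1 := by nlinarith [sq_nonneg (A R v)]
    exact (sq_le_one_iff_abs_le_one _).1 h2
  have hbabs : ∀ (R : W) (v : V), |lam * (A R v * rho a v)| = lam * (|A R v| * rho a v) := by
    intro R v
    rw [abs_mul, abs_mul, abs_of_pos hlam, abs_of_nonneg (rho_nonneg ha v)]
  obtain ⟨a', h1, h2, h3⟩ := core4 (V := V) (W := W × Fin 4) (fun p v => A p.1 v) a lam t s
    (fun p v => hA.le p.1 v) ha (fun p => hPhi p.1) ht0 hs hlam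
    (fun p v => lam * (A p.1 v * rho a v)) (fun _ _ => rfl)
    (by
      intro p v
      rw [hbabs]
      have h4 := habs p.1 v
      have h5 := rho_le_one (a := a) v
      have h6 := rho_nonneg ha v
      calc lam * (|A p.1 v| * rho a v) ≤ 1 * (1 * 1) := by gcongr
        _ = 1 := by norm_num)
    400 1 w0 α q qb ε (1 / 10 ^ 12) Ch (4 * lam ^ 2) (1 / (1000 * Real.exp (T ^ κ)))
    (T ^ (1 : ℝ) / 1) ⌊Real.exp (T ^ κ)⌋₊ m rfl le_rfl p3 hw1 p4 rfl
    (stf_of_copies _ w0 p3 hw1 (fun R i v => rfl))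
    p5 p6 p7 p8 p2 hD1
    (by
      intro p
      refine Nat.le_floor ?_
      have h4 := hA.row p.1
      have h5 : (0 : ℝ) ≤ (supp (A p.1)).card := Nat.cast_nonneg _
      show ((supp (A p.1)).card : ℝ) ≤ _
      linarith)
    (by
      intro v
      refine Nat.le_floor ?_
      have h4 := hA.colc v
      have h5 : supp (fun p : W × Fin 4 => A p.1 v) =
          (supp (fun R => A R v)) ×ˢ (Finset.univ : Finset (Fin 4)) := by
        ext ⟨R, i⟩
        rw [mem_supp, Finset.mem_product, mem_supp]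
        simp
      rw [h5, Finset.card_product, Finset.card_univ, Fintype.card_fin]
      push_cast
      linarith)
    (by positivity)
    (by
      intro x
      refine (schur (fun (p : W × Fin 4) v => lam * (A p.1 v * rho a v))
        (lam * (Real.sqrt t * s)) (4 * (lam * Real.sqrt t)) (by positivity) ?_ ?_ x).trans ?_
      · intro p
        simp_rw [hbabs]
        rw [← Finset.mul_sum]
        exact mul_le_mul_of_nonneg_left (hA.rowsum ht0 ha p.1 (hPhi p.1)) hlam.le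
      · intro v
        simp_rw [hbabs]
        rw [Fintype.sum_prod_type]
        simp only [Finset.sum_const, Finset.card_univ, Fintype.card_fin, nsmul_eq_mul]
        rw [← Finset.mul_sum, ← Finset.mul_sum]
        have h4 := hA.colsum ht0 ha v
        push_cast
        refine mul_le_mul_of_nonneg_left ?_ (by norm_num)
        exact mul_le_mul_of_nonneg_left h4 hlam.le
      · refine mul_le_mul_of_nonneg_right ?_ (nsq_nonneg x)
        rw [Real.rpow_one, div_one]
        calc lam * (Real.sqrt t * s) * (4 * (lam * Real.sqrt t))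
            = 4 * lam ^ 2 * (Real.sqrt t * Real.sqrt t * s) := by ring
          _ = 4 * lam ^ 2 * T := by rw [Real.mul_self_sqrt ht0.le, hT, mul_comm t s]
          _ ≤ 1 * T := by
              refine mul_le_mul_of_nonneg_right ?_ hT0.le
              linarith
          _ = T := one_mul _)
    p9 p10 p11 p12 p13 (by positivity)
    (by
      rw [mul_one_div, div_le_iff₀ (by positivity)]
      linarith)
    (by
      rw [le_div_iff₀ (by positivity)]
      exact p14)
    hCh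
    (by
      intro z hz p
      refine hEH' V (W × Fin 4) _ 1 w0 z le_rfl p3 hw1 hz p ?_
      intro y y'
      exact stf_of_copies _ w0 p3 hw1 (fun R i v => rfl) p y y' (z y) (z y') (hz y) (hz y'))
    (by
      intro v
      rw [Fintype.sum_prod_type]
      simp only [Finset.sum_const, Finset.card_univ, Fintype.card_fin, nsmul_eq_mul]
      rw [← Finset.mul_sum]
      push_cast
      have h4 : ∑ R, (lam * (A R v * rho a v)) ^ 2 ≤ lam ^ 2 * 1 := by
        calc ∑ R, (lam * (A R v * rho a v)) ^ 2 ≤ ∑ R, lam ^ 2 * A R v ^ 2 := by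
              refine Finset.sum_le_sum fun R _ => ?_
              rw [mul_pow, mul_pow]
              refine mul_le_mul_of_nonneg_left ?_ (sq_nonneg _)
              have h5 := rho_nonneg ha v
              have h6 := rho_le_one (a := a) v
              exact mul_le_of_le_one_right (sq_nonneg _) (by nlinarith)
          _ = lam ^ 2 * ∑ R, A R v ^ 2 := by rw [← Finset.mul_sum]
          _ ≤ lam ^ 2 * 1 := mul_le_mul_of_nonneg_left (hA.col v) (sq_nonneg _)
      linarith)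
    (by
      rw [hlam2, inv_one, one_pow, mul_one]
      have h4 : 16 * (4 * (64000 * (1 + Ch))⁻¹ * Ch) = (1 / 1000) * (Ch / (1 + Ch)) := by
        field_simp
        ring
      rw [h4]
      have h5 : Ch / (1 + Ch) ≤ 1 := by
        rw [div_le_one (by linarith)]
        linarith
      nlinarith)
    (by
      have h4 := p15
      rw [one_mul] at h4
      exact h4)
  refine ⟨a', h1, fun R => ?_, fun R => ?_⟩
  · have h4 := h2 (R, 0)
    have h5 : Phi (fun (p : W × Fin 4) v => A p.1 v) a' (R, 0) = Phi A a' R := rfl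
    rw [h5] at h4
    linarith
  · have h4 := h3 (R, 0)
    refine h4.trans (le_of_eq ?_)
    norm_num

theorem prove_SMALL (κ σ : ℝ) (hPARAM : St_PARAM3 1 κ σ) : St_SMALL κ σ := by
  classical
  obtain ⟨Ch, hCh, hEH'⟩ := eh4 400 (by norm_num)
  obtain ⟨t0, ht02, hpar⟩ := hPARAM 400 (1 / 10 ^ 12) (by norm_num) (by norm_num)
  set CK : ℝ := 1 + 16000 * Ch with hCK
  have hCK1 : 1 ≤ CK := by linarith
  refine ⟨CK + 3, t0, by positivity, ht02, ?_⟩
  intro t s ht hts hs1 V W _ _ A a hA ha hPhi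
  obtain ⟨w0, α, q, qb, ε, m, p1, p2, p3, p4, p5, p6, p7, p8, p9, p10, p11, p12, p13, p14, p15⟩ :=
    hpar t ht s hts hs1 ⌊Real.exp (t ^ κ)⌋₊ rfl
  have ht0 : 0 < t := by linarith
  have ht1 : 1 ≤ t := by linarith
  have hw1 : w0 ≤ 1 := by linarith
  have hs : 0 < s := lt_of_lt_of_le (Real.rpow_pos_of_pos ht0 _) hts
  have hss : 0 < Real.sqrt s := Real.sqrt_pos.2 hs
  set K : ℝ := CK * s ^ (-(1/4) : ℝ) with hK
  have hsK : 1 ≤ s ^ (-(1/4) : ℝ) :=
    Real.one_le_rpow_of_pos_of_le_one_of_nonpos hs hs1 (by norm_num)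
  have hK1 : 1 ≤ K := by
    rw [hK]
    nlinarith
  have hs4 : (s ^ (-(1/4) : ℝ)) ^ 4 = 1 / s := by
    rw [← Real.rpow_natCast, ← Real.rpow_mul hs.le]
    norm_num
    rw [Real.rpow_neg_one]
  have hKs : 16 * ((1 / s) * (Ch * (K⁻¹) ^ 4)) ≤ 1 / 1000 := by
    rw [inv_pow, hK, mul_pow, hs4]
    have h1 : (1 / s) * (Ch * (CK ^ 4 * (1 / s))⁻¹) = Ch / CK ^ 4 := by
      field_simp
    rw [h1, mul_div_assoc', div_le_div_iff₀ (by positivity) (by norm_num)]
    have h2 : CK ≤ CK ^ 4 := by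
      calc CK = CK ^ 1 := (pow_one _).symm
        _ ≤ CK ^ 4 := pow_le_pow_right₀ hCK1 (by norm_num)
    linarith
  have hexp1 : 1 ≤ Real.exp (t ^ κ) := Real.one_le_exp (Real.rpow_nonneg ht0.le _)
  have hDe : ((⌊Real.exp (t ^ κ)⌋₊ : ℕ) : ℝ) ≤ Real.exp (t ^ κ) :=
    Nat.floor_le (Real.exp_pos _).le
  have hD1 : 1 ≤ ⌊Real.exp (t ^ κ)⌋₊ := Nat.le_floor (by rw [Nat.cast_one]; exact hexp1)
  have hrow : ∀ R, ∑ v, bb A a s R v ^ 2 ≤ 1 := fun R => bb_row ha hs R (hPhi R)
  have hst : Stf (bb A a s) K w0 := stf_of_row _ K w0 hK1 p3 hw1 hrow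
  have hbabs : ∀ (R : W) (v : V), |bb A a s R v| = (Real.sqrt s)⁻¹ * (|A R v| * rho a v) := by
    intro R v
    unfold bb
    rw [abs_div, abs_mul, abs_of_pos hss, abs_of_nonneg (rho_nonneg ha v)]
    ring
  obtain ⟨a', h1, h2, h3⟩ := core4 A a (Real.sqrt s)⁻¹ t s
    (fun R v => hA.le R v) ha hPhi ht0 hs (inv_pos.2 hss)
    (bb A a s) (by intro R v; unfold bb; ring)
    (by
      intro R v
      have h20 : bb A a s R v ^ 2 ≤ 1 := by
        refine le_trans ?_ (hrow R)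
        exact Finset.single_le_sum (f := fun v => bb A a s R v ^ 2)
          (fun u _ => sq_nonneg _) (Finset.mem_univ v)
      exact (sq_le_one_iff_abs_le_one _).1 h20)
    400 K w0 α q qb ε (1 / 10 ^ 12) Ch (1 / s) (1 / (1000 * Real.exp (t ^ κ)))
    (t ^ (1 : ℝ) / s) ⌊Real.exp (t ^ κ)⌋₊ m rfl hK1 p3 hw1 p4 rfl hst
    p5 p6 p7 p8 p2 hD1
    (by
      intro R
      refine Nat.le_floor ?_
      have h4 := hA.row R
      have h5 : (0 : ℝ) ≤ (supp (A R)).card := Nat.cast_nonneg _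
      linarith)
    (by
      intro v
      refine Nat.le_floor ?_
      have h4 := hA.colc v
      have h5 : (0 : ℝ) ≤ (supp (fun R => A R v)).card := Nat.cast_nonneg _
      linarith)
    (by positivity)
    (by
      intro x
      refine (schur (bb A a s) ((Real.sqrt s)⁻¹ * (Real.sqrt t * s))
        ((Real.sqrt s)⁻¹ * Real.sqrt t) (by positivity) ?_ ?_ x).trans ?_
      · intro R
        simp_rw [hbabs]
        rw [← Finset.mul_sum]
        exact mul_le_mul_of_nonneg_left (hA.rowsum ht0 ha R (hPhi R)) (by positivity)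
      · intro v
        simp_rw [hbabs]
        rw [← Finset.mul_sum]
        exact mul_le_mul_of_nonneg_left (hA.colsum ht0 ha v) (by positivity)
      · refine mul_le_mul_of_nonneg_right ?_ (nsq_nonneg x)
        rw [Real.rpow_one]
        have h4 : (Real.sqrt s)⁻¹ * (Real.sqrt s)⁻¹ = s⁻¹ := by
          rw [← mul_inv, Real.mul_self_sqrt hs.le]
        calc (Real.sqrt s)⁻¹ * (Real.sqrt t * s) * ((Real.sqrt s)⁻¹ * Real.sqrt t)
            = ((Real.sqrt s)⁻¹ * (Real.sqrt s)⁻¹) * (Real.sqrt t * Real.sqrt t) * s := by ring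
          _ = t := by rw [h4, Real.mul_self_sqrt ht0.le]; field_simp
          _ ≤ t / s := by
              rw [le_div_iff₀ hs]
              exact mul_le_of_le_one_right ht0.le hs1)
    p9 p10 p11 p12 p13 (by positivity)
    (by
      rw [mul_one_div, div_le_iff₀ (by positivity)]
      linarith)
    (by
      rw [le_div_iff₀ (by positivity)]
      exact p14)
    hCh
    (by
      intro z hz R
      refine hEH' V W _ K w0 z hK1 p3 hw1 hz R ?_
      intro y y'
      exact hst R y y' (z y) (z y') (hz y) (hz y'))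
    (fun v => bb_col ha hs v (hA.col v)) hKs p15
  refine ⟨a', h1, fun R => (h2 R).trans ?_, fun R => (h3 R).trans ?_⟩
  · nlinarith
  · have hs14 : 0 < s ^ (1/4 : ℝ) := Real.rpow_pos_of_pos hs _
    have e1 : Real.sqrt s = s ^ (1/4 : ℝ) * s ^ (1/4 : ℝ) := by
      rw [← Real.rpow_add hs, Real.sqrt_eq_rpow]; norm_num
    have e2 : s ^ (-(1/4) : ℝ) * s ^ (1/4 : ℝ) = 1 := by
      rw [← Real.rpow_add hs]; norm_num
    have e3 : s ^ (1/4 : ℝ) ≤ 1 := Real.rpow_le_one hs.le hs1 (by norm_num)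
    rw [div_inv_eq_mul, e1, hK]
    calc (CK * s ^ (-(1/4) : ℝ) + 3) * (s ^ (1/4 : ℝ) * s ^ (1/4 : ℝ))
        = CK * (s ^ (-(1/4) : ℝ) * s ^ (1/4 : ℝ)) * s ^ (1/4 : ℝ)
          + 3 * (s ^ (1/4 : ℝ)) * s ^ (1/4 : ℝ) := by ring
      _ = CK * s ^ (1/4 : ℝ) + 3 * (s ^ (1/4 : ℝ)) * s ^ (1/4 : ℝ) := by rw [e2]; ring
      _ ≤ (CK + 3) * s ^ (1/4 : ℝ) := by nlinarith

end

end Pool.Agent.K4H80.BF
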