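import Pool.Agent.K4H80.BF.Emu

set_option autoImplicit false

/-!
# Repeated scaled rows
-/

open MeasureTheory ProbabilityTheory

namespace Pool.Agent.K4H80.BF

open Pool.Agent.H320R2.LD

noncomputable section

/-- the row `R` of `b0` scaled with `lam R` and repeated `n R` times -/
def rep {V W : Type} (n : W → ℕ) (b0 : W → V → ℝ) (lam : W → ℝ) :
    (Σ R : W, Fin (n R)) → V → ℝ := fun p v => lam p.1 * b0 p.1 v

section

variable {V W : Type} [Fintype V] [Fintype W] {n : W → ℕ} {b0 : W → V → ℝ} {lam K' : W → ℝ}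
  {K w0 : ℝ}

theorem eta_rep (z : V → ℝ) (p : Σ R : W, Fin (n R)) :
    eta (rep n b0 lam) z p = lam p.1 * eta b0 z p.1 := by
  unfold eta rep
  rw [Finset.mul_sum]
  exact Finset.sum_congr rfl fun v _ => by ring

theorem rep_energy (hK : 1 ≤ K) (hw0 : 0 < w0) (hw1 : w0 ≤ 1) (y y' z z' : V → ℝ)
    (hz : VI (rep n b0 lam) (pf K w0) y z) (hz' : VI (rep n b0 lam) (pf K w0) y' z') (R : W) :
    (n R : ℝ) * ((pf K w0 (lam R * eta b0 z' R) - pf K w0 (lam R * eta b0 z R)) *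
      (lam R * eta b0 z' R - lam R * eta b0 z R)) ≤ nrm (y' - y) ^ 2 / 4 := by
  classical
  have hmono := (prove_POT1 K w0 hK hw0 hw1).2.2.1
  obtain ⟨-, -, -, h4⟩ := prove_TWO V _ (rep n b0 lam) (pf K w0) hmono y y' z z' hz hz'
  rw [nrm_sq]
  refine le_trans ?_ h4
  rw [Fintype.sum_sigma]
  have hnn : ∀ p : Σ R : W, Fin (n R), 0 ≤ (pf K w0 (eta (rep n b0 lam) z' p) -
      pf K w0 (eta (rep n b0 lam) z p)) *
      (eta (rep n b0 lam) z' p - eta (rep n b0 lam) z p) := by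
    intro p
    rcases le_total (eta (rep n b0 lam) z p) (eta (rep n b0 lam) z' p) with h | h
    · exact mul_nonneg (sub_nonneg.2 (hmono h)) (sub_nonneg.2 h)
    · exact mul_nonneg_of_nonpos_of_nonpos (sub_nonpos.2 (hmono h)) (sub_nonpos.2 h)
  refine le_trans (le_of_eq ?_) (Finset.single_le_sum (f := fun R => ∑ i : Fin (n R),
    (pf K w0 (eta (rep n b0 lam) z' ⟨R, i⟩) - pf K w0 (eta (rep n b0 lam) z ⟨R, i⟩)) *
      (eta (rep n b0 lam) z' ⟨R, i⟩ - eta (rep n b0 lam) z ⟨R, i⟩))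
    (fun R' _ => Finset.sum_nonneg fun i _ => hnn ⟨R', i⟩) (Finset.mem_univ R))
  simp only [eta_rep, Finset.sum_const, Finset.card_univ, Fintype.card_fin, nsmul_eq_mul]

/-- the square roots of the stiffnesses are integrated to `1/2`-Lipschitz functions -/
theorem rep_th (hK : 1 ≤ K) (hw0 : 0 < w0) (hw1 : w0 ≤ 1) (R : W) (hlam : 1 ≤ lam R)
    (h : lam R * (K' R + 1) = K + 1) (hn : lam R ^ 2 ≤ n R) (y y' z z' : V → ℝ)
    (hz : VI (rep n b0 lam) (pf K w0) y z) (hz' : VI (rep n b0 lam) (pf K w0) y' z') :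
    |th (K' R) (w0 / lam R) (eta b0 z' R) - th (K' R) (w0 / lam R) (eta b0 z R)| ≤
      nrm (y' - y) / 2 := by
  have hl0 : 0 < lam R := by linarith
  have h1 := rep_energy hK hw0 hw1 y y' z z' hz hz' R
  have h2 := (prove_POT1 K w0 hK hw0 hw1).2.2.2.2.2.2.2 (lam R * eta b0 z R) (lam R * eta b0 z' R)
  rw [th_scale hl0 h, th_scale hl0 h] at h2
  have h3 : (lam R) ^ 2 * ((lam R)⁻¹ * th (K' R) (w0 / lam R) (eta b0 z' R) -
      (lam R)⁻¹ * th (K' R) (w0 / lam R) (eta b0 z R)) ^ 2 =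
      (th (K' R) (w0 / lam R) (eta b0 z' R) - th (K' R) (w0 / lam R) (eta b0 z R)) ^ 2 := by
    field_simp
  have h4 : 0 ≤ ((lam R)⁻¹ * th (K' R) (w0 / lam R) (eta b0 z' R) -
      (lam R)⁻¹ * th (K' R) (w0 / lam R) (eta b0 z R)) ^ 2 := sq_nonneg _
  have h5 : (th (K' R) (w0 / lam R) (eta b0 z' R) - th (K' R) (w0 / lam R) (eta b0 z R)) ^ 2 ≤
      (nrm (y' - y) / 2) ^ 2 := by
    rw [← h3]
    calc (lam R) ^ 2 * ((lam R)⁻¹ * th (K' R) (w0 / lam R) (eta b0 z' R) -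
          (lam R)⁻¹ * th (K' R) (w0 / lam R) (eta b0 z R)) ^ 2
        ≤ (n R : ℝ) * ((lam R)⁻¹ * th (K' R) (w0 / lam R) (eta b0 z' R) -
          (lam R)⁻¹ * th (K' R) (w0 / lam R) (eta b0 z R)) ^ 2 :=
          mul_le_mul_of_nonneg_right hn h4
      _ ≤ (n R : ℝ) * ((lam R * eta b0 z' R - lam R * eta b0 z R) *
          (pf K w0 (lam R * eta b0 z' R) - pf K w0 (lam R * eta b0 z R))) :=
          mul_le_mul_of_nonneg_left h2 (Nat.cast_nonneg _)
      _ = (n R : ℝ) * ((pf K w0 (lam R * eta b0 z' R) - pf K w0 (lam R * eta b0 z R)) *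
          (lam R * eta b0 z' R - lam R * eta b0 z R)) := by ring
      _ ≤ nrm (y' - y) ^ 2 / 4 := h1
      _ = (nrm (y' - y) / 2) ^ 2 := by ring
  exact abs_le_of_sq_le_sq h5 (by have := nrm_nonneg (y' - y); linarith)

/-- short rows -/
theorem rep_short (hK : 1 ≤ K) (hw0 : 0 < w0) (hw1 : w0 ≤ 1) (R : W)
    (hb : ∑ v, b0 R v ^ 2 ≤ 1) (y y' z z' : V → ℝ)
    (hz : VI (rep n b0 lam) (pf K w0) y z) (hz' : VI (rep n b0 lam) (pf K w0) y' z') :
    |eta b0 z' R - eta b0 z R| ≤ nrm (y' - y) := by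
  have hmono := (prove_POT1 K w0 hK hw0 hw1).2.2.1
  obtain ⟨-, -, hnrm, -⟩ := prove_TWO V _ (rep n b0 lam) (pf K w0) hmono y y' z z' hz hz'
  have h4 : eta b0 z' R - eta b0 z R = ∑ u, b0 R u * (z' - z) u := by
    unfold eta
    rw [← Finset.sum_sub_distrib]
    exact Finset.sum_congr rfl fun u _ => by simp only [Pi.sub_apply]; ring
  have h5 := Finset.sum_mul_sq_le_sq_mul_sq Finset.univ (b0 R) (z' - z)
  rw [← h4] at h5
  refine abs_le_of_sq_le_sq ?_ (nrm_nonneg _)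
  refine h5.trans ?_
  have h6 : ∑ u, (z' - z) u ^ 2 = nrm (z' - z) ^ 2 := (nrm_sq (z' - z)).symm
  rw [h6]
  calc (∑ u, b0 R u ^ 2) * nrm (z' - z) ^ 2 ≤ 1 * nrm (y' - y) ^ 2 := by
        refine mul_le_mul hb ?_ (sq_nonneg _) zero_le_one
        exact pow_le_pow_left₀ (nrm_nonneg _) hnrm 2
    _ = nrm (y' - y) ^ 2 := one_mul _

/-- long rows -/
theorem rep_long (hK : 1 ≤ K) (hw0 : 0 < w0) (hw1 : w0 ≤ 1) (R : W) (hlam : 1 ≤ lam R)
    (h : lam R * (1 + 1) = K + 1) (hn : 4 * lam R ^ 2 ≤ n R) (y y' z z' : V → ℝ)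
    (hz : VI (rep n b0 lam) (pf K w0) y z) (hz' : VI (rep n b0 lam) (pf K w0) y' z') :
    |eta b0 z' R - eta b0 z R| ≤ nrm (y' - y) := by
  have hl0 : 0 < lam R := by linarith
  have h1 := rep_energy hK hw0 hw1 y y' z z' hz hz' R
  rw [pf_scale hl0 h, pf_scale hl0 h] at h1
  have hw0' : 0 < w0 / lam R := div_pos hw0 hl0
  have hw1' : w0 / lam R ≤ 1 := by
    rw [div_le_one hl0]
    linarith
  have h2 := pf_lower' (w0 / lam R) hw0' hw1' (eta b0 z R) (eta b0 z' R)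
  have h3 : (((lam R)⁻¹) ^ 3 * pf 1 (w0 / lam R) (eta b0 z' R) -
      ((lam R)⁻¹) ^ 3 * pf 1 (w0 / lam R) (eta b0 z R)) *
      (lam R * eta b0 z' R - lam R * eta b0 z R) = ((lam R) ^ 2)⁻¹ *
      ((pf 1 (w0 / lam R) (eta b0 z' R) - pf 1 (w0 / lam R) (eta b0 z R)) *
      (eta b0 z' R - eta b0 z R)) := by
    field_simp
  rw [h3] at h1
  have h4 : (1 / 4) * (eta b0 z' R - eta b0 z R) ^ 2 ≤ nrm (y' - y) ^ 2 / 4 := by
    calc (1 / 4) * (eta b0 z' R - eta b0 z R) ^ 2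
        = (4 * lam R ^ 2) * (((lam R) ^ 2)⁻¹ * ((1 / 16) * (eta b0 z' R - eta b0 z R) ^ 2)) := by
          field_simp
          ring
      _ ≤ (n R : ℝ) * (((lam R) ^ 2)⁻¹ * ((1 / 16) * (eta b0 z' R - eta b0 z R) ^ 2)) :=
          mul_le_mul_of_nonneg_right hn (by positivity)
      _ ≤ (n R : ℝ) * (((lam R) ^ 2)⁻¹ *
          ((pf 1 (w0 / lam R) (eta b0 z' R) - pf 1 (w0 / lam R) (eta b0 z R)) *
          (eta b0 z' R - eta b0 z R))) := by
          refine mul_le_mul_of_nonneg_left ?_ (Nat.cast_nonneg _)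
          exact mul_le_mul_of_nonneg_left h2 (by positivity)
      _ ≤ _ := h1
  refine abs_le_of_sq_le_sq ?_ (nrm_nonneg _)
  linarith

end

end

end Pool.Agent.K4H80.BF
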