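import Pool.Agent.R959.LD3.Final3

set_option autoImplicit false

/-!
# Stiff rows: the row sums are Lipschitz functions of the input although the rows are long

The library (`Pool.Agent.H320R2.LD`) uses `∑ v, b R v ^ 2 ≤ 1` for all rows. Here this hypothesis is
replaced by `Stf`: all row sums of the solution of the variational inequality are `1`-Lipschitz
functions of the input. It holds when every row is repeated four times and `K = 1`.
-/

open MeasureTheory ProbabilityTheory

namespace Pool.Agent.K4H80.BF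

open Pool.Agent.H320R2.LD

noncomputable section

/-- all row sums of the solution are `1`-Lipschitz functions of the input -/
def Stf {V W : Type} [Fintype V] [Fintype W] (b : W → V → ℝ) (K w0 : ℝ) : Prop :=
  ∀ (R : W) (y y' z z' : V → ℝ), VI b (pf K w0) y z → VI b (pf K w0) y' z' →
    |eta b z' R - eta b z R| ≤ nrm (y' - y)

theorem nrm_sq {V : Type} [Fintype V] (x : V → ℝ) : nrm x ^ 2 = nsq x :=
  Real.sq_sqrt (Finset.sum_nonneg fun _ _ => sq_nonneg _)

theorem nrm_nonneg {V : Type} [Fintype V] (x : V → ℝ) : 0 ≤ nrm x := Real.sqrt_nonneg _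

/-- short rows -/
theorem stf_of_row {V W : Type} [Fintype V] [Fintype W] (b : W → V → ℝ) (K w0 : ℝ)
    (hK : 1 ≤ K) (hw0 : 0 < w0) (hw1 : w0 ≤ 1) (hb : ∀ R, ∑ v, b R v ^ 2 ≤ 1) : Stf b K w0 := by
  intro R y y' z z' hz hz'
  have hmono := (prove_POT1 K w0 hK hw0 hw1).2.2.1
  obtain ⟨-, -, hnrm, -⟩ := prove_TWO V W b (pf K w0) hmono y y' z z' hz hz'
  have h4 : eta b z' R - eta b z R = ∑ u, b R u * (z' - z) u := by
    unfold eta
    rw [← Finset.sum_sub_distrib]
    exact Finset.sum_congr rfl fun u _ => by simp only [Pi.sub_apply]; ring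
  have h5 := Finset.sum_mul_sq_le_sq_mul_sq Finset.univ (b R) (z' - z)
  rw [← h4] at h5
  refine abs_le_of_sq_le_sq ?_ (nrm_nonneg _)
  refine h5.trans ?_
  have h6 : ∑ u, (z' - z) u ^ 2 = nrm (z' - z) ^ 2 := (nrm_sq (z' - z)).symm
  rw [h6]
  calc (∑ u, b R u ^ 2) * nrm (z' - z) ^ 2 ≤ 1 * nrm (y' - y) ^ 2 := by
        refine mul_le_mul (hb R) ?_ (sq_nonneg _) zero_le_one
        exact pow_le_pow_left₀ (nrm_nonneg _) hnrm 2
    _ = nrm (y' - y) ^ 2 := one_mul _

/-- the force grows at least linearly -/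
theorem pf_lower (w0 : ℝ) (hw0 : 0 < w0) (hw1 : w0 ≤ 1) (x y : ℝ) (hxy : x ≤ y) :
    (1 / 16) * (y - x) ≤ pf 1 w0 y - pf 1 w0 x := by
  have hc : Continuous (hf 1 w0) := EH.continuous_hf 1 w0 hw0
  have hi : ∀ a b : ℝ, IntervalIntegrable (hf 1 w0) volume a b := fun a b =>
    hc.intervalIntegrable a b
  have h1 : pf 1 w0 y - pf 1 w0 x = ∫ u in x..y, hf 1 w0 u := by
    unfold pf
    exact intervalIntegral.integral_interval_sub_left (hi 0 y) (hi 0 x)
  rw [h1]
  have h2 : ∀ u, (1 / 16 : ℝ) ≤ hf 1 w0 u := by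
    intro u
    unfold hf
    have h3 : wf 1 w0 u ≤ 2 := by
      unfold wf
      refine max_le ?_ (by linarith)
      have := abs_nonneg u
      linarith
    have h4 : 0 < wf 1 w0 u := EH.wf_pos 1 w0 hw0 u
    have h5 : (1 / 2 : ℝ) ≤ (wf 1 w0 u)⁻¹ := by
      rw [one_div]
      exact inv_anti₀ h4 h3
    calc (1 / 16 : ℝ) = (1 / 2) ^ 4 := by norm_num
      _ ≤ _ := pow_le_pow_left₀ (by norm_num) h5 4
  have h6 : ∫ u in x..y, (1 / 16 : ℝ) ≤ ∫ u in x..y, hf 1 w0 u :=
    intervalIntegral.integral_mono_on hxy (intervalIntegrable_const) (hi x y) fun u _ => h2 u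
  rw [intervalIntegral.integral_const, smul_eq_mul] at h6
  linarith

theorem pf_lower' (w0 : ℝ) (hw0 : 0 < w0) (hw1 : w0 ≤ 1) (x y : ℝ) :
    (1 / 16) * (y - x) ^ 2 ≤ (pf 1 w0 y - pf 1 w0 x) * (y - x) := by
  rcases le_total x y with h | h
  · have h1 := pf_lower w0 hw0 hw1 x y h
    nlinarith [sub_nonneg.2 h]
  · have h1 := pf_lower w0 hw0 hw1 y x h
    nlinarith [sub_nonneg.2 h]

/-- rows of arbitrary length, repeated four times -/
theorem stf_of_copies {V W : Type} [Fintype V] [Fintype W] (b : W × Fin 4 → V → ℝ) (w0 : ℝ)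
    (hw0 : 0 < w0) (hw1 : w0 ≤ 1) (hb : ∀ R i v, b (R, i) v = b (R, 0) v) : Stf b 1 w0 := by
  classical
  rintro ⟨R, i⟩ y y' z z' hz hz'
  have hmono := (prove_POT1 1 w0 le_rfl hw0 hw1).2.2.1
  obtain ⟨-, -, -, h4⟩ := prove_TWO V (W × Fin 4) b (pf 1 w0) hmono y y' z z' hz hz'
  have he : ∀ (x : V → ℝ) (j : Fin 4), eta b x (R, j) = eta b x (R, 0) := by
    intro x j
    unfold eta
    exact Finset.sum_congr rfl fun v _ => by rw [hb R j v]
  rw [he z' i, he z i]
  have h5 : ∑ j : Fin 4, (pf 1 w0 (eta b z' (R, j)) - pf 1 w0 (eta b z (R, j))) *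
      (eta b z' (R, j) - eta b z (R, j)) ≤ nsq (y' - y) / 4 := by
    refine le_trans ?_ h4
    rw [Fintype.sum_prod_type]
    refine Finset.single_le_sum (f := fun R => ∑ j : Fin 4,
      (pf 1 w0 (eta b z' (R, j)) - pf 1 w0 (eta b z (R, j))) *
      (eta b z' (R, j) - eta b z (R, j))) (fun R' _ => ?_) (Finset.mem_univ R)
    refine Finset.sum_nonneg fun j _ => ?_
    refine le_trans ?_ (pf_lower' w0 hw0 hw1 _ _)
    positivity
  have h6 : ∀ j : Fin 4, (1 / 16) * (eta b z' (R, 0) - eta b z (R, 0)) ^ 2 ≤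
      (pf 1 w0 (eta b z' (R, j)) - pf 1 w0 (eta b z (R, j))) *
      (eta b z' (R, j) - eta b z (R, j)) := by
    intro j
    rw [he z' j, he z j]
    exact pf_lower' w0 hw0 hw1 _ _
  have h7 : ∑ j : Fin 4, (1 / 16) * (eta b z' (R, 0) - eta b z (R, 0)) ^ 2 ≤ nsq (y' - y) / 4 :=
    (Finset.sum_le_sum fun j _ => h6 j).trans h5
  rw [Finset.sum_const, Finset.card_univ, Fintype.card_fin, nsmul_eq_mul] at h7
  refine abs_le_of_sq_le_sq ?_ (nrm_nonneg _)
  rw [nrm_sq]
  push_cast at h7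
  linarith

open Classical in
/-- response to a shift of one coordinate (`SHIFT` with `Stf`) -/
theorem shift4 {V W : Type} [Fintype V] [Fintype W] (b : W → V → ℝ) (K w0 : ℝ)
    (hK : 1 ≤ K) (hw0 : 0 < w0) (hw1 : w0 ≤ 1) (hb : Stf b K w0)
    (δ : ℝ) (hδ : 0 < δ) (hδ2 : δ ≤ w0 / 2) (v : V) (y z z' : V → ℝ)
    (hz : VI b (pf K w0) y z)
    (hz' : VI b (pf K w0) (fun u => y u + if u = v then δ else 0) z') :
    δ * (1 - |z v| - 16 * (∑ R, b R v ^ 2 * hf K w0 (eta b z R)) - δ) ≤ z' v - z v := by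
  obtain ⟨-, -, hmono, -, -, -, hlip, -⟩ := prove_POT1 K w0 hK hw0 hw1
  obtain ⟨-, -, hcmp, -⟩ := prove_POT2 K w0 hK hw0 hw1
  set y' : V → ℝ := fun u => y u + if u = v then δ else 0 with hy'
  obtain ⟨-, hen, hnrm, -⟩ := prove_TWO V W b (pf K w0) hmono y y' z z' hz hz'
  set D : ℝ := z' v - z v with hD
  -- right hand side of the energy inequality
  have hrhs : ∑ u, (y' u - y u) * (z' u - z u) = δ * D := by
    have : ∀ u, (y' u - y u) * (z' u - z u) = if u = v then δ * D else 0 := by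
      intro u
      simp only [hy']
      split_ifs with h
      · subst h; ring
      · ring
    rw [Finset.sum_congr rfl fun u _ => this u]
    simp
  rw [hrhs] at hen
  set e : W → ℝ := fun R => (pf K w0 (eta b z' R) - pf K w0 (eta b z R)) *
    (eta b z' R - eta b z R) with he
  have he0 : ∀ R, 0 ≤ e R := by
    intro R
    simp only [he]
    rcases le_total (eta b z R) (eta b z' R) with h | h
    · exact mul_nonneg (sub_nonneg.2 (hmono h)) (sub_nonneg.2 h)
    · exact mul_nonneg_of_nonpos_of_nonpos (sub_nonpos.2 (hmono h)) (sub_nonpos.2 h)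
  have hE0 : 0 ≤ ∑ R, e R := Finset.sum_nonneg fun R _ => he0 R
  have hDn : D ^ 2 ≤ nsq (z' - z) := by
    unfold nsq
    have := Finset.single_le_sum (f := fun u => (z' - z) u ^ 2) (fun u _ => sq_nonneg _)
      (Finset.mem_univ v)
    simpa [hD] using this
  have hn0 : 0 ≤ nsq (z' - z) := Finset.sum_nonneg fun u _ => sq_nonneg _
  have h3 : D ^ 2 + ∑ R, e R ≤ δ * D := by linarith
  have hD0 : 0 ≤ D := by
    by_contra hc
    push Not at hc
    nlinarith [sq_nonneg D]
  -- the norm of the shift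
  have hny : nrm (y' - y) = δ := by
    unfold nrm nsq
    have : ∀ u, (y' - y) u ^ 2 = if u = v then δ ^ 2 else 0 := by
      intro u
      simp only [hy', Pi.sub_apply]
      split_ifs with h
      · ring
      · ring
    rw [Finset.sum_congr rfl fun u _ => this u]
    simp [Real.sqrt_sq hδ.le]
  -- the row sums move little
  have hη : ∀ R, |eta b z' R - eta b z R| ≤ w0 / 2 := by
    intro R
    have h4 := hb R y y' z z' hz hz'
    rw [hny] at h4
    linarith
  rw [hny] at hnrm
  have hnsq : nsq (z' - z) ≤ δ ^ 2 := by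
    have h1 : nsq (z' - z) = nrm (z' - z) ^ 2 := (Real.sq_sqrt hn0).symm
    rw [h1]
    exact pow_le_pow_left₀ (Real.sqrt_nonneg _) hnrm 2
  have hDδ : D ≤ δ := by
    have : D ^ 2 ≤ δ ^ 2 := hDn.trans hnsq
    exact (abs_le_of_sq_le_sq' this hδ.le).2
  set L : ℝ := 16 * ∑ R, b R v ^ 2 * hf K w0 (eta b z R) with hL
  have hL0 : 0 ≤ L := by
    rw [hL]
    exact mul_nonneg (by norm_num)
      (Finset.sum_nonneg fun R _ => mul_nonneg (sq_nonneg _) (SHIFT.hf_nonneg _ _ _))
  -- the clipped cases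
  rcases eq_or_lt_of_le (hz.1 v) with hzv | hzv
  · have : δ * (1 - |z v| - L - δ) ≤ 0 := by
      rw [hzv]
      nlinarith
    linarith
  rcases eq_or_lt_of_le (hz'.1 v) with hzv' | hzv'
  · have h5 : 1 - |z v| ≤ δ := by
      have h6 := abs_sub_abs_le_abs_sub (z' v) (z v)
      rw [hzv', ← hD, abs_of_nonneg hD0] at h6
      linarith
    have : δ * (1 - |z v| - L - δ) ≤ 0 := by
      refine mul_nonpos_of_nonneg_of_nonpos hδ.le ?_
      linarith
    linarith
  -- the free case
  have hfree : ∀ (F c : ℝ), |c| < 1 → (∀ d : ℝ, |d| ≤ 1 → 0 ≤ F * (d - c)) → F = 0 := by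
    intro F c hc h
    have h1 := h 1 (by norm_num)
    have h2 := h (-1) (by norm_num)
    rw [abs_lt] at hc
    rcases lt_trichotomy F 0 with hF | hF | hF
    · nlinarith
    · exact hF
    · nlinarith
  have hF := hfree _ _ hzv (hz.2 v)
  have hF' := hfree _ _ hzv' (hz'.2 v)
  have hy'v : y' v = y v + δ := by simp [hy']
  have h1 : δ = D + ∑ R, b R v * (pf K w0 (eta b z' R) - pf K w0 (eta b z R)) := by
    have : ∑ R, b R v * (pf K w0 (eta b z' R) - pf K w0 (eta b z R)) =
        ∑ R, b R v * pf K w0 (eta b z' R) - ∑ R, b R v * pf K w0 (eta b z R) := by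
      rw [← Finset.sum_sub_distrib]
      exact Finset.sum_congr rfl fun R _ => by ring
    rw [this, hD]
    rw [hy'v] at hF'
    linarith
  have hterm : ∀ R, (b R v * (pf K w0 (eta b z' R) - pf K w0 (eta b z R))) ^ 2 ≤
      (16 * (b R v ^ 2 * hf K w0 (eta b z R))) * e R := by
    intro R
    have hh := SHIFT.hf_nonneg K w0 (eta b z R)
    have hc1 : hf K w0 (eta b z' R) ≤ 16 * hf K w0 (eta b z R) := hcmp _ _ (hη R)
    have key : (pf K w0 (eta b z' R) - pf K w0 (eta b z R)) ^ 2 ≤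
        16 * hf K w0 (eta b z R) * e R := by
      simp only [he]
      rcases le_total (eta b z R) (eta b z' R) with h | h
      · have h7 := hlip _ _ h
        have h8 : max (hf K w0 (eta b z R)) (hf K w0 (eta b z' R)) ≤
            16 * hf K w0 (eta b z R) := max_le (by linarith) hc1
        have h9 := hmono h
        have h10 : pf K w0 (eta b z' R) - pf K w0 (eta b z R) ≤
            16 * hf K w0 (eta b z R) * (eta b z' R - eta b z R) :=
          h7.trans (mul_le_mul_of_nonneg_right h8 (sub_nonneg.2 h))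
        have h11 : 0 ≤ pf K w0 (eta b z' R) - pf K w0 (eta b z R) := sub_nonneg.2 h9
        nlinarith
      · have h7 := hlip _ _ h
        have h8 : max (hf K w0 (eta b z' R)) (hf K w0 (eta b z R)) ≤
            16 * hf K w0 (eta b z R) := max_le hc1 (by linarith)
        have h9 := hmono h
        have h10 : pf K w0 (eta b z R) - pf K w0 (eta b z' R) ≤
            16 * hf K w0 (eta b z R) * (eta b z R - eta b z' R) :=
          h7.trans (mul_le_mul_of_nonneg_right h8 (sub_nonneg.2 h))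
        have h11 : 0 ≤ pf K w0 (eta b z R) - pf K w0 (eta b z' R) := sub_nonneg.2 h9
        nlinarith
    calc (b R v * (pf K w0 (eta b z' R) - pf K w0 (eta b z R))) ^ 2
        = b R v ^ 2 * (pf K w0 (eta b z' R) - pf K w0 (eta b z R)) ^ 2 := by ring
      _ ≤ b R v ^ 2 * (16 * hf K w0 (eta b z R) * e R) :=
          mul_le_mul_of_nonneg_left key (sq_nonneg _)
      _ = (16 * (b R v ^ 2 * hf K w0 (eta b z R))) * e R := by ring
  have h2 := SHIFT.sum_cs Finset.univ _ (fun R => 16 * (b R v ^ 2 * hf K w0 (eta b z R))) e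
    (fun R => mul_nonneg (by norm_num) (mul_nonneg (sq_nonneg _) (SHIFT.hf_nonneg _ _ _))) he0 hterm
  rw [← Finset.mul_sum, ← hL] at h2
  have h12 := SHIFT.final hδ hL0 hE0 h1 h2 h3
  have h13 : δ * (1 - |z v| - L - δ) ≤ δ * (1 - L) := by
    refine mul_le_mul_of_nonneg_left ?_ hδ.le
    have := abs_nonneg (z v)
    linarith
  linarith

end

end Pool.Agent.K4H80.BF
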